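import Pool.Agent.H534.RS.EngP
import Pool.Graph.R_seed8.Y677.RSZ.Fin

/-!
# Uniform constellations in relatively dense sets of arguments with rough polynomial values
-/

set_option autoImplicit false

open Finset Filter Polynomial

namespace Pool.Agent.H534.UT

open Pool.Agent.H534.RS
open Pool.Agent.Y677.RSZ
open Pool.Agent.W123.RP Pool.Agent.H373R2.T7 Pool.Agent.W123.RU Pool.Agent.W123.RU.Poly
open Pool.Agent.TH423.SH (PS)

variable {ι : Type} [Fintype ι]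

/-- the sieve product splits -/
theorem V_dW (F : ℤ → ℤ) (W H : ℕ) (hW : 0 < W) (hWH : ∀ p : ℕ, p.Prime → p ∣ W → p ≤ H) :
    V F 1 H = dW F W * V F W H := by
  rw [V_split (F := F) W H hW.ne' hWH]
  rfl

/-- the sieve product of the primes up to `ε log H` -/
theorem dW_WW (F : ℤ → ℤ) (ε : ℝ) (H : ℕ) : dW F (WW ε H) = V F 1 ⌊ε * Real.log H⌋₊ := by
  unfold dW V WW
  apply prod_congr _ (fun _ _ => rfl)
  ext p
  rw [Nat.mem_primeFactors]
  unfold Pool.Agent.TH423.SH.PS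
  rw [mem_filter, mem_Icc]
  constructor
  · rintro ⟨hp, hd, -⟩
    have := (hp.dvd_primorial_iff).1 hd
    exact ⟨⟨hp.pos, this⟩, hp, fun h => hp.one_lt.ne' (Nat.dvd_one.1 h)⟩
  · rintro ⟨hlt, hp, -⟩
    exact ⟨hp, (hp.dvd_primorial_iff).2 hlt.2, (primorial_pos _).ne'⟩

/-- numerical facts -/
theorem num1 (ε κ : ℝ) (hε : 0 < ε) (hκ : 0 < κ) (k n₀ g K : ℕ) : ∃ H₀ : ℕ, ∀ H : ℕ, H₀ ≤ H →
    16 ≤ H ∧ 1 ≤ Real.log (Real.log H) ∧ 3 ≤ ⌊ε * Real.log H⌋₊ ∧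
    Real.log (Real.log H) / 2 ≤ Real.log ⌊ε * Real.log H⌋₊ ∧ ε * Real.log H ≤ H ∧
    (n₀ : ℝ) ≤ κ / 2 * (H / Real.log H ^ k) ∧ (K : ℝ) ≤ H ∧
    (H : ℝ) ^ g + H + n₀ + 1 ≤ (H : ℝ) ^ (g + 2) := by
  have hNr : Tendsto (fun H : ℕ => (H : ℝ)) atTop atTop := tendsto_natCast_atTop_atTop
  have hl : Tendsto (fun H : ℕ => Real.log (H : ℝ)) atTop atTop := Real.tendsto_log_atTop.comp hNr
  have hll : Tendsto (fun H : ℕ => Real.log (Real.log (H : ℝ))) atTop atTop := Real.tendsto_log_atTop.comp hl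
  have hεl : Tendsto (fun H : ℕ => ε * Real.log (H : ℝ)) atTop atTop := hl.const_mul_atTop hε
  have hlog : Tendsto (fun H : ℕ => Real.log (H : ℝ) ^ k / (H : ℝ)) atTop (nhds 0) := by
    have h := (Real.isLittleO_pow_log_id_atTop (n := k)).tendsto_div_nhds_zero.comp hNr
    exact h
  have hlog1 : Tendsto (fun H : ℕ => Real.log (H : ℝ) ^ 1 / (H : ℝ)) atTop (nhds 0) := by
    have h := (Real.isLittleO_pow_log_id_atTop (n := 1)).tendsto_div_nhds_zero.comp hNr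
    exact h
  have h1 : ∀ᶠ H : ℕ in atTop, Real.log (H : ℝ) ^ k / (H : ℝ) ≤ κ / (2 * (n₀ + 1)) :=
    (hlog.eventually (ge_mem_nhds (by positivity)))
  have h2 : ∀ᶠ H : ℕ in atTop, Real.log (H : ℝ) ^ 1 / (H : ℝ) ≤ 1 / ε :=
    (hlog1.eventually (ge_mem_nhds (by positivity)))
  have h3 : ∀ᶠ x : ℝ in atTop, Real.log x / 2 ≤ Real.log ⌊ε * x⌋₊ := by
    -- for large `x`, `sqrt x ≤ ⌊ε x⌋`
    have hs : Tendsto (fun x : ℝ => Real.sqrt x) atTop atTop := Real.tendsto_sqrt_atTop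
    filter_upwards [hs.eventually_ge_atTop (2 / ε + 1), eventually_ge_atTop (1 : ℝ)] with x hx hx1
    have hx0 : 0 < x := by linarith
    have hs0 : 0 ≤ Real.sqrt x := Real.sqrt_nonneg _
    have hsq : Real.sqrt x * Real.sqrt x = x := Real.mul_self_sqrt hx0.le
    have e1 : 2 * Real.sqrt x ≤ ε * x := by
      have : 2 / ε ≤ Real.sqrt x := by linarith
      rw [div_le_iff₀ hε] at this
      calc 2 * Real.sqrt x ≤ (Real.sqrt x * ε) * Real.sqrt x := by gcongr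
        _ = ε * (Real.sqrt x * Real.sqrt x) := by ring
        _ = ε * x := by rw [hsq]
    have e2 : 1 ≤ Real.sqrt x := by
      have : 0 < 2 / ε := by positivity
      linarith
    have e3 : Real.sqrt x ≤ (⌊ε * x⌋₊ : ℝ) := by
      have := Nat.lt_floor_add_one (ε * x)
      linarith
    calc Real.log x / 2 = Real.log (Real.sqrt x) := by rw [Real.log_sqrt hx0.le]
      _ ≤ _ := Real.log_le_log (by linarith) e3
  obtain ⟨H₀, hH₀⟩ := eventually_atTop.1 (((eventually_ge_atTop (16 + K + n₀ + 1)).and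
    ((hll.eventually_ge_atTop 1).and ((hεl.eventually_ge_atTop 3).and ((hl.eventually h3).and (h1.and h2))))))
  refine ⟨H₀, fun H hH => ?_⟩
  obtain ⟨a1, a2, a3, a4, a5, a6⟩ := hH₀ H hH
  have hHr : ((16 + K + n₀ + 1 : ℕ) : ℝ) ≤ H := by exact_mod_cast a1
  push_cast at hHr
  have hK0 : (0 : ℝ) ≤ K := Nat.cast_nonneg _
  have hn0 : (0 : ℝ) ≤ n₀ := Nat.cast_nonneg _
  have hH0 : (0 : ℝ) < H := by linarith
  have hlogp : 0 < Real.log (H : ℝ) := Real.log_pos (by linarith)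
  refine ⟨by omega, a2, Nat.le_floor (by exact_mod_cast a3), a4, ?_, ?_, by linarith, ?_⟩
  · rw [pow_one, div_le_iff₀ hH0, one_div, inv_mul_eq_div, le_div_iff₀ hε] at a6
    linarith
  · rw [div_le_iff₀ hH0] at a5
    rw [← mul_div_assoc, le_div_iff₀ (by positivity)]
    calc (n₀ : ℝ) * Real.log H ^ k ≤ n₀ * (κ / (2 * (n₀ + 1)) * H) := by gcongr
      _ ≤ (n₀ + 1) * (κ / (2 * (n₀ + 1)) * H) := by
          have : 0 ≤ κ / (2 * (n₀ + 1)) * H := by positivity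
          nlinarith
      _ = _ := by field_simp
  · have h1g : (1 : ℝ) ≤ (H : ℝ) ^ g := one_le_pow₀ (by linarith)
    have e : (H : ℝ) ^ (g + 2) = (H : ℝ) ^ g * (H * H) := by ring
    have e5 : 1 + (H + n₀ + 1 : ℝ) ≤ H * H := by nlinarith [mul_nonneg hK0 hH0.le, mul_nonneg hn0 hH0.le]
    rw [e]
    calc (H : ℝ) ^ g + H + n₀ + 1 = (H : ℝ) ^ g * 1 + 1 * (H + n₀ + 1) := by ring
      _ ≤ (H : ℝ) ^ g * 1 + (H : ℝ) ^ g * (H + n₀ + 1) := by gcongr
      _ = (H : ℝ) ^ g * (1 + (H + n₀ + 1)) := by ring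
      _ ≤ _ := by gcongr

open Classical in
/-- **Uniform constellations in relatively dense sets of arguments with rough polynomial values.** -/
theorem polyP [Nonempty ι] (f : ι → ℤ[X]) (hf : Poly.Sys f) (r g : ℕ) (hr : 1 ≤ r) (δ κ ε : ℝ)
    (hδ : 0 < δ) (hκ : 0 < κ) (hε : 0 < ε) (hε8 : 8 * ε ≤ 1) :
    ∃ c : ℝ, 0 < c ∧ ∃ H₀ : ℕ, ∀ (Y H : ℕ) (A : Finset ℕ), H₀ ≤ H → (Y : ℝ) ≤ (H : ℝ) ^ g →
    A ⊆ Ioc Y (Y + H) →
    (∀ n ∈ A, ∀ i, ∀ p : ℕ, p.Prime → (p : ℝ) ≤ (H : ℝ) ^ δ → ¬ (p : ℤ) ∣ (f i).eval (n : ℤ)) →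
    κ * (H / Real.log H ^ (Fintype.card ι)) ≤ A.card →
    ∀ b : Fin r → ℕ, Function.Injective b → (∀ l, 1 ≤ b l) → (∀ l, (b l : ℝ) ≤ H / ((H : ℝ) ^ ε) ^ 5) →
    ∃ D : Finset ℕ, c * (H : ℝ) ^ ε ≤ D.card ∧ ∀ d ∈ D, 1 ≤ d ∧ (d : ℝ) ≤ (H : ℝ) ^ ε ∧
      c * (H * Real.log (Real.log H) ^ (Fintype.card ι * r) / Real.log H ^ (Fintype.card ι * (r + 1))) ≤
        ((solN A (WW ε H) b d).card : ℝ) := by
  obtain ⟨k, hk⟩ : ∃ k, k = Fintype.card ι := ⟨_, rfl⟩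
  rw [← hk]
  obtain ⟨v, Cv, hv, hCv, hV⟩ := V_bounds f hf
  rw [← hk] at hV
  set P : ℤ[X] := ∏ i, f i with hPdef
  have hP0 : P ≠ 0 := Finset.prod_ne_zero_iff.2 (fun i _ => (hf.irr i).ne_zero)
  obtain ⟨g₀, hg₀⟩ := poly_all P hP0 (by
    intro p hp
    obtain ⟨m, hm⟩ := hf.adm p hp
    refine ⟨m, fun hd => ?_⟩
    obtain ⟨i, hi⟩ := (prod_dvd_iff f p hp m).1 hd
    exact hm i hi)
  obtain ⟨K, D, hKD⟩ := eval_bound P
  obtain ⟨n₀, hn₀⟩ := ne_zero_ev P hP0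
  obtain ⟨g', hg'⟩ : ∃ g' : ℕ, g' = g₀ + ((g + 2) * D + 1) := ⟨_, rfl⟩
  obtain ⟨c, H₁, hc, heng⟩ := engP r g' δ (κ / (2 * Cv)) ε hr hδ (by positivity) hε hε8
  obtain ⟨H₂, hH₂⟩ := num1 ε κ hε hκ k n₀ g K
  refine ⟨min c (c * (v ^ (r + 1) / (Cv * 2 ^ k) ^ r)), lt_min hc (by positivity), max H₁ H₂, ?_⟩
  intro Y H A hH hY hA hAr hAc b hb hb1 hb2
  have hH1 : H₁ ≤ H := le_trans (le_max_left _ _) hH
  obtain ⟨n1, n2, n3, n4, n5, n6, n7, n8⟩ := hH₂ H (le_trans (le_max_right _ _) hH)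
  have hH16 : (16 : ℝ) ≤ H := by exact_mod_cast n1
  have hH0 : (0 : ℝ) < H := by linarith
  have hlog : 0 < Real.log (H : ℝ) := Real.log_pos (by linarith)
  have hVF : ∀ z, V (fun n => P.eval n) 1 z = Vq (Poly.Q f) z := fun z => V_eq f z
  obtain ⟨A', hA'⟩ : ∃ A' : Finset ℕ, A' = A.filter (fun n => Y + n₀ < n) := ⟨_, rfl⟩
  have hA'A : A' ⊆ A := by rw [hA']; exact filter_subset _ _
  have hA'c : (A.card : ℝ) - n₀ ≤ A'.card := by
    have h1 : A ⊆ A' ∪ Ioc Y (Y + n₀) := by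
      intro n hn
      rw [mem_union]
      by_cases h : Y + n₀ < n
      · left
        rw [hA', mem_filter]
        exact ⟨hn, h⟩
      · right
        rw [mem_Ioc]
        exact ⟨(mem_Ioc.1 (hA hn)).1, by omega⟩
    have h2 := (card_le_card h1).trans (card_union_le _ _)
    rw [Nat.card_Ioc, Nat.add_sub_cancel_left] at h2
    have h3 : (A.card : ℝ) ≤ A'.card + n₀ := by exact_mod_cast h2
    linarith
  obtain ⟨D', hD'c, hD'⟩ := heng (fun n => P.eval n) (Y + n₀) H A' b (hg₀.mono (by omega)) hH1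
    (by
      intro n hn
      rw [mem_Ioc] at hn
      refine ⟨hn₀ n (by omega), ?_⟩
      have h1 := hKD (n : ℤ)
      have h2 : |((n : ℤ) : ℝ)| = (n : ℝ) := by
        rw [Int.cast_natCast, abs_of_nonneg (Nat.cast_nonneg n)]
      rw [h2] at h1
      have h3 : 1 + (n : ℝ) ≤ (H : ℝ) ^ (g + 2) := by
        have e1 : (n : ℝ) ≤ ((Y + n₀ + H : ℕ) : ℝ) := by exact_mod_cast hn.2
        push_cast at e1
        linarith
      have h4 : |((P.eval (n : ℤ) : ℤ) : ℝ)| ≤ (H : ℝ) ^ g' := by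
        refine h1.trans ?_
        calc (K : ℝ) * (1 + (n : ℝ)) ^ D ≤ H * ((H : ℝ) ^ (g + 2)) ^ D := by gcongr
          _ = (H : ℝ) ^ ((g + 2) * D + 1) := by rw [← pow_mul]; ring
          _ ≤ (H : ℝ) ^ g' := pow_le_pow_right₀ (by linarith) (by omega)
      exact_mod_cast h4)
    (by
      intro n hn
      rw [hA', mem_filter] at hn
      have := mem_Ioc.1 (hA hn.1)
      rw [mem_Ioc]
      omega)
    (by
      intro n hn p hp hpH hd
      obtain ⟨i, hi⟩ := (prod_dvd_iff f p hp n).1 hd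
      exact hAr n (hA'A hn) i p hp hpH hi)
    (by
      rw [hVF]
      have h1 := (hV H (by omega)).2
      calc κ / (2 * Cv) * (H * Vq (Poly.Q f) H) ≤ κ / (2 * Cv) * (H * (Cv / Real.log H ^ k)) := by gcongr
        _ = κ * (H / Real.log H ^ k) - κ / 2 * (H / Real.log H ^ k) := by field_simp; ring
        _ ≤ A'.card := by linarith)
    hb hb1 hb2
  refine ⟨D', le_trans ?_ hD'c, ?_⟩
  · gcongr
    exact min_le_left _ _
  · intro d hd
    obtain ⟨h1, h2, h3⟩ := hD' d hd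
    refine ⟨h1, h2, ?_⟩
    have hsub : ((solN A' (WW ε H) b d).card : ℝ) ≤ ((solN A (WW ε H) b d).card : ℝ) := by
      have : solN A' (WW ε H) b d ⊆ solN A (WW ε H) b d := by
        unfold solN
        intro n hn
        rw [mem_filter] at hn ⊢
        exact ⟨hA'A hn.1, fun l => hA'A (hn.2 l)⟩
      exact_mod_cast card_le_card this
    refine le_trans ?_ (h3.trans hsub)
    have hsplit : V (fun n => P.eval n) 1 H = dW (fun n => P.eval n) (WW ε H) * V (fun n => P.eval n) (WW ε H) H := by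
      apply V_dW _ _ _ (WW_pos ε H)
      intro p hp hd
      have h4 := (WW_dvd ε hε.le H p hp).1 hd
      have h5 : (p : ℝ) ≤ H := h4.trans n5
      exact_mod_cast h5
    have hdWe := dW_WW (fun n => P.eval n) ε H
    rw [hVF] at hdWe
    rw [hVF] at hsplit
    obtain ⟨d₁, hd₁⟩ : ∃ d₁, d₁ = dW (fun n => P.eval n) (WW ε H) := ⟨_, rfl⟩
    obtain ⟨v₁, hv₁⟩ : ∃ v₁, v₁ = V (fun n => P.eval n) (WW ε H) H := ⟨_, rfl⟩
    rw [← hd₁, ← hv₁] at hsplit
    rw [← hd₁] at hdWe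
    rw [← hd₁, ← hv₁]
    have hVH := (hV H (by omega)).1
    have hVW := (hV ⌊ε * Real.log H⌋₊ n3).2
    rw [← hdWe] at hVW
    rw [hsplit] at hVH
    have hdv0 : 0 < d₁ * v₁ := lt_of_lt_of_le (by positivity) hVH
    have hlW0 : 0 < Real.log (⌊ε * Real.log H⌋₊ : ℝ) := by linarith
    have hd0 : 0 < d₁ := by
      have hd00 : 0 ≤ d₁ := by
        rw [hdWe]
        have hl := (hV ⌊ε * Real.log H⌋₊ n3).1
        exact le_trans (by positivity) hl
      rcases hd00.lt_or_eq with h | h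
      · exact h
      · rw [← h, zero_mul] at hdv0
        exact absurd hdv0 (lt_irrefl _)
    have hv0 : 0 < v₁ := pos_of_mul_pos_right hdv0 hd0.le
    have hd4 : d₁ ≤ Cv * 2 ^ k / Real.log (Real.log H) ^ k := by
      refine hVW.trans ?_
      have e1 : (Real.log (Real.log H) / 2) ^ k ≤ Real.log (⌊ε * Real.log H⌋₊ : ℝ) ^ k := by
        gcongr
      calc Cv / Real.log (⌊ε * Real.log H⌋₊ : ℝ) ^ k ≤ Cv / (Real.log (Real.log H) / 2) ^ k := by gcongr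
        _ = _ := by rw [div_pow]; field_simp
    -- `d₁ v₁ ^ (r+1) = (d₁ v₁) ^ (r + 1) / d₁ ^ r`
    have e2 : d₁ * v₁ ^ (r + 1) = (d₁ * v₁) ^ (r + 1) / d₁ ^ r := by
      rw [mul_pow, eq_div_iff (by positivity), pow_succ d₁]
      ring
    have e3 : v ^ (r + 1) / (Cv * 2 ^ k) ^ r * (Real.log (Real.log H) ^ (k * r) / Real.log H ^ (k * (r + 1))) ≤
        d₁ * v₁ ^ (r + 1) := by
      rw [e2]
      calc v ^ (r + 1) / (Cv * 2 ^ k) ^ r * (Real.log (Real.log H) ^ (k * r) / Real.log H ^ (k * (r + 1))) =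
            (v / Real.log H ^ k) ^ (r + 1) / (Cv * 2 ^ k / Real.log (Real.log H) ^ k) ^ r := by
              rw [div_pow, div_pow, ← pow_mul, ← pow_mul]
              have : Real.log (Real.log H) ≠ 0 := by linarith
              field_simp
        _ ≤ (d₁ * v₁) ^ (r + 1) / d₁ ^ r := by gcongr
    calc min c (c * (v ^ (r + 1) / (Cv * 2 ^ k) ^ r)) *
          (H * Real.log (Real.log H) ^ (k * r) / Real.log H ^ (k * (r + 1))) ≤
          (c * (v ^ (r + 1) / (Cv * 2 ^ k) ^ r)) *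
          (H * Real.log (Real.log H) ^ (k * r) / Real.log H ^ (k * (r + 1))) := by
            gcongr
            exact min_le_right _ _
      _ = c * (H * (v ^ (r + 1) / (Cv * 2 ^ k) ^ r *
          (Real.log (Real.log H) ^ (k * r) / Real.log H ^ (k * (r + 1))))) := by ring
      _ ≤ c * (H * (d₁ * v₁ ^ (r + 1))) := by gcongr
      _ = _ := by ring

end Pool.Agent.H534.UT
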