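import Pool.Agent.H534.UT.StrB
import Pool.Graph.R_seed8.TH977.PW.PrimeArg

/-!
# Primes `p` with almost prime `(h p) ^ 2 + 1`, and strings of them, at all the places of every shape
-/

set_option autoImplicit false
set_option maxHeartbeats 4000000

open Finset Filter Polynomial

namespace Pool.Agent.H534.UT

open Pool.Agent.H534.RS
open Pool.Agent.W123.RU
open Pool.Agent.R498.MP (HX HX_eval HX_adm one_ok)

/-- `(h n) ^ 2 + 1` has at most `r` prime factors, all of them at least `w` -/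
def AV (h r : ℕ) (w : ℝ) (n : ℕ) : Prop :=
  ((h * n) ^ 2 + 1).primeFactorsList.length ≤ r ∧ ∀ p : ℕ, p.Prime → p ∣ (h * n) ^ 2 + 1 → w ≤ p

theorem adm1 (h : ℕ) (hh : Even h) (p : ℕ) (hp : p.Prime) :
    ∃ m : ℕ, ¬ p ∣ m ∧ ¬ (p : ℤ) ∣ ((h : ℤ) * m) ^ 2 + 1 := by
  obtain ⟨n, hn⟩ := HX_adm h 1 (one_ok h hh) p hp
  rw [HX_eval] at hn
  have hp0 : (p : ℤ) ≠ 0 := by exact_mod_cast hp.ne_zero
  have h1 : (((n % p).toNat : ℕ) : ℤ) = n % p := Int.toNat_of_nonneg (Int.emod_nonneg n hp0)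
  have h2 : (p : ℤ) ∣ n - (((n % p).toNat : ℕ) : ℤ) := by
    rw [h1]
    exact Int.dvd_self_sub_emod
  refine ⟨(n % p).toNat, fun hd => hn ?_, fun hd => hn ?_⟩
  · have h3 : (p : ℤ) ∣ (((n % p).toNat : ℕ) : ℤ) := by exact_mod_cast hd
    have h4 := dvd_add h2 h3
    rw [sub_add_cancel] at h4
    exact h4.mul_right _
  · have e : ((h : ℤ) * n) ^ 2 + 1 = (((h : ℤ) * (((n % p).toNat : ℕ) : ℤ)) ^ 2 + 1) +
        (n - (((n % p).toNat : ℕ) : ℤ)) * ((h : ℤ) ^ 2 * (n + (((n % p).toNat : ℕ) : ℤ))) := by ring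
    rw [e]
    exact (dvd_add hd (h2.mul_right _)).mul_left _

theorem sysB (h : ℕ) (hh : Even h) (h0 : 0 < h) :
    Poly.Sys (fun j : Bool × Fin 1 => fH h ((fun _ : Fin 1 => 0) j.2) j.1) := by
  refine sysH h h0 (fun _ : Fin 1 => 0) (fun i j _ => Subsingleton.elim i j) (fun p hp => ?_)
  obtain ⟨m, h1, h2⟩ := adm1 h hh p hp
  refine ⟨m, fun j hd => ?_⟩
  rw [fH_eval] at hd
  cases hj : j.1
  · rw [hj] at hd
    simp only [Bool.false_eq_true, if_false, Nat.cast_zero, add_zero] at hd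
    exact h1 (by exact_mod_cast hd)
  · rw [hj] at hd
    simp only [if_true, Nat.cast_zero, add_zero] at hd
    exact h2 hd

open Classical in
/-- dense sets of `n` with rough `n` and `(h n) ^ 2 + 1` -/
theorem strD (h : ℕ) (hh : Even h) (h0 : 0 < h) (k g : ℕ) (δ η κ : ℝ) (hk : 1 ≤ k) (hδ : 0 < δ)
    (hδ1 : δ ≤ 1) (hη : 0 < η) (hκ : 0 < κ) :
    ∃ c : ℝ, 0 < c ∧ ∃ H₀ : ℕ, ∀ (Y H : ℕ) (A : Finset ℕ), H₀ ≤ H → Y ≤ H ^ g → A ⊆ Ioc Y (Y + H) →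
    (∀ n ∈ A, ∀ p : ℕ, p.Prime → (p : ℝ) ≤ (H : ℝ) ^ η → ¬ p ∣ n ∧ ¬ p ∣ (h * n) ^ 2 + 1) →
    κ * (H / Real.log H ^ 2) ≤ A.card →
    ∀ b : Fin k → ℕ, Function.Injective b → (∀ i, 1 ≤ b i) → (∀ i, (b i : ℝ) ≤ (H : ℝ) ^ (1 - δ)) →
    c * (H : ℝ) ^ (δ / 8) ≤ (((Icc 1 ⌊(H : ℝ) ^ (δ / 8)⌋₊).filter (fun d =>
      c * (H * Real.log (Real.log H) ^ (2 * k) / Real.log H ^ (2 * (k + 1))) ≤
        ((A.filter (fun n => ∀ i, n + WW (δ / 8) H * d * b i ∈ A)).card : ℝ))).card : ℝ) := by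
  obtain ⟨c, hc, H₀, h⟩ := polyQ (fun j : Bool × Fin 1 => fH h ((fun _ : Fin 1 => 0) j.2) j.1)
    (sysB h hh h0) k g δ η κ hk hδ hδ1 hη hκ
  rw [Fintype.card_prod, Fintype.card_bool, Fintype.card_fin, mul_one] at h
  refine ⟨c, hc, H₀, fun Y H A hH hY hA hAr hAc b hb hb1 hb2 => ?_⟩
  refine h Y H A hH hY hA (fun n hn j p hp hpH hd => ?_) hAc b hb hb1 hb2
  obtain ⟨g1, g2⟩ := hAr n hn p hp hpH
  rw [fH_eval] at hd
  cases hj : j.1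
  · rw [hj] at hd
    simp only [Bool.false_eq_true, if_false, Nat.cast_zero, add_zero] at hd
    exact g1 (by exact_mod_cast hd)
  · rw [hj] at hd
    simp only [if_true, Nat.cast_zero, add_zero] at hd
    exact g2 (by exact_mod_cast hd)

open Classical in
/-- primes `p` with almost prime `(h p) ^ 2 + 1` at every shape -/
theorem strE (h : ℕ) (hh : Even h) (h0 : 0 < h) : ∃ r₀ : ℕ, 2 ≤ r₀ ∧ ∀ r : ℕ, r₀ ≤ r →
    ∀ (k : ℕ) (δ : ℝ), 1 ≤ k → 0 < δ → δ ≤ 1 → ∃ c : ℝ, 0 < c ∧ ∀ᶠ x : ℕ in atTop,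
    ∀ b : Fin k → ℕ, Function.Injective b → (∀ i, 1 ≤ b i) → (∀ i, (b i : ℝ) ≤ (x : ℝ) ^ (1 - δ)) →
    c * (x : ℝ) ^ (δ / 8) ≤ (((Icc 1 ⌊(x : ℝ) ^ (δ / 8)⌋₊).filter (fun d =>
      c * (x * Real.log (Real.log x) ^ (2 * k) / Real.log x ^ (2 * (k + 1))) ≤
        ((((Ioc x (2 * x)).filter (fun n => n.Prime ∧ AV h r ((x : ℝ) ^ (1 / (r : ℝ))) n)).filter
          (fun n => ∀ i, n + WW (δ / 8) x * d * b i ∈
            (Ioc x (2 * x)).filter (fun n => n.Prime ∧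
              AV h r ((x : ℝ) ^ (1 / (r : ℝ))) n))).card : ℝ))).card : ℝ) := by
  have hS0 := sysB h hh h0
  have hS : Poly.Sys (Pool.Agent.W182.PW.ext (fun _ : Unit => fH h 0 true)) := by
    apply Pool.Agent.TH977.PW.sys_ext
    · exact fun _ => fH_irr h 0 h0 true
    · exact fun _ => hS0.deg (true, 0)
    · exact fun _ => hS0.lead (true, 0)
    · exact fun _ _ _ => rfl
    · intro _ h1
      have h2 := congrArg (fun P : ℤ[X] => P.eval 0) h1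
      simp only [fH_eval, eval_X] at h2
      norm_num at h2
    · intro p hp
      obtain ⟨m, h1, h2⟩ := adm1 h hh p hp
      refine ⟨m, h1, fun _ hd => h2 ?_⟩
      rw [fH_eval] at hd
      simpa using hd
  obtain ⟨r₁, hr₁, hlow⟩ := Pool.Agent.TH977.PW.prime_input (fun _ : Unit => fH h 0 true) hS
  refine ⟨r₁, hr₁, fun r hr k δ hk hδ hδ1 => ?_⟩
  obtain ⟨κ, hκ, hlow⟩ := hlow r hr
  have hr2 : 2 ≤ r := hr₁.trans hr
  have hr0 : (0 : ℝ) < r := by exact_mod_cast (show 0 < r by omega)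
  have hr1 : 1 / (r : ℝ) < 1 := by
    rw [div_lt_one hr0]
    exact_mod_cast (show 1 < r by omega)
  obtain ⟨c, hc, H₀, hD⟩ := strD h hh h0 k 1 δ (1 / (2 * r)) κ hk hδ hδ1 (by positivity) hκ
  refine ⟨c, hc, ?_⟩
  filter_upwards [hlow, eventually_ge_atTop H₀, eventually_ge_atTop 3] with x hx hxH hx3 b hb hb1 hb2
  have hx1 : (1 : ℝ) < x := by exact_mod_cast (show 1 < x by omega)
  have hx0 : (0 : ℝ) < x := by linarith
  have hxr : (x : ℝ) ^ (1 / (2 * r : ℝ)) < (x : ℝ) ^ (1 / (r : ℝ)) := by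
    apply Real.rpow_lt_rpow_of_exponent_lt hx1
    rw [div_lt_div_iff₀ (by positivity) hr0]
    linarith
  have hxr2 : (x : ℝ) ^ (1 / (r : ℝ)) < x := by
    calc (x : ℝ) ^ (1 / (r : ℝ)) < (x : ℝ) ^ (1 : ℝ) := Real.rpow_lt_rpow_of_exponent_lt hx1 hr1
      _ = x := Real.rpow_one _
  rw [Fintype.card_unit] at hx
  refine hD x x _ hxH (by rw [pow_one]) ?_ ?_ ?_ b hb hb1 hb2
  · intro n hn
    have h2 := (mem_filter.1 hn).1
    rw [mem_Ioc] at h2 ⊢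
    omega
  · intro n hn p hp hpx
    obtain ⟨h2, h3, h4, h5⟩ := mem_filter.1 hn
    rw [mem_Ioc] at h2
    refine ⟨fun hd => ?_, fun hd => ?_⟩
    · have h6 := (Nat.prime_dvd_prime_iff_eq hp h3).1 hd
      have h7 : (x : ℝ) < p := by
        rw [h6]
        exact_mod_cast h2.1
      linarith
    · have h6 := h5 p hp hd
      linarith
  · refine le_trans (le_of_eq ?_) (hx.trans ?_)
    · ring
    apply Nat.cast_le.2
    apply card_le_card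
    intro n hn
    rw [mem_filter, mem_Ioc] at hn
    rw [mem_filter, mem_Ioc]
    obtain ⟨⟨h3, h4⟩, h5, h6, h7⟩ := hn
    refine ⟨⟨h3, by omega⟩, h5, ?_, fun p hp hd => ?_⟩
    · have h8 := h7 ()
      rw [fH_eval] at h8
      simp only [if_true, Nat.cast_zero, add_zero] at h8
      have e : ((h : ℤ) * (n : ℤ)) ^ 2 + 1 = (((h * n) ^ 2 + 1 : ℕ) : ℤ) := by push_cast; ring
      rw [e, Int.natAbs_natCast] at h8
      exact h8
    · have h8 := h6 () p hp (by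
        rw [fH_eval]
        simp only [if_true, Nat.cast_zero, add_zero]
        exact_mod_cast hd)
      refine le_trans ?_ h8.le
      apply Real.rpow_le_rpow (by linarith) (by exact_mod_cast h3.le) (by positivity)

open Classical in
/-- strings of primes with almost prime values at every shape -/
theorem strF (h : ℕ) (hh : Even h) (h0 : 0 < h) (m : ℕ) : ∃ (K₀ r₀ : ℕ) (θ : ℝ), 0 < θ ∧
    ∀ S : Finset ℕ, K₀ ≤ S.card → ∃ (B : ℕ) (Q : ℕ → Finset ℕ),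
    (∀ᶠ x in atTop, m ≤ (Q x).card ∧ Q x ⊆ S) ∧
    ∀ (k : ℕ) (δ : ℝ), 1 ≤ k → 0 < δ → δ ≤ 1 → ∃ c : ℝ, 0 < c ∧ ∀ᶠ x : ℕ in atTop,
    ∀ b : Fin k → ℕ, Function.Injective b → (∀ i, 1 ≤ b i) → (∀ i, (b i : ℝ) ≤ (x : ℝ) ^ (1 - δ)) →
    c * (x : ℝ) ^ (δ / 8) ≤ (((Icc 1 ⌊(x : ℝ) ^ (δ / 8)⌋₊).filter (fun d =>
      c * (x * Real.log (Real.log x) ^ (B * k) / Real.log x ^ (B * (k + 1))) ≤
        (((Ioc x (2 * x)).filter (fun n =>
          ((∀ t ≤ S.sup id, (n + t).Prime ↔ t ∈ Q x) ∧ ∀ t ∈ Q x, AV h r₀ ((x : ℝ) ^ θ) (n + t)) ∧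
          ∀ i, n + WW (δ / 8) x * d * b i + S.sup id ≤ 2 * x ∧
            (∀ t ≤ S.sup id, (n + WW (δ / 8) x * d * b i + t).Prime ↔ t ∈ Q x) ∧
            ∀ t ∈ Q x, AV h r₀ ((x : ℝ) ^ θ) (n + WW (δ / 8) x * d * b i + t))).card : ℝ))).card : ℝ) := by
  obtain ⟨K₀, ε₁, hε, hK₀⟩ := strA h hh h0 m
  obtain ⟨r₀, hr₀⟩ := exists_nat_ge (3 / ε₁)
  refine ⟨K₀, r₀, ε₁, hε, fun S hS => ?_⟩
  obtain ⟨n₁, s, r, κ, hn₁, hsys, hκ, hN⟩ := hK₀ S hS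
  have hNe : Nonempty (Bool × Fin n₁) := ⟨⟨true, ⟨0, hn₁⟩⟩⟩
  obtain ⟨N₀, hN₀⟩ := eventually_atTop.1 hN
  have hch : ∀ N : ℕ, ∃ H : Finset ℕ, N₀ ≤ N → H ⊆ S ∧ m ≤ H.card ∧ ∃ (Y : ℕ) (A : Finset ℕ), Y ≤ N ^ 2 ∧
      A ⊆ Ioc Y (Y + N) ∧
      (∀ n ∈ A, ∀ j : Bool × Fin n₁, ∀ p : ℕ, p.Prime → (p : ℝ) ≤ (N : ℝ) ^ (ε₁ / 2) →
        ¬ (p : ℤ) ∣ (fH h (s j.2) j.1).eval (n : ℤ)) ∧
      κ * (N / Real.log N ^ (2 * n₁)) ≤ A.card ∧
      ∀ n ∈ A, N + r < n ∧ n - r + S.sup id ≤ 2 * N ∧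
        (∀ y ≤ S.sup id, (n - r + y).Prime ↔ y ∈ H) ∧
        ∀ y ∈ H, ∀ p : ℕ, p.Prime → p ∣ (h * (n - r + y)) ^ 2 + 1 → (N : ℝ) ^ ε₁ ≤ p := by
    intro N
    by_cases h : N₀ ≤ N
    · obtain ⟨H, h1, h2, h3⟩ := hN₀ N h
      exact ⟨H, fun _ => ⟨h1, h2, h3⟩⟩
    · exact ⟨∅, fun h' => absurd h' h⟩
  choose Q hQ using hch
  refine ⟨2 * n₁, Q, ?_, fun k δ hk hδ hδ1 => ?_⟩
  · filter_upwards [eventually_ge_atTop N₀] with x hx
    exact ⟨(hQ x hx).2.1, (hQ x hx).1⟩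
  obtain ⟨c, hc, H₀, hP⟩ := polyQ (fun j : Bool × Fin n₁ => fH h (s j.2) j.1) hsys k 2 δ (ε₁ / 2) κ hk hδ hδ1
    (by positivity) hκ
  rw [Fintype.card_prod, Fintype.card_bool, Fintype.card_fin] at hP
  refine ⟨c, hc, ?_⟩
  filter_upwards [eventually_ge_atTop N₀, eventually_ge_atTop H₀, eventually_ge_atTop (8 * h ^ 2 + 3)]
    with x hx hxH hxh b hb hb1 hb2
  obtain ⟨h1, h2, Y, A, h3, h4, h5, h6, h7⟩ := hQ x hx
  have hx1 : (1 : ℝ) ≤ x := by exact_mod_cast (show 1 ≤ x by omega)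
  have hx0 : (0 : ℝ) < x := by linarith
  -- the values
  have hAV : ∀ n : ℕ, n ≤ 2 * x → (∀ p : ℕ, p.Prime → p ∣ (h * n) ^ 2 + 1 → (x : ℝ) ^ ε₁ ≤ p) →
      AV h r₀ ((x : ℝ) ^ ε₁) n := by
    intro n hn hp
    refine ⟨?_, hp⟩
    have g1 := Pool.Agent.R498.MT.omega_le x ((h * n) ^ 2 + 1) ε₁ 3 (by omega) hε (by omega) hp (by
      have e1 : (h * n) ^ 2 + 1 ≤ x ^ 3 := by
        have e2 : (h * n) ^ 2 ≤ (h * (2 * x)) ^ 2 := Nat.pow_le_pow_left (Nat.mul_le_mul_left _ hn) 2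
        have e3 : (h * (2 * x)) ^ 2 = 4 * h ^ 2 * x ^ 2 := by ring
        have e4 : (8 * h ^ 2 + 3) * x ^ 2 ≤ x * x ^ 2 := Nat.mul_le_mul_right _ hxh
        have e5 : x * x ^ 2 = x ^ 3 := by ring
        have e6 : 1 ≤ x ^ 2 := Nat.one_le_pow _ _ (by omega)
        nlinarith [Nat.zero_le (h ^ 2 * x ^ 2)]
      have e2 : (((h * n) ^ 2 + 1 : ℕ) : ℝ) ≤ ((x ^ 3 : ℕ) : ℝ) := by exact_mod_cast e1
      refine e2.trans (le_of_eq ?_)
      rw [Nat.cast_pow, ← Real.rpow_natCast]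
      norm_num)
    have g2 := g1.trans hr₀
    exact_mod_cast g2
  refine (hP Y x A hxH h3 h4 h5 h6 b hb hb1 hb2).trans ?_
  apply Nat.cast_le.2
  apply card_le_card
  intro d hd
  rw [mem_filter] at hd ⊢
  refine ⟨hd.1, hd.2.trans ?_⟩
  apply Nat.cast_le.2
  apply card_le_card_of_injOn (fun n => n - r)
  · intro n hn
    obtain ⟨hnA, hni⟩ := mem_filter.1 (mem_coe.1 hn)
    obtain ⟨e1, e2, e3, e4⟩ := h7 n hnA
    have hle : ∀ t ∈ Q x, t ≤ S.sup id := fun t ht => Finset.le_sup (f := id) (h1 ht)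
    refine mem_coe.2 (mem_filter.2 ⟨?_, ⟨e3, fun t ht => hAV _ ?_ (e4 t ht)⟩, fun i => ?_⟩)
    · rw [mem_Ioc]
      show x < n - r ∧ n - r ≤ 2 * x
      omega
    · have := hle t ht
      show n - r + t ≤ 2 * x
      omega
    · obtain ⟨f1, f2, f3, f4⟩ := h7 _ (hni i)
      have e5 : n + WW (δ / 8) x * d * b i - r = n - r + WW (δ / 8) x * d * b i := by omega
      rw [e5] at f2 f3 f4
      refine ⟨f2, f3, fun t ht => hAV _ ?_ (f4 t ht)⟩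
      have := hle t ht
      show n - r + WW (δ / 8) x * d * b i + t ≤ 2 * x
      omega
  · intro n hn n' hn' hnn
    have g1 := (h7 n (mem_filter.1 (mem_coe.1 hn)).1).1
    have g2 := (h7 n' (mem_filter.1 (mem_coe.1 hn')).1).1
    have g3 : n - r = n' - r := hnn
    omega

end Pool.Agent.H534.UT
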