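import Pool.Agent.H534.UT.Miss
import Pool.Graph.R_pool_sql_team_seeded_3997aac3.Q84.AR6

/-!
# Sifted primes in a fixed class, and the shapes in their subsets
-/

set_option autoImplicit false

open Finset Filter Polynomial

namespace Pool.Agent.H534.UT

open Pool.Agent.H534.RS
open Pool.Agent.W123.RU
open Pool.Agent.Y855 Pool.Agent.Q84.AR

/-- the sifted primes in a fixed class -/
theorem nsW : ∃ K : ℕ, 2 ≤ K ∧ ∀ W : ℕ, 1 ≤ W → 2 ∣ W → ∀ᶠ t : ℕ in atTop, ∀ c : ℕ, c.Coprime W →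
    (∀ q ∈ W.primeFactors, 3 ≤ q → c % q ≠ 1) →
    1 * (((2 ^ (K * t) : ℕ) : ℝ) / W) / (4 * K * Real.log ((2 : ℝ) ^ (K * t)) ^ 2) ≤
      ((NS (2 ^ (K * t)) W c (OP (2 ^ t))).card : ℝ) := by
  obtain ⟨Kr, hKr1, hcore⟩ := core (1 / 2) (by norm_num)
  obtain ⟨K, hK⟩ : ∃ K : ℕ, K = max ⌈Kr⌉₊ 2 := ⟨_, rfl⟩
  have hK2 : 2 ≤ K := hK ▸ le_max_right _ _
  have hKrK : Kr ≤ K := by
    have h1 : Kr ≤ (⌈Kr⌉₊ : ℝ) := Nat.le_ceil _
    have h2 : ((⌈Kr⌉₊ : ℕ) : ℝ) ≤ K := by exact_mod_cast hK ▸ le_max_left _ _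
    linarith
  have hK0 : (0 : ℝ) < K := by exact_mod_cast (show 0 < K by omega)
  have hK2r : (2 : ℝ) ≤ K := by exact_mod_cast hK2
  refine ⟨K, hK2, fun W hW h2W => ?_⟩
  have hW0 : (0 : ℝ) < W := by exact_mod_cast hW
  have hφ0 : (0 : ℝ) < W.totient := by exact_mod_cast Nat.totient_pos.2 hW
  obtain ⟨x₀, hx₀3, hcore⟩ := hcore 1
  have hlog2 : 0.6931471803 < Real.log 2 := Real.log_two_gt_d9
  have htr : Tendsto (fun t : ℕ => (t : ℝ)) atTop atTop := tendsto_natCast_atTop_atTop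
  filter_upwards [eventually_ge_atTop (x₀ + 2 * K + 1), htr.eventually_ge_atTop W] with t ht htW c hc hcq
  obtain ⟨L, hL⟩ : ∃ L : ℝ, L = Real.log ((2 : ℝ) ^ (K * t)) := ⟨_, rfl⟩
  rw [← hL]
  have hLt : L = K * (t * Real.log 2) := by rw [hL, Real.log_pow]; push_cast; ring
  have ht0 : (0 : ℝ) < t := by
    have : 0 < t := by omega
    exact_mod_cast this
  have htK : 2 * (K : ℝ) ≤ t := by
    have : 2 * K ≤ t := by omega
    exact_mod_cast this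
  have htl : (t : ℝ) / 2 ≤ t * Real.log 2 := by nlinarith
  have hLt2 : (t : ℝ) ≤ L := by
    rw [hLt]
    calc (t : ℝ) = 2 * (t / 2) := by ring
      _ ≤ K * (t * Real.log 2) := by gcongr
  have hL0 : 0 < L := by linarith
  obtain ⟨x, hx⟩ : ∃ x : ℕ, x = 2 ^ (K * t) := ⟨_, rfl⟩
  obtain ⟨z, hz⟩ : ∃ z : ℕ, z = 2 ^ t := ⟨_, rfl⟩
  rw [← hx, ← hz]
  have hxr : (x : ℝ) = (2 : ℝ) ^ (K * t) := by rw [hx]; push_cast; rfl
  have hzr : (z : ℝ) = (2 : ℝ) ^ t := by rw [hz]; push_cast; rfl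
  have hLx : L = Real.log x := by rw [hL, hxr]
  have hxe : (x : ℝ) = Real.exp L := by rw [hL, Real.exp_log (by positivity), hxr]
  have hx0 : (0 : ℝ) < x := by rw [hxe]; exact Real.exp_pos L
  have hlz : Real.log z = t * Real.log 2 := by rw [hzr, Real.log_pow]
  have hx0x : x₀ ≤ x := by
    rw [hx]
    calc x₀ ≤ t := by omega
      _ ≤ 2 ^ t := Nat.lt_two_pow_self.le
      _ ≤ 2 ^ (K * t) := Nat.pow_le_pow_right (by norm_num) (Nat.le_mul_of_pos_left t (by omega))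
  obtain ⟨-, hcz⟩ := hcore x hx0x
  obtain ⟨-, -, hTT0, hTTl, -, hNSc⟩ := hcz z (by
      rw [← hLx, hlz]
      apply Real.sqrt_le_iff.2
      refine ⟨by positivity, ?_⟩
      rw [hLt, pow_two]
      have : (K : ℝ) ≤ t * Real.log 2 := by linarith
      have h0 : 0 ≤ t * Real.log 2 := by positivity
      exact mul_le_mul_of_nonneg_right this h0) (by
      rw [hxr, hzr]
      calc ((2 : ℝ) ^ t) ^ Kr ≤ ((2 : ℝ) ^ t) ^ (K : ℝ) :=
            Real.rpow_le_rpow_of_exponent_le (one_le_pow₀ (by norm_num)) hKrK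
        _ = (2 : ℝ) ^ (K * t) := by
          rw [Real.rpow_natCast, ← pow_mul, mul_comm])
  have hNSc' := hNSc W c hW (by rw [← hLx, pow_one]; linarith) hc hcq
  have hcl := cl_low W hW h2W
  have hφW : 1 ≤ ((W : ℝ) / W.totient) ^ 2 := by
    apply one_le_pow₀
    rw [one_le_div hφ0]
    exact_mod_cast Nat.totient_le W
  have hcl2 : 1 / 2 * (1 / (W : ℝ)) ≤ cl W := by
    refine le_trans ?_ hcl
    calc 1 / 2 * (1 / (W : ℝ)) = 1 / 2 * (1 / (W : ℝ)) * 1 := (mul_one _).symm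
      _ ≤ _ := by gcongr
  rw [← hLx] at hTTl
  have h1 := (abs_le.1 hNSc').1
  have hlz0 : 0 < Real.log z := by rw [hlz]; positivity
  have hlzL : Real.log z ≤ L := by
    rw [hlz, hLt]
    have : 0 ≤ (t : ℝ) * Real.log 2 := by positivity
    nlinarith
  have hKr0 : 0 < Kr := by linarith
  have h2 : (x : ℝ) / (K * L ^ 2) ≤ ((TT x z).card : ℝ) := by
    refine le_trans ?_ hTTl
    apply div_le_div_of_nonneg_left hx0.le (by positivity)
    calc Kr * (L * Real.log z) ≤ K * (L * L) := by gcongr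
      _ = _ := by ring
  have hcl0 : 0 < cl W := cl_pos W hW
  have h3 : 1 / 2 * (cl W * (TT x z).card) ≤ ((NS x W c (OP z)).card : ℝ) := by linarith
  refine le_trans ?_ h3
  calc 1 * ((x : ℝ) / W) / (4 * K * L ^ 2) = 1 / 2 * ((1 / 2 * (1 / (W : ℝ))) * (x / (K * L ^ 2))) := by
        field_simp
        norm_num
    _ ≤ 1 / 2 * (cl W * (TT x z).card) := by gcongr

open Classical in
/-- the number of the `d ≤ x ^ (δ / 8)` such that at least `T` integers `m ≤ M` have the property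
`P m (W d)` -/
noncomputable def dil (δ : ℝ) (x M : ℕ) (T : ℝ) (P : ℕ → ℕ → Prop) : ℕ :=
  ((Icc 1 ⌊(x : ℝ) ^ (δ / 8)⌋₊).filter (fun d =>
    T ≤ (((Icc 1 M).filter (fun m => P m (WW (δ / 8) x * d))).card : ℝ))).card

theorem le_dil (δ : ℝ) (x M : ℕ) (T : ℝ) (P : ℕ → ℕ → Prop) (D : Finset ℕ) (S : ℕ → Finset ℕ)
    (hD : ∀ d ∈ D, d ∈ Icc 1 ⌊(x : ℝ) ^ (δ / 8)⌋₊ ∧ T ≤ ((S d).card : ℝ))
    (f : ℕ → ℕ) (hf : Function.Injective f)
    (hS : ∀ d ∈ D, ∀ m ∈ S d, 1 ≤ f m ∧ f m ≤ M ∧ P (f m) (WW (δ / 8) x * d)) :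
    (D.card : ℝ) ≤ dil δ x M T P := by
  classical
  unfold dil
  apply Nat.cast_le.2
  apply card_le_card
  intro d hd
  refine mem_filter.2 ⟨(hD d hd).1, (hD d hd).2.trans ?_⟩
  apply Nat.cast_le.2
  apply card_le_card_of_injOn f
  · intro m hm
    obtain ⟨h1, h2, h3⟩ := hS d hd m hm
    exact mem_coe.2 (mem_filter.2 ⟨mem_Icc.2 ⟨h1, h2⟩, h3⟩)
  · exact fun _ _ _ _ h => hf h

/-- the primes with the property `G` contain every shape, at the scales of an infinite set -/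
def ShP (G : ℕ → Prop) : Prop := ∃ q : ℕ, 1 ≤ q ∧ ∃ 𝒳 : Set ℕ, 𝒳.Infinite ∧
  ∀ (k : ℕ) (δ : ℝ), 1 ≤ k → 0 < δ → δ ≤ 1 → ∃ c : ℝ, 0 < c ∧ ∀ᶠ x : ℕ in atTop, x ∈ 𝒳 →
  ∀ b : Fin k → ℕ, Function.Injective b → (∀ i, 1 ≤ b i ∧ (b i : ℝ) ≤ (x : ℝ) ^ (1 - δ)) →
  c * (x : ℝ) ^ (δ / 8) ≤ dil δ x (q * x)
    (c * (x * Real.log (Real.log x) ^ (2 * k) / Real.log x ^ (2 * (k + 1))))
    (fun p D => G p ∧ ∀ i, G (p + q * D * b i))

theorem ShP.mono {G G' : ℕ → Prop} (h : ShP G) (hG : ∀ p, G p → G' p) : ShP G' := by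
  classical
  obtain ⟨q, hq, 𝒳, h𝒳, h⟩ := h
  refine ⟨q, hq, 𝒳, h𝒳, fun k δ hk hδ hδ1 => ?_⟩
  obtain ⟨c, hc, h⟩ := h k δ hk hδ hδ1
  refine ⟨c, hc, ?_⟩
  filter_upwards [h] with x hx hx𝒳 b hb hb'
  refine (hx hx𝒳 b hb hb').trans ?_
  have h1 := le_dil δ x (q * x) (c * (x * Real.log (Real.log x) ^ (2 * k) / Real.log x ^ (2 * (k + 1))))
    (fun p D => G' p ∧ ∀ i, G' (p + q * D * b i))
    ((Icc 1 ⌊(x : ℝ) ^ (δ / 8)⌋₊).filter (fun d =>
      c * (x * Real.log (Real.log x) ^ (2 * k) / Real.log x ^ (2 * (k + 1))) ≤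
      (((Icc 1 (q * x)).filter (fun p => G p ∧ ∀ i, G (p + q * (WW (δ / 8) x * d) * b i))).card : ℝ)))
    (fun d => (Icc 1 (q * x)).filter (fun p => G p ∧ ∀ i, G (p + q * (WW (δ / 8) x * d) * b i)))
    (fun d hd => mem_filter.1 hd) id Function.injective_id
    (fun d hd m hm => by
      obtain ⟨h3, h4, h5⟩ := mem_filter.1 hm
      exact ⟨(mem_Icc.1 h3).1, (mem_Icc.1 h3).2, hG _ h4, fun i => hG _ (h5 i)⟩)
  refine le_trans (le_of_eq ?_) h1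
  unfold dil
  congr!

end Pool.Agent.H534.UT
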