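import Pool.Agent.H534.UT.Art1

/-!
# Dense sets of sifted primes in a fixed class contain every shape
-/

set_option autoImplicit false

open Finset Filter Polynomial

namespace Pool.Agent.H534.UT

open Pool.Agent.H534.RS
open Pool.Agent.W123.RU
open Pool.Agent.Y855 Pool.Agent.Q84.AR

/-- the polynomials `W X + c`, `(W X + c - 1) / 2 ^ a` -/
noncomputable def fA (W c W₂ e : ℕ) (s : Bool) : ℤ[X] := if s then C (W₂ : ℤ) * X + C (e : ℤ) else C (W : ℤ) * X + C (c : ℤ)

theorem fA_eval (W c W₂ e : ℕ) (s : Bool) (n : ℤ) :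
    (fA W c W₂ e s).eval n = if s then (W₂ : ℤ) * n + e else (W : ℤ) * n + c := by
  unfold fA
  cases s <;> simp

theorem sysA (W c W₂ e a : ℕ) (hW : 0 < W) (h2 : 2 ∣ W₂) (hWa : W = 2 ^ a * W₂) (hca : c = 2 ^ a * e + 1)
    (he : Odd e) (hc : c.Coprime W) (hcq : ∀ q ∈ W.primeFactors, 3 ≤ q → c % q ≠ 1) :
    Poly.Sys (fA W c W₂ e) := by
  have hW₂ : 0 < W₂ := by
    rcases Nat.eq_zero_or_pos W₂ with h | h
    · rw [h, mul_zero] at hWa; omega
    · exact h
  have he0 : 0 < e := he.pos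
  have hW₂W : W₂ ∣ W := ⟨2 ^ a, by rw [hWa, mul_comm]⟩
  have hpe : ∀ q : ℕ, q.Prime → q ∣ W₂ → ¬ q ∣ e := by
    intro q hq hqW hqe
    rcases Nat.lt_or_ge q 3 with h | h
    · have hq2 : q = 2 := by have := hq.two_le; omega
      subst hq2
      exact (Nat.not_even_iff_odd.2 he) (even_iff_two_dvd.2 hqe)
    · apply hcq q (Nat.mem_primeFactors.2 ⟨hq, hqW.trans hW₂W, hW.ne'⟩) h
      obtain ⟨m, hm⟩ := hqe
      rw [hca, hm, ← mul_assoc, mul_comm _ q, mul_assoc, Nat.mul_add_mod, Nat.mod_eq_of_lt (by omega)]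
  have hcop2 : e.Coprime W₂ := by
    rw [Nat.coprime_iff_gcd_eq_one]
    by_contra hne
    obtain ⟨q, hq, hqd⟩ := Nat.exists_prime_and_dvd hne
    exact hpe q hq (hqd.trans (Nat.gcd_dvd_right _ _)) (hqd.trans (Nat.gcd_dvd_left _ _))
  have hpc : ∀ q : ℕ, q.Prime → q ∣ W → ¬ q ∣ c := by
    intro q hq hqW hqc
    have := Nat.dvd_gcd hqc hqW
    rw [hc] at this
    exact hq.one_lt.ne' (Nat.dvd_one.1 this)
  refine ⟨?_, ?_, ?_, ?_, ?_⟩
  · intro s
    cases s
    · unfold fA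
      rw [if_neg (by simp)]
      apply irreducible_C_mul_X_add_C (by exact_mod_cast hW.ne')
      exact (Nat.isCoprime_iff_coprime.2 hc).symm.isRelPrime
    · unfold fA
      rw [if_pos rfl]
      apply irreducible_C_mul_X_add_C (by exact_mod_cast hW₂.ne')
      exact (Nat.isCoprime_iff_coprime.2 hcop2).symm.isRelPrime
  · intro s
    cases s
    · unfold fA
      rw [if_neg (by simp), natDegree_linear (by exact_mod_cast hW.ne')]
      exact one_pos
    · unfold fA
      rw [if_pos rfl, natDegree_linear (by exact_mod_cast hW₂.ne')]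
      exact one_pos
  · intro s
    cases s
    · unfold fA
      rw [if_neg (by simp), leadingCoeff_linear (by exact_mod_cast hW.ne')]
      exact_mod_cast hW
    · unfold fA
      rw [if_pos rfl, leadingCoeff_linear (by exact_mod_cast hW₂.ne')]
      exact_mod_cast hW₂
  · have hne : (c : ℤ) ≠ e := by
      intro h
      have h1 : c = e := by exact_mod_cast h
      have h3 : 1 * e ≤ 2 ^ a * e := Nat.mul_le_mul_right _ Nat.one_le_two_pow
      omega
    intro s t h
    have h1 := congrArg (fun P : ℤ[X] => P.eval 0) h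
    simp only [fA_eval] at h1
    cases s <;> cases t
    · rfl
    · simp at h1
      exact absurd (by exact_mod_cast h1) hne
    · simp at h1
      exact absurd (by exact_mod_cast h1.symm) hne
    · rfl
  · intro p hp
    by_cases hpW : p ∣ W
    · have hpW₂ : p ∣ W₂ := by
        rw [hWa] at hpW
        rcases (Nat.Prime.dvd_mul hp).1 hpW with h | h
        · have := hp.dvd_of_dvd_pow h
          have hp2 : p = 2 := (Nat.prime_dvd_prime_iff_eq hp Nat.prime_two).1 this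
          rw [hp2]
          exact h2
        · exact h
      refine ⟨0, fun s hd => ?_⟩
      rw [fA_eval] at hd
      cases s
      · simp at hd
        exact hpc p hp hpW (by exact_mod_cast hd)
      · simp at hd
        exact hpe p hp hpW₂ (by exact_mod_cast hd)
    · have hpW₂ : ¬ p ∣ W₂ := fun h => hpW (h.trans hW₂W)
      have hp3 : 3 ≤ p := by
        by_contra hlt
        have hp2 : p = 2 := by have := hp.two_le; omega
        rw [hp2] at hpW₂
        exact hpW₂ h2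
      -- among `0, 1, 2` there is a good residue
      by_contra hcon
      push Not at hcon
      have hpi := Nat.prime_iff_prime_int.1 hp
      have hWi : ¬ (p : ℤ) ∣ (W : ℤ) := fun h => hpW (by exact_mod_cast h)
      have hW₂i : ¬ (p : ℤ) ∣ (W₂ : ℤ) := fun h => hpW₂ (by exact_mod_cast h)
      have hsm : ∀ d : ℤ, d = 1 ∨ d = 2 → ¬ (p : ℤ) ∣ d := by
        intro d hd h
        have := Int.le_of_dvd (by omega) h
        omega
      have key : ∀ (A B : ℤ), ¬ (p : ℤ) ∣ A → ∀ i j : ℤ, (j - i = 1 ∨ j - i = 2) →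
          (p : ℤ) ∣ A * i + B → (p : ℤ) ∣ A * j + B → False := by
        intro A B hA i j hij hi hj
        have h1 : (p : ℤ) ∣ A * (j - i) := by
          have := dvd_sub hj hi
          have e1 : A * j + B - (A * i + B) = A * (j - i) := by ring
          rwa [e1] at this
        rcases hpi.dvd_or_dvd h1 with h | h
        · exact hA h
        · exact hsm _ hij h
      obtain ⟨s0, h0⟩ := hcon 0
      obtain ⟨s1, h1⟩ := hcon 1
      obtain ⟨s2, h2'⟩ := hcon 2
      rw [fA_eval] at h0 h1 h2'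
      have k1 := key W c hWi
      have k2 := key W₂ e hW₂i
      cases s0 <;> cases s1 <;> cases s2 <;> simp only [if_true, if_false, Bool.false_eq_true] at h0 h1 h2'
      · exact k1 0 1 (by norm_num) h0 h1
      · exact k1 0 1 (by norm_num) h0 h1
      · exact k1 0 2 (by norm_num) h0 h2'
      · exact k2 1 2 (by norm_num) h1 h2'
      · exact k1 1 2 (by norm_num) h1 h2'
      · exact k2 0 2 (by norm_num) h0 h2'
      · exact k2 0 1 (by norm_num) h0 h1
      · exact k2 0 1 (by norm_num) h0 h1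

open Classical in
/-- **Dense sets of sifted primes in a fixed class contain every shape.** -/
theorem shP_of (K : ℕ) (hK : 2 ≤ K) (W c W₂ e a : ℕ) (hW : 0 < W) (h2 : 2 ∣ W₂) (hWa : W = 2 ^ a * W₂)
    (hca : c = 2 ^ a * e + 1) (he : Odd e) (hc : c.Coprime W)
    (hcq : ∀ q ∈ W.primeFactors, 3 ≤ q → c % q ≠ 1) (G : ℕ → Prop) (κ : ℝ) (hκ : 0 < κ)
    (hfr : ∃ᶠ t : ℕ in atTop, κ * ((2 : ℝ) ^ (K * t) / Real.log ((2 : ℝ) ^ (K * t)) ^ 2) ≤
      (((NS (2 ^ (K * t)) W c (OP (2 ^ t))).filter (fun p => G p)).card : ℝ)) : ShP G := by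
  have hW2 : 2 ≤ W := by
    have h1 : 2 ∣ W := by rw [hWa]; exact h2.mul_left _
    exact Nat.le_of_dvd hW h1
  have hW0 : (0 : ℝ) < W := by exact_mod_cast hW
  have hK0 : (0 : ℝ) < K := by exact_mod_cast (show 0 < K by omega)
  have hlog2 : 0 < Real.log 2 := Real.log_pos (by norm_num)
  obtain ⟨T, hT⟩ : ∃ T : Set ℕ, T = {t : ℕ | κ * ((2 : ℝ) ^ (K * t) / Real.log ((2 : ℝ) ^ (K * t)) ^ 2) ≤
      (((NS (2 ^ (K * t)) W c (OP (2 ^ t))).filter (fun p => G p)).card : ℝ)} := ⟨_, rfl⟩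
  have hTinf : T.Infinite := by
    rw [hT]
    exact Nat.frequently_atTop_iff_infinite.1 hfr
  obtain ⟨X, hX⟩ : ∃ X : ℕ → ℕ, ∀ t, X t = 2 ^ (K * t) / W + 1 := ⟨_, fun _ => rfl⟩
  have hXtop : Tendsto X atTop atTop := by
    apply tendsto_atTop.2
    intro b
    filter_upwards [eventually_ge_atTop (W * b)] with t ht
    rw [hX]
    have h1 : W * b ≤ 2 ^ (K * t) := by
      calc W * b ≤ t := ht
        _ ≤ 2 ^ t := Nat.lt_two_pow_self.le
        _ ≤ 2 ^ (K * t) := Nat.pow_le_pow_right (by norm_num) (Nat.le_mul_of_pos_left t (by omega))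
    have h3 : b ≤ 2 ^ (K * t) / W := (Nat.le_div_iff_mul_le hW).2 (by rw [mul_comm]; exact h1)
    omega
  refine ⟨W, hW, X '' T, ?_, ?_⟩
  · -- infinitely many scales
    intro hfin
    obtain ⟨N, hN⟩ := hfin.bddAbove
    have h1 := hXtop.eventually_gt_atTop N
    obtain ⟨t₀, ht₀⟩ := eventually_atTop.1 h1
    obtain ⟨t, htT, htt⟩ := hTinf.exists_gt t₀
    have h3 := ht₀ t htt.le
    have h4 := hN (Set.mem_image_of_mem X htT)
    omega
  intro k δ hk hδ hδ1
  obtain ⟨c₀, hc₀, H₀, hpoly⟩ := polyQ (fA W c W₂ e) (sysA W c W₂ e a hW h2 hWa hca he hc hcq) k 0 δ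
    (1 / K) (κ / 8) hk hδ hδ1 (by positivity) (by positivity)
  refine ⟨c₀, hc₀, ?_⟩
  -- large `t`
  have hev : ∀ᶠ t : ℕ in atTop, 1 ≤ t ∧ c + W ≤ 2 ^ t ∧ H₀ ≤ X t ∧
      (2 : ℝ) ^ t ≤ κ / 2 * ((2 : ℝ) ^ (K * t) / Real.log ((2 : ℝ) ^ (K * t)) ^ 2) ∧
      2 * Real.log W ≤ Real.log ((2 : ℝ) ^ (K * t)) := by
    have htr : Tendsto (fun t : ℕ => (t : ℝ)) atTop atTop := tendsto_natCast_atTop_atTop
    have hL : Tendsto (fun t : ℕ => Real.log ((2 : ℝ) ^ (K * t))) atTop atTop := by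
      have h1 : ∀ t : ℕ, Real.log ((2 : ℝ) ^ (K * t)) = (K * Real.log 2) * t := by
        intro t
        rw [Real.log_pow]; push_cast; ring
      simp only [h1]
      exact htr.const_mul_atTop (by positivity)
    obtain ⟨L₀, hL₀⟩ := ev_fin 1 0 0 (1 / κ) 1 le_rfl
    have h3 : ∀ᶠ t : ℕ in atTop, (K * Real.log 2 * t) ^ 2 ≤ κ / 2 * (2 : ℝ) ^ t := by
      have h4 : Tendsto (fun t : ℕ => (t : ℝ) ^ 2 / (2 : ℝ) ^ t) atTop (nhds 0) := by
        have := tendsto_pow_const_div_const_pow_of_one_lt 2 (show (1 : ℝ) < 2 by norm_num)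
        exact this
      have h5 : ∀ᶠ t : ℕ in atTop, (t : ℝ) ^ 2 / (2 : ℝ) ^ t ≤ κ / 2 / (K * Real.log 2) ^ 2 :=
        h4.eventually (ge_mem_nhds (by positivity))
      filter_upwards [h5] with t ht
      rw [div_le_div_iff₀ (by positivity) (by positivity)] at ht
      calc (K * Real.log 2 * t) ^ 2 = (t : ℝ) ^ 2 * (K * Real.log 2) ^ 2 := by ring
        _ ≤ _ := ht
    filter_upwards [eventually_ge_atTop 1, eventually_ge_atTop (c + W), hXtop.eventually_ge_atTop H₀, h3,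
      hL.eventually_ge_atTop (2 * Real.log W)] with t h4 h5 h6 h7 h8
    refine ⟨h4, h5.trans Nat.lt_two_pow_self.le, h6, ?_, h8⟩
    have ht0 : (0 : ℝ) < t := by exact_mod_cast h4
    have h9 : Real.log ((2 : ℝ) ^ (K * t)) = K * Real.log 2 * t := by
      rw [Real.log_pow]; push_cast; ring
    have h10 : (2 : ℝ) ^ t * 2 ^ t ≤ 2 ^ (K * t) := by
      rw [← pow_add]
      apply pow_le_pow_right₀ (by norm_num)
      nlinarith
    rw [h9, ← mul_div_assoc, le_div_iff₀ (by positivity)]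
    calc (2 : ℝ) ^ t * (K * Real.log 2 * t) ^ 2 ≤ 2 ^ t * (κ / 2 * 2 ^ t) := by gcongr
      _ = κ / 2 * (2 ^ t * 2 ^ t) := by ring
      _ ≤ _ := by gcongr
  obtain ⟨t₀, ht₀⟩ := eventually_atTop.1 hev
  filter_upwards [eventually_gt_atTop (2 ^ (K * t₀) + 1)] with x hx hx𝒳 b hb hb'
  obtain ⟨t, htT, htx⟩ := hx𝒳
  have htt₀ : t₀ ≤ t := by
    by_contra hlt
    push Not at hlt
    have h1 : X t ≤ 2 ^ (K * t₀) + 1 := by
      rw [hX]
      have h3 : 2 ^ (K * t) / W ≤ 2 ^ (K * t) := Nat.div_le_self _ _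
      have h4 : 2 ^ (K * t) ≤ 2 ^ (K * t₀) :=
        Nat.pow_le_pow_right (by norm_num) (Nat.mul_le_mul_left _ hlt.le)
      omega
    omega
  obtain ⟨ht1, hcW, hH₀, hsmall, hlW⟩ := ht₀ t htt₀
  rw [htx] at hH₀
  rw [hT] at htT
  have hdens : κ * ((2 : ℝ) ^ (K * t) / Real.log ((2 : ℝ) ^ (K * t)) ^ 2) ≤
      (((NS (2 ^ (K * t)) W c (OP (2 ^ t))).filter (fun p => G p)).card : ℝ) := htT
  obtain ⟨L, hL⟩ : ∃ L : ℝ, L = Real.log ((2 : ℝ) ^ (K * t)) := ⟨_, rfl⟩
  rw [← hL] at hdens hsmall hlW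
  obtain ⟨M, hM⟩ : ∃ M : ℕ, M = 2 ^ (K * t) := ⟨_, rfl⟩
  have hMr : (M : ℝ) = (2 : ℝ) ^ (K * t) := by rw [hM]; push_cast; rfl
  rw [← hMr] at hdens hsmall hL
  rw [← hM] at hdens
  have hxM : x = M / W + 1 := by rw [← htx, hX, hM]
  obtain ⟨S, hS⟩ : ∃ S : Finset ℕ, S = ((NS M W c (OP (2 ^ t))).filter (fun p => G p)).filter
    (fun p => 2 ^ t < p) := ⟨_, rfl⟩
  have hSm : ∀ p ∈ S, p ≤ M ∧ p.Prime ∧ p ≡ c [MOD W] ∧ (∀ q ∈ OP (2 ^ t), ¬ q ∣ p - 1) ∧ G p ∧ 2 ^ t < p := by
    intro p hp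
    rw [hS, mem_filter, mem_filter] at hp
    obtain ⟨⟨h1, h3⟩, h4⟩ := hp
    unfold NS at h1
    rw [mem_filter, mem_Icc] at h1
    exact ⟨h1.1.2, h1.2.1, h1.2.2.1, h1.2.2.2, h3, h4⟩
  -- the set of the `s`
  obtain ⟨A, hA⟩ : ∃ A : Finset ℕ, A = (Ioc 0 x).filter (fun s => W * s + c ∈ S) := ⟨_, rfl⟩
  have hform : ∀ p ∈ S, ∃ s ∈ A, p = W * s + c := by
    intro p hp
    obtain ⟨h1, h3, h4, h5, h6, h7⟩ := hSm p hp
    have hcp : c ≤ p := by omega
    obtain ⟨s, hs⟩ : W ∣ p - c := (Nat.modEq_iff_dvd' hcp).1 h4.symm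
    have hps : p = W * s + c := by omega
    refine ⟨s, ?_, hps⟩
    rw [hA, mem_filter, mem_Ioc]
    refine ⟨⟨?_, ?_⟩, by rw [← hps]; exact hp⟩
    · by_contra h
      have : s = 0 := by omega
      rw [this, mul_zero, zero_add] at hps
      omega
    · have h8 : s ≤ M / W := by
        rw [Nat.le_div_iff_mul_le hW, mul_comm]
        omega
      omega
  have hcard : S.card ≤ A.card := by
    have h1 : S ⊆ A.image (fun s => W * s + c) := by
      intro p hp
      obtain ⟨s, hs, hps⟩ := hform p hp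
      exact mem_image.2 ⟨s, hs, hps.symm⟩
    exact (card_le_card h1).trans card_image_le
  have hScard : κ / 2 * ((M : ℝ) / L ^ 2) ≤ S.card := by
    have h1 : ((NS M W c (OP (2 ^ t))).filter (fun p => G p)).card ≤ S.card + 2 ^ t := by
      have h3 : (NS M W c (OP (2 ^ t))).filter (fun p => G p) ⊆ S ∪ Icc 1 (2 ^ t) := by
        intro p hp
        by_cases h : 2 ^ t < p
        · exact mem_union_left _ (by rw [hS]; exact mem_filter.2 ⟨hp, h⟩)
        · apply mem_union_right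
          rw [mem_Icc]
          have h4 := (mem_filter.1 hp).1
          unfold NS at h4
          rw [mem_filter, mem_Icc] at h4
          exact ⟨h4.1.1, not_lt.1 h⟩
      refine (card_le_card h3).trans ((card_union_le _ _).trans ?_)
      rw [Nat.card_Icc, Nat.add_sub_cancel]
    have h5 : (((NS M W c (OP (2 ^ t))).filter (fun p => G p)).card : ℝ) ≤ S.card + 2 ^ t := by
      exact_mod_cast h1
    linarith
  have hM1 : (1 : ℝ) ≤ M := by
    rw [hMr]
    exact one_le_pow₀ (by norm_num)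
  have hMW : (W : ℝ) ≤ M := by
    have h1 : W ≤ 2 ^ (K * t) := by
      calc W ≤ 2 ^ t := by omega
        _ ≤ 2 ^ (K * t) := Nat.pow_le_pow_right (by norm_num) (Nat.le_mul_of_pos_left t (by omega))
    rw [hM]
    exact_mod_cast h1
  have hL0 : 0 < L := by
    rw [hL, hMr, Real.log_pow]
    have : (0 : ℝ) < t := by exact_mod_cast ht1
    push_cast
    positivity
  have hxup : (x : ℝ) ≤ 2 * (M / W) := by
    have h1 : ((M / W : ℕ) : ℝ) ≤ M / W := Nat.cast_div_le
    have h3 : (1 : ℝ) ≤ M / W := by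
      rw [one_le_div hW0]
      exact hMW
    rw [hxM]
    push_cast
    linarith
  have hxlow : (M : ℝ) / W ≤ x := by
    have h1 : (M : ℝ) / W < ((M / W : ℕ) : ℝ) + 1 := by
      rw [div_lt_iff₀ hW0]
      have h3 : M < W * (M / W) + W := by
        have := Nat.lt_mul_div_succ M hW
        rw [Nat.mul_add, mul_one] at this
        exact this
      have h4 : (M : ℝ) < W * ((M / W : ℕ) : ℝ) + W := by exact_mod_cast h3
      linarith
    rw [hxM]
    push_cast
    exact h1.le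
  have hMW0 : (0 : ℝ) < M / W := by positivity
  have hx0 : (0 : ℝ) < x := by linarith
  have hlx : L / 2 ≤ Real.log x := by
    have h1 : Real.log ((M : ℝ) / W) ≤ Real.log x := Real.log_le_log hMW0 hxlow
    rw [Real.log_div (by positivity) hW0.ne', ← hL] at h1
    linarith
  have hAcard : κ / 8 * (x / Real.log x ^ Fintype.card Bool) ≤ A.card := by
    have h1 : (x : ℝ) / Real.log x ^ 2 ≤ 4 * (M / L ^ 2) := by
      calc (x : ℝ) / Real.log x ^ 2 ≤ (2 * (M / W)) / (L / 2) ^ 2 := by gcongr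
        _ = 8 / W * (M / L ^ 2) := by field_simp; ring
        _ ≤ 4 * (M / L ^ 2) := by
          have : (8 : ℝ) / W ≤ 4 := by
            rw [div_le_iff₀ hW0]
            have : (2 : ℝ) ≤ W := by exact_mod_cast hW2
            linarith
          gcongr
    have h3 : (S.card : ℝ) ≤ A.card := by exact_mod_cast hcard
    rw [Fintype.card_bool]
    calc κ / 8 * (x / Real.log x ^ 2) ≤ κ / 8 * (4 * (M / L ^ 2)) := by gcongr
      _ = κ / 2 * (M / L ^ 2) := by ring
      _ ≤ _ := hScard.trans h3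
  have hxMle : (x : ℝ) ≤ M := by
    refine hxup.trans ?_
    rw [← mul_div_assoc, div_le_iff₀ hW0]
    have : (2 : ℝ) ≤ W := by exact_mod_cast hW2
    nlinarith
  have hroot : (x : ℝ) ^ (1 / (K : ℝ)) ≤ 2 ^ t := by
    calc (x : ℝ) ^ (1 / (K : ℝ)) ≤ (M : ℝ) ^ (1 / (K : ℝ)) :=
          Real.rpow_le_rpow hx0.le hxMle (by positivity)
      _ = 2 ^ t := by
        rw [hMr, mul_comm K t, pow_mul, ← Real.rpow_natCast ((2 : ℝ) ^ t) K, ← Real.rpow_mul (by positivity),
          mul_one_div_cancel hK0.ne', Real.rpow_one]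
  -- roughness
  have hrough : ∀ n ∈ A, ∀ i, ∀ p : ℕ, p.Prime → (p : ℝ) ≤ (x : ℝ) ^ (1 / (K : ℝ)) →
      ¬ (p : ℤ) ∣ (fA W c W₂ e i).eval (n : ℤ) := by
    intro n hn i p hp hpx hd
    rw [hA, mem_filter] at hn
    obtain ⟨h1, h3, h4, h5, h6, h7⟩ := hSm _ hn.2
    have hpt : p ≤ 2 ^ t := by
      have := hpx.trans hroot
      exact_mod_cast this
    rw [fA_eval] at hd
    cases i
    · simp only [Bool.false_eq_true, if_false] at hd
      have h8 : p ∣ W * n + c := by exact_mod_cast hd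
      have := (Nat.prime_dvd_prime_iff_eq hp h3).1 h8
      omega
    · simp only [if_true] at hd
      have h8 : p ∣ W₂ * n + e := by exact_mod_cast hd
      rcases Nat.lt_or_ge p 3 with h | h
      · have hp2 : p = 2 := by have := hp.two_le; omega
        rw [hp2] at h8
        have h9 : 2 ∣ e := (Nat.dvd_add_right (h2.mul_right n)).1 h8
        exact (Nat.not_even_iff_odd.2 he) (even_iff_two_dvd.2 h9)
      · apply h5 p (mem_OP.2 ⟨hp, h, hpt⟩)
        have h9 : W * n + c - 1 = 2 ^ a * (W₂ * n + e) := by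
          rw [hWa, hca]
          rw [← Nat.add_assoc, Nat.add_sub_cancel]
          ring
        rw [h9]
        exact h8.mul_left _
  have hfin := hpoly 0 x A hH₀ (by simp) (by rw [hA, zero_add]; exact filter_subset _ _) hrough hAcard b hb
    (fun i => (hb' i).1) (fun i => (hb' i).2)
  refine hfin.trans ?_
  rw [Fintype.card_bool]
  refine le_dil δ x (W * x) _ _ _ (fun d => A.filter (fun n => ∀ i, n + WW (δ / 8) x * d * b i ∈ A))
    (fun d hd => mem_filter.1 hd) (fun s => W * s + c) (fun s s' h => by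
      have h1 : W * s = W * s' := by simpa using h
      exact Nat.eq_of_mul_eq_mul_left hW h1) ?_
  intro d hd m hm
  obtain ⟨hmA, hmi⟩ := mem_filter.1 hm
  have hAG : ∀ n ∈ A, G (W * n + c) ∧ W * n + c ≤ M := by
    intro n hn
    rw [hA, mem_filter] at hn
    obtain ⟨h1, h3, h4, h5, h6, h7⟩ := hSm _ hn.2
    exact ⟨h6, h1⟩
  have hc1 : 1 ≤ c := by omega
  refine ⟨by omega, ?_, (hAG m hmA).1, fun i => ?_⟩
  · refine (hAG m hmA).2.trans ?_
    rw [hxM]
    have := Nat.lt_mul_div_succ M hW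
    exact this.le
  · have h1 := (hAG _ (hmi i)).1
    have e1 : W * m + c + W * (WW (δ / 8) x * d) * b i = W * (m + WW (δ / 8) x * d * b i) + c := by ring
    rw [e1]
    exact h1

end Pool.Agent.H534.UT
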