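import Pool.Agent.H534.UT.Art2

/-!
# Simultaneous primitive roots at all the places of every shape
-/

set_option autoImplicit false

open Finset Filter

namespace Pool.Agent.H534.UT

open Pool.Agent.Y855 Pool.Agent.Q84.AR

/-- the class for a modulus with the right power of two -/
theorem cls_two (W c : ℕ) (hW : 0 < W) (h2 : 2 ∣ W) (hc : c.Coprime W)
    (hcq : ∀ q : ℕ, q.Prime → q ∣ W → 3 ≤ q → c % q ≠ 1) :
    ∃ c₁ a W₂ e : ℕ, c₁ ≡ c [MOD W] ∧ c₁.Coprime (2 * W) ∧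
      (∀ q ∈ (2 * W).primeFactors, 3 ≤ q → c₁ % q ≠ 1) ∧ 2 * W = 2 ^ a * W₂ ∧ 2 ∣ W₂ ∧
      c₁ = 2 ^ a * e + 1 ∧ Odd e := by
  obtain ⟨b, m, hm, hWb⟩ := Nat.exists_eq_two_pow_mul_odd hW.ne'
  -- the residue class
  obtain ⟨c₁, hc₁, hc1, hnd⟩ : ∃ c₁ : ℕ, c₁ ≡ c [MOD W] ∧ 2 ≤ c₁ ∧ ¬ 2 ^ (b + 1) ∣ c₁ - 1 := by
    have hc1 : 1 ≤ c + W := by omega
    by_cases h : 2 ^ (b + 1) ∣ (c + 2 * W) - 1
    · refine ⟨c + 3 * W, ?_, by omega, fun h' => ?_⟩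
      · unfold Nat.ModEq
        rw [Nat.add_mul_mod_self_right]
      · have h3 : 2 ^ (b + 1) ∣ W := by
          have h4 := Nat.dvd_sub h' h
          have h5 : c + 3 * W - 1 - (c + 2 * W - 1) = W := by omega
          rwa [h5] at h4
        rw [hWb, pow_succ] at h3
        have h6 : 2 ∣ m := Nat.dvd_of_mul_dvd_mul_left (by positivity) h3
        exact (Nat.not_even_iff_odd.2 hm) (even_iff_two_dvd.2 h6)
    · refine ⟨c + 2 * W, ?_, by omega, h⟩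
      unfold Nat.ModEq
      rw [Nat.add_mul_mod_self_right]
  obtain ⟨a, e, he, hce⟩ := Nat.exists_eq_two_pow_mul_odd (show c₁ - 1 ≠ 0 by omega)
  have hab : a ≤ b := by
    by_contra hlt
    push Not at hlt
    apply hnd
    rw [hce]
    exact (pow_dvd_pow 2 hlt).mul_right _
  have hcopW : c₁.Coprime W := by
    exact (Nat.ModEq.gcd_eq hc₁).trans hc
  refine ⟨c₁, a, 2 ^ (b - a + 1) * m, e, hc₁, ?_, ?_, ?_, ?_, by omega, he⟩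
  · apply Nat.Coprime.mul_right _ hcopW
    exact Nat.Coprime.coprime_dvd_right h2 hcopW
  · intro q hq hq3
    obtain ⟨hqp, hqd, -⟩ := Nat.mem_primeFactors.1 hq
    have hqW : q ∣ W := by
      rcases (Nat.Prime.dvd_mul hqp).1 hqd with h | h
      · have := Nat.le_of_dvd (by norm_num) h
        omega
      · exact h
    have h1 : c₁ % q = c % q := hc₁.of_dvd hqW
    rw [h1]
    exact hcq q hqp hqW hq3
  · rw [hWb, ← mul_assoc, ← mul_assoc, ← pow_succ', ← pow_add]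
    congr 2
    omega
  · rw [pow_succ]
    exact (Dvd.intro_left _ rfl : (2 : ℕ) ∣ 2 ^ (b - a) * 2).mul_right _

open Classical in
/-- **The finite step.** -/
theorem fin_stepS : ∃ K : ℕ, 2 ≤ K ∧ ∀ (U : Finset ℚˣ) (Good : ℕ → Prop), Cls Good →
    ∃ 𝒜 : Fin K → Finset ℚˣ, (Tr U 𝒜 ∧ ∀ i, 𝒜 i ⊆ U) ∧ ShP (fun p => Good p ∧ Cov U 𝒜 p) := by
  obtain ⟨K, hK2, hNS⟩ := nsW
  refine ⟨K, hK2, fun U Good hcls => ?_⟩
  have hK0 : (0 : ℝ) < K := by exact_mod_cast (show 0 < K by omega)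
  obtain ⟨w₀, y₀, hw₀, h2w, hcls⟩ := hcls
  obtain ⟨c', hc', hcq', hGood⟩ := hcls (max y₀ 2) (le_max_left _ _) (le_max_right _ _)
  obtain ⟨W', hW'⟩ : ∃ W' : ℕ, W' = w₀ * primorial (max y₀ 2) := ⟨_, rfl⟩
  rw [← hW'] at hc' hcq' hGood
  have hW'0 : 0 < W' := by rw [hW']; exact Nat.mul_pos hw₀ (primorial_pos _)
  have h2W' : 2 ∣ W' := by rw [hW']; exact h2w.mul_right _
  obtain ⟨c, a, W₂, e, hcc', hc, hcq, hWa, h2, hca, he⟩ := cls_two W' c' hW'0 h2W' hc' hcq'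
  obtain ⟨W, hW⟩ : ∃ W : ℕ, W = 2 * W' := ⟨_, rfl⟩
  rw [← hW] at hc hcq hWa
  have hW0 : 0 < W := by omega
  have hWr : (0 : ℝ) < W := by exact_mod_cast hW0
  have h2W : 2 ∣ W := ⟨W', hW⟩
  -- the families
  obtain ⟨I, hI⟩ : ∃ I : Finset (Fin K → Finset ℚˣ), I = (Fintype.piFinset (fun _ => U.powerset)).filter
    (fun 𝒜 => Tr U 𝒜) := ⟨_, rfl⟩
  obtain ⟨H₀, hH₀⟩ := units_H U
  obtain ⟨C₁, H₁, hgm⟩ := gm_U K (by omega) U
  obtain ⟨n, hn⟩ : ∃ n : ℕ, n = I.card + 1 := ⟨_, rfl⟩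
  have hn0 : (0 : ℝ) < n := by rw [hn]; positivity
  obtain ⟨κ, hκ⟩ : ∃ κ : ℝ, κ = 1 / (16 * (K : ℝ) * n) * (1 / W) := ⟨_, rfl⟩
  have hκ0 : 0 < κ := by rw [hκ]; positivity
  have htr : Tendsto (fun t : ℕ => (t : ℝ)) atTop atTop := tendsto_natCast_atTop_atTop
  have hLtop : Tendsto (fun t : ℕ => Real.log ((2 : ℝ) ^ (K * t))) atTop atTop := by
    have h1 : ∀ t : ℕ, Real.log ((2 : ℝ) ^ (K * t)) = (K * Real.log 2) * t := by
      intro t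
      rw [Real.log_pow]; push_cast; ring
    simp only [h1]
    exact htr.const_mul_atTop (by have := Real.log_pos (show (1 : ℝ) < 2 by norm_num); positivity)
  obtain ⟨L₀, hL₀⟩ := ev_fin K 1 (H₀ + H₁) C₁ (W + 1) (by omega)
  have hev : ∀ᶠ t : ℕ in atTop, ∃ 𝒜 ∈ I, κ * ((2 : ℝ) ^ (K * t) / Real.log ((2 : ℝ) ^ (K * t)) ^ 2) ≤
      (((NS (2 ^ (K * t)) W c (OP (2 ^ t))).filter (fun p => Good p ∧ Cov U 𝒜 p)).card : ℝ) := by
    filter_upwards [hNS W hW0 h2W, eventually_ge_atTop 1, hLtop.eventually_ge_atTop L₀] with t h1 h3 h4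
    have h5 := h1 c hc hcq
    obtain ⟨f1, f2, f3⟩ := hL₀ _ h4
    obtain ⟨L, hL⟩ : ∃ L : ℝ, L = Real.log ((2 : ℝ) ^ (K * t)) := ⟨_, rfl⟩
    obtain ⟨B, hB1, hB2⟩ := hgm t h3
    rw [← hL] at f1 f2 f3 h5 hB1 ⊢
    have hWn : (0 : ℝ) ≤ W := hWr.le
    have hL1 : 1 ≤ L := by linarith
    have hxe : (((2 ^ (K * t) : ℕ) : ℝ)) = Real.exp L := by
      rw [hL, Real.exp_log (by positivity)]
      push_cast
      rfl
    obtain ⟨𝒜, h𝒜, h6⟩ := good_pig K hK2 (2 ^ (K * t)) W c (2 ^ t) L 1 C₁ 1 (H₀ + H₁) hL1 hxe hW0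
      (by rw [pow_one]; linarith) le_rfl h5 f1 f2 B hB1 n I (fun 𝒜 p => Cov U 𝒜 p) (by omega) (by
        intro p hp hpB hpH
        have hpTT : p ∈ TT (2 ^ (K * t)) (2 ^ t) := by
          unfold NS at hp
          unfold TT
          rw [mem_filter] at hp ⊢
          exact ⟨hp.1, hp.2.1, hp.2.2.2⟩
        obtain ⟨h7, h8⟩ := hB2 p hpTT hpB (by omega)
        have hpp : p.Prime := by
          unfold TT at hpTT
          rw [mem_filter] at hpTT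
          exact hpTT.2.1
        obtain ⟨𝒜, h9, h10⟩ := cov_ex (by omega : 1 ≤ K) U p hpp (hH₀ p hpp (by omega)) (LF (2 ^ t) p) h7
          (h8 hpp)
        refine ⟨𝒜, ?_, h10⟩
        rw [hI, mem_filter, Fintype.mem_piFinset]
        refine ⟨fun i => ?_, h9⟩
        rw [mem_powerset]
        intro u hu
        obtain ⟨-, Γ, hΓ⟩ := h9 i
        exact ((hΓ u).1 hu).1)
    refine ⟨𝒜, h𝒜, ?_⟩
    have h7 : (NS (2 ^ (K * t)) W c (OP (2 ^ t))).filter (fun p => (p ∉ B ∧ H₀ + H₁ < p) ∧ Cov U 𝒜 p) ⊆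
        (NS (2 ^ (K * t)) W c (OP (2 ^ t))).filter (fun p => Good p ∧ Cov U 𝒜 p) := by
      intro p hp
      rw [mem_filter] at hp ⊢
      refine ⟨hp.1, ?_, hp.2.2⟩
      apply hGood
      have h8 := hp.1
      unfold NS at h8
      rw [mem_filter] at h8
      exact (h8.2.2.1.of_dvd ⟨2, by rw [hW, mul_comm]⟩).trans hcc'
    have h8 : (((NS (2 ^ (K * t)) W c (OP (2 ^ t))).filter
        (fun p => (p ∉ B ∧ H₀ + H₁ < p) ∧ Cov U 𝒜 p)).card : ℝ) ≤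
        (((NS (2 ^ (K * t)) W c (OP (2 ^ t))).filter (fun p => Good p ∧ Cov U 𝒜 p)).card : ℝ) := by
      exact_mod_cast card_le_card h7
    refine le_trans (le_of_eq ?_) (h6.trans h8)
    rw [hκ]
    push_cast
    ring
  -- one of the families occurs infinitely often
  have hfr : ∃ 𝒜 ∈ I, ∃ᶠ t : ℕ in atTop, κ * ((2 : ℝ) ^ (K * t) / Real.log ((2 : ℝ) ^ (K * t)) ^ 2) ≤
      (((NS (2 ^ (K * t)) W c (OP (2 ^ t))).filter (fun p => Good p ∧ Cov U 𝒜 p)).card : ℝ) := by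
    by_contra hcon
    push Not at hcon
    have h1 : ∀ᶠ t : ℕ in atTop, ∀ 𝒜 ∈ I,
        ¬ (κ * ((2 : ℝ) ^ (K * t) / Real.log ((2 : ℝ) ^ (K * t)) ^ 2) ≤
        (((NS (2 ^ (K * t)) W c (OP (2 ^ t))).filter (fun p => Good p ∧ Cov U 𝒜 p)).card : ℝ)) := by
      rw [eventually_all_finset]
      intro 𝒜 h𝒜
      exact not_frequently.1 (fun h => by
        obtain ⟨t, ht, ht'⟩ := (h.and_eventually (hcon 𝒜 h𝒜)).exists
        exact absurd ht (not_le.2 ht'))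
    obtain ⟨t, ⟨𝒜, h𝒜, h3⟩, h4⟩ := (hev.and h1).exists
    exact h4 𝒜 h𝒜 h3
  obtain ⟨𝒜, h𝒜, hfr⟩ := hfr
  rw [hI, mem_filter, Fintype.mem_piFinset] at h𝒜
  refine ⟨𝒜, ⟨h𝒜.2, fun i => mem_powerset.1 (h𝒜.1 i)⟩, ?_⟩
  refine shP_of K hK2 W c W₂ e a hW0 h2 hWa hca he hc hcq (fun p => Good p ∧ Cov U 𝒜 p) κ hκ0
    (hfr.mono fun t ht => ?_)
  convert ht

/-- **The engine.** -/
theorem engineS : ∃ K : ℕ, 2 ≤ K ∧ ∀ Good : Finset ℚˣ → ℕ → Prop,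
    (∀ U U' : Finset ℚˣ, U' ⊆ U → ∀ p, Good U p → Good U' p) → (∀ U, Cls (Good U)) →
    ∃ G : Fin K → Subgroup ℚˣ, (∀ i, RankLt K (G i : Set ℚˣ)) ∧ ∀ U : Finset ℚˣ,
      ShP (fun p => Good U p ∧ ∃ hp : p.Prime, (∀ u ∈ U, u ∈ Qs p hp 0) ∧
        ∀ l : ℕ, l.Prime → 3 ≤ l → l ∣ p - 1 →
          ∃ i, ∀ u ∈ U, u ∈ Qs p hp ((p - 1) / l) → u ∈ G i) := by
  classical
  obtain ⟨K, hK2, hF⟩ := fin_stepS
  refine ⟨K, hK2, fun Good hmono hcls => ?_⟩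
  have : Countable ℚˣ := Function.Injective.countable (f := fun u : ℚˣ => (u : ℚ)) fun _ _ h => Units.ext h
  obtain ⟨e, he⟩ := exists_surjective_nat ℚˣ
  obtain ⟨V, hV⟩ : ∃ V : ℕ → Finset ℚˣ, ∀ n, V n = (range n).image e := ⟨_, fun _ => rfl⟩
  have hch : ∀ n : ℕ, ∃ 𝒜 : Fin K → Finset ℚˣ, (Tr (V n) 𝒜 ∧ ∀ i, 𝒜 i ⊆ V n) ∧
      ShP (fun p => Good (V n) p ∧ Cov (V n) 𝒜 p) := fun n => hF (V n) (Good (V n)) (hcls (V n))
  choose 𝒜 h𝒜 hP using hch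
  -- the ultrafilter
  obtain ⟨𝒰, h𝒰⟩ : ∃ 𝒰 : Ultrafilter ℕ, 𝒰 = hyperfilter ℕ := ⟨_, rfl⟩
  have hle : (𝒰 : Filter ℕ) ≤ atTop := by
    rw [h𝒰, ← Nat.cofinite_eq_atTop]
    exact hyperfilter_le_cofinite
  have hmemV : ∀ u : ℚˣ, ∀ᶠ n in (𝒰 : Filter ℕ), u ∈ V n := by
    intro u
    obtain ⟨m, hm⟩ := he u
    have h1 : ∀ᶠ n in atTop, u ∈ V n := by
      filter_upwards [eventually_gt_atTop m] with n hn
      rw [hV, mem_image]
      exact ⟨m, mem_range.2 hn, hm⟩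
    exact hle h1
  obtain ⟨G, hG⟩ : ∃ G : Fin K → Subgroup ℚˣ, ∀ i u, u ∈ G i ↔ ∀ᶠ n in (𝒰 : Filter ℕ), u ∈ 𝒜 n i := by
    refine ⟨fun i =>
      { carrier := {u | ∀ᶠ n in (𝒰 : Filter ℕ), u ∈ 𝒜 n i}
        one_mem' := ?_
        mul_mem' := ?_
        inv_mem' := ?_ }, fun i u => Iff.rfl⟩
    · rintro u v hu hv
      filter_upwards [hu, hv, hmemV (u * v)] with n h1 h2 h3
      obtain ⟨-, Γ, hΓ⟩ := (h𝒜 n).1 i
      exact (hΓ _).2 ⟨h3, mul_mem ((hΓ _).1 h1).2 ((hΓ _).1 h2).2⟩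
    · filter_upwards [hmemV 1] with n h3
      obtain ⟨-, Γ, hΓ⟩ := (h𝒜 n).1 i
      exact (hΓ _).2 ⟨h3, one_mem _⟩
    · intro u hu
      filter_upwards [hu, hmemV u⁻¹] with n h1 h3
      obtain ⟨-, Γ, hΓ⟩ := (h𝒜 n).1 i
      exact (hΓ _).2 ⟨h3, inv_mem ((hΓ _).1 h1).2⟩
  refine ⟨G, fun i b hb hind => ?_, fun U => ?_⟩
  · have h1 : ∀ᶠ n in (𝒰 : Filter ℕ), ∀ j, b j ∈ 𝒜 n i := by
      rw [eventually_all]
      exact fun j => (hG i _).1 (hb j)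
    obtain ⟨n, hn⟩ := h1.exists
    exact ((h𝒜 n).1 i).1 b (fun j => hn j) hind
  · have h1 : ∀ᶠ n in (𝒰 : Filter ℕ), ∀ u ∈ U, u ∈ V n := by
      rw [eventually_all_finset]
      exact fun u _ => hmemV u
    have h3 : ∀ᶠ n in (𝒰 : Filter ℕ), ∀ i : Fin K, ∀ u ∈ U, u ∈ 𝒜 n i → u ∈ G i := by
      rw [eventually_all]
      intro i
      rw [eventually_all_finset]
      intro u _
      by_cases hu : u ∈ G i
      · exact Eventually.of_forall fun _ _ => hu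
      · rw [hG, ← Ultrafilter.eventually_not] at hu
        exact hu.mono fun n hn h => absurd h hn
    obtain ⟨n, hn1, hn3⟩ := (h1.and h3).exists
    refine (hP n).mono ?_
    rintro p ⟨h9, hp, h10, h11⟩
    refine ⟨hmono _ _ hn1 _ h9, hp, fun u hu => h10 u (hn1 u hu), fun l hl hl3 hlp => ?_⟩
    obtain ⟨i, hi⟩ := h11 l hl hl3 hlp
    exact ⟨i, fun u hu hul => hn3 i u hu (hi u (hn1 u hu) hul)⟩

theorem main1S : ∃ K : ℕ, 2 ≤ K ∧ ∀ s : ℚˣ →* ℤˣ, sg s (-3) = -1 → ∃ G : Fin K → Subgroup ℚˣ,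
    (∀ i, RankLt K (G i : Set ℚˣ)) ∧ ∀ (U : Finset ℚˣ), (∀ u ∈ U, s u = -1 ∧ ∀ i, u ∉ G i) →
      ShP (fun p => ∃ hp : p.Prime, ∀ u ∈ U, u ∈ Qs p hp 0 ∧
        ∀ l : ℕ, l.Prime → l ∣ p - 1 → u ∉ Qs p hp ((p - 1) / l)) := by
  obtain ⟨K, hK, hE⟩ := engineS
  refine ⟨K, hK, fun s hs => ?_⟩
  obtain ⟨G, hG1, hG2⟩ := hE (GoodS s) (fun U U' hU p h hp u hu => h hp u (hU hu)) (cls_good s hs)
  refine ⟨G, hG1, fun U hU => (hG2 U).mono ?_⟩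
  rintro p ⟨h6, hp, h7, h8⟩
  refine ⟨hp, fun u hu => ⟨h7 u hu, fun l hl hlp hul => ?_⟩⟩
  by_cases hl2 : l = 2
  · subst hl2
    exact h6 hp u hu (hU u hu).1 hul
  · obtain ⟨i, hi⟩ := h8 l hl (by have := hl.two_le; omega) hlp
    exact (hU u hu).2 i (hi u hu hul)

/-- the primes modulo which all the elements of `F` are primitive roots contain every shape -/
def ShF (F : Finset ℤ) : Prop := ShP (fun p => p.Prime ∧ ∀ n ∈ F, orderOf ((n : ℤ) : ZMod p) = p - 1)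

/-- **Simultaneous primitive roots.** -/
theorem main2S : ∃ K : ℕ, (∀ s : ℚˣ →* ℤˣ, (∀ u : ℚˣ, (u : ℚ) = -3 → s u = -1) →
      ∃ G : Fin K → Subgroup ℚˣ, (∀ i, RankLt K (G i : Set ℚˣ)) ∧
      ∀ F : Finset ℤ, (∀ n ∈ F, ∃ u : ℚˣ, (u : ℚ) = n ∧ s u = -1 ∧ ∀ i, u ∉ G i) → ShF F) ∧
    ∀ M : Set ℤ, (∀ n ∈ M, n ≠ -1 ∧ ¬ IsSquare n) → (∀ m ∈ M, ∀ n ∈ M, m ≠ n → IsCoprime m n) →
      ∃ E ⊆ M, E.encard ≤ K ^ 2 ∧ ∀ F : Finset ℤ, (F : Set ℤ) ⊆ M \ E → ShF F := by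
  classical
  obtain ⟨K, hK2, hmain⟩ := main1S
  have hA : ∀ s : ℚˣ →* ℤˣ, sg s (-3) = -1 →
      ∃ G : Fin K → Subgroup ℚˣ, (∀ i, RankLt K (G i : Set ℚˣ)) ∧
      ∀ F : Finset ℤ, (∀ n ∈ F, ∃ u : ℚˣ, (u : ℚ) = n ∧ s u = -1 ∧ ∀ i, u ∉ G i) → ShF F := by
    intro s hs
    obtain ⟨G, hG1, hG2⟩ := hmain s hs
    refine ⟨G, hG1, fun F hF => ?_⟩
    obtain ⟨v, hv⟩ : ∃ v : ℤ → ℚˣ, ∀ n ∈ F, (v n : ℚ) = n ∧ s (v n) = -1 ∧ ∀ i, v n ∉ G i := by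
      have h1 : ∀ n : ℤ, ∃ u : ℚˣ, n ∈ F → (u : ℚ) = n ∧ s u = -1 ∧ ∀ i, u ∉ G i := by
        intro n
        by_cases hn : n ∈ F
        · obtain ⟨u, hu⟩ := hF n hn
          exact ⟨u, fun _ => hu⟩
        · exact ⟨1, fun h => absurd h hn⟩
      choose v hv using h1
      exact ⟨v, hv⟩
    refine (hG2 (F.image v) fun u hu => ?_).mono ?_
    · obtain ⟨n, hn, rfl⟩ := mem_image.1 hu
      exact (hv n hn).2
    · rintro p ⟨hp, h1⟩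
      refine ⟨hp, fun n hn => ?_⟩
      have h3 := h1 (v n) (mem_image_of_mem _ hn)
      exact order_of p hp (v n) n (hv n hn).1 h3.1 h3.2
  refine ⟨K, fun s hs => hA s ?_, fun M hM hMc => ?_⟩
  · obtain ⟨u, hu⟩ := sg_ex (-3) (by norm_num)
    rw [sg_of s (-3) u hu, hs u (by rw [hu]; norm_num)]
    rfl
  · obtain ⟨s, hs, hsM⟩ := hom_cop M hM hMc
    obtain ⟨G, hG1, hG2⟩ := hA s hs
    have hM2 : ∀ n ∈ M, 2 ≤ n.natAbs := by
      intro n hn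
      obtain ⟨hn1, hsq⟩ := hM n hn
      by_contra hlt
      have h5 : n = 0 ∨ n = 1 := by omega
      rcases h5 with h5 | h5
      · exact hsq ⟨0, by rw [h5]; norm_num⟩
      · exact hsq ⟨1, by rw [h5]; norm_num⟩
    refine ⟨{n ∈ M | 3 ∣ n} ∪ ⋃ i : Fin K, {n ∈ M | ∃ u ∈ (G i : Set ℚˣ), (u : ℚ) = n}, ?_, ?_, ?_⟩
    · rintro n (hn | hn)
      · exact hn.1
      · rw [Set.mem_iUnion] at hn
        obtain ⟨i, hi⟩ := hn
        exact hi.1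
    · have h1 : {n ∈ M | 3 ∣ n}.encard ≤ 1 := by
        rw [Set.encard_le_one_iff]
        rintro m n ⟨hm, hm3⟩ ⟨hn, hn3⟩
        by_contra hne
        have := (hMc m hm n hn hne).isUnit_of_dvd' hm3 hn3
        rw [Int.isUnit_iff] at this
        omega
      have h2 : (⋃ i : Fin K, {n ∈ M | ∃ u ∈ (G i : Set ℚˣ), (u : ℚ) = n}).encard ≤
          ((K * (K - 1) : ℕ) : ℕ∞) := by
        refine (Set.encard_iUnion_le_of_fintype _).trans ?_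
        have h3 : ∀ i : Fin K, {n ∈ M | ∃ u ∈ (G i : Set ℚˣ), (u : ℚ) = n}.encard ≤ ((K - 1 : ℕ) : ℕ∞) := by
          intro i
          have h4 := card_cop M hM2 hMc (G i : Set ℚˣ) (hG1 i)
          refine Order.le_of_lt_add_one (h4.trans_le ?_)
          have h5 : K ≤ K - 1 + 1 := by omega
          exact_mod_cast h5
        refine (Finset.sum_le_sum fun i _ => h3 i).trans ?_
        simp
      refine (Set.encard_union_le _ _).trans ((add_le_add h1 h2).trans ?_)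
      have h6 : 1 + K * (K - 1) ≤ K ^ 2 := by
        obtain ⟨k, rfl⟩ : ∃ k, K = k + 1 := ⟨K - 1, by omega⟩
        rw [Nat.add_sub_cancel]
        nlinarith
      exact_mod_cast h6
    · intro F hF
      apply hG2
      intro n hn
      obtain ⟨hnM, hnE⟩ := hF (mem_coe.2 hn)
      have hn0 : n ≠ 0 := by
        rintro rfl
        exact (hM 0 hnM).2 ⟨0, by norm_num⟩
      obtain ⟨u, hu⟩ := sg_ex n hn0
      have h3 : ¬ 3 ∣ n := fun h => hnE (Or.inl ⟨hnM, h⟩)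
      refine ⟨u, hu, hsM n hnM h3 u hu, fun i hi => hnE (Or.inr ?_)⟩
      rw [Set.mem_iUnion]
      exact ⟨i, hnM, u, hi, hu⟩

end Pool.Agent.H534.UT
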