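import Pool.Agent.H534.UT.Poly
import Pool.Graph.R_seed8.TH882.D4

/-!
# Clusters of primes with rough companions, repeated along every shape
-/

set_option autoImplicit false

open Finset Filter Polynomial

namespace Pool.Agent.H534.UT

open Pool.Agent.H534.RS
open Pool.Agent.Y677.RSZ
open Pool.Agent.W123.RU
open Pool.Agent.TH882.DD Pool.Agent.TH882.AG Pool.Agent.TH882.UB Pool.Agent.TH882.HE
open Pool.Agent.H361R2.PP
open Pool.Agent.W70.HR

/-- the linear polynomials `X + u`, `u ∈ U` -/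
theorem sysU (U : Finset ℕ) (hU : ∀ p : ℕ, p.Prime → ∃ m : ℕ, ∀ u ∈ U, ¬ p ∣ m + u) :
    Poly.Sys (fun u : U => (X + C ((u : ℕ) : ℤ) : ℤ[X])) where
  irr := fun u => by
    have h := irreducible_X_sub_C (-((u : ℕ) : ℤ))
    rwa [map_neg, sub_neg_eq_add] at h
  deg := fun u => by rw [natDegree_X_add_C]; exact one_pos
  lead := fun u => by rw [leadingCoeff_X_add_C]; exact one_pos
  inj := fun u v h => by
    simp only at h
    have h1 := C_injective (add_left_cancel h)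
    exact Subtype.ext (by exact_mod_cast h1)
  adm := fun p hp => by
    obtain ⟨m, hm⟩ := hU p hp
    refine ⟨m, fun u hd => hm u.1 u.2 ?_⟩
    rw [eval_add, eval_X, eval_C] at hd
    exact_mod_cast hd

open Classical in
/-- the integers `n` in `[X, 2 X)` with the pattern of primes `n + h`, `h ∈ Q`, and with all `n + u`, `u ∈ U`,
free of prime factors `≤ z` -/
noncomputable def PP (X : ℕ) (z : ℝ) (U Q : Finset ℕ) : Finset ℕ :=
  (Ico X (2 * X)).filter (fun n => (∀ h ∈ Q, (n + h).Prime) ∧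
    ∀ u ∈ U, ∀ p : ℕ, p.Prime → (p : ℝ) ≤ z → ¬ p ∣ n + u)

/-- **Clusters at all the places of every shape.** -/
theorem cluster (S : Finset ℤ) (hS : Adm S) (m : ℕ) : ∃ K : ℕ, 1 ≤ K ∧ ∃ δ : ℝ, 0 < δ ∧ δ ≤ 1 ∧
    ∃ Q : ℕ → Finset ℕ, (∀ X, Q X ∈ Pat S m K ∨ Q X = ∅) ∧ (∀ᶠ X in atTop, Q X ∈ Pat S m K) ∧
    ∀ (r : ℕ) (ε : ℝ), 1 ≤ r → 0 < ε → 8 * ε ≤ 1 → ∃ c : ℝ, 0 < c ∧ ∃ X₀ : ℕ, ∀ X : ℕ, X₀ ≤ X →
    ∀ b : Fin r → ℕ, Function.Injective b → (∀ l, 1 ≤ b l) → (∀ l, (b l : ℝ) ≤ X / ((X : ℝ) ^ ε) ^ 5) →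
    ∃ D : Finset ℕ, c * (X : ℝ) ^ ε ≤ D.card ∧ ∀ d ∈ D, 1 ≤ d ∧ (d : ℝ) ≤ (X : ℝ) ^ ε ∧
      c * (X * Real.log (Real.log X) ^ ((Up S (4 * (m + 1)) K).card * r) /
        Real.log X ^ ((Up S (4 * (m + 1)) K).card * (r + 1))) ≤
        ((solN (PP X ((X : ℝ) ^ δ) (Up S (4 * (m + 1)) K) (Q X)) (WW ε X) b d).card : ℝ) := by
  classical
  obtain ⟨K, hK, δ, hδ, hδ1, c₁, hc₁, X₁, hpop⟩ := popular S hS m
  obtain ⟨U, hUd⟩ : ∃ U, U = Up S (4 * (m + 1)) K := ⟨_, rfl⟩
  rw [← hUd] at hpop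
  obtain ⟨c₂, hc₂, hV⟩ := mv
  obtain ⟨X₂, hV⟩ := hV δ hδ hδ1
  obtain ⟨X₃, hJ⟩ := JJ_size δ hδ hδ1 0 0 (by simp)
  have hsys : Poly.Sys (fun u : U => (X + C ((u : ℕ) : ℤ) : ℤ[X])) := by
    apply sysU
    intro p hp
    obtain ⟨b0, hb0⟩ := base_class S (4 * (m + 1)) K p hS
    refine ⟨b0, fun u hu hd => ?_⟩
    have h1 := hb0 u (hUd ▸ hu)
    have h2 := Nat.dvd_gcd hd (hp.dvd_primorial_iff.2 le_rfl)
    rw [Nat.coprime_iff_gcd_eq_one] at h1
    rw [h1] at h2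
    exact hp.one_lt.ne' (Nat.dvd_one.1 h2)
  have hUne : U.Nonempty := by
    rw [hUd]
    exact ⟨_, Hp_mem S (4 * (m + 1)) K ⟨0, by omega⟩ ⟨0, hK⟩⟩
  have hNe : Nonempty U := hUne.to_subtype
  choose! Q hQP hQ using hpop
  refine ⟨K, hK, δ / 4, by positivity, by linarith, fun X => if X₁ ≤ X then Q X else ∅, ?_, ?_, ?_⟩
  · intro X
    by_cases h : X₁ ≤ X
    · left
      simp only [h, if_true]
      exact hQP X h
    · right
      simp only [h, if_false]
  · filter_upwards [eventually_ge_atTop X₁] with X h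
    simp only [h, if_true]
    exact hQP X h
  · rw [← hUd]
    intro r ε hr hε hε8
    obtain ⟨c₃, hc₃, X₄, heng⟩ := polyP (fun u : U => (X + C ((u : ℕ) : ℤ) : ℤ[X])) hsys r 1 hr (δ / 4)
      (c₁ * (c₂ / δ) ^ U.card) ε (by positivity) (by positivity) hε hε8
    refine ⟨c₃, hc₃, max (max X₁ X₂) (max X₃ (max X₄ 3)), ?_⟩
    intro X hX b hb hb1 hb2
    have hX1 : X₁ ≤ X := (le_max_left _ _).trans ((le_max_left _ _).trans hX)
    have hX2 : X₂ ≤ X := (le_max_right _ _).trans ((le_max_left _ _).trans hX)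
    have hX3 : X₃ ≤ X := (le_max_left _ _).trans ((le_max_right _ _).trans hX)
    have hX4 : X₄ ≤ X := (le_max_left _ _).trans ((le_max_right _ _).trans ((le_max_right _ _).trans hX))
    have hX5 : 3 ≤ X := (le_max_right _ _).trans ((le_max_right _ _).trans ((le_max_right _ _).trans hX))
    have hXr : (3 : ℝ) ≤ X := by exact_mod_cast hX5
    have hX0 : (0 : ℝ) < X := by linarith
    have hlog : 0 < Real.log (X : ℝ) := Real.log_pos (by linarith)
    simp only [hX1, if_true]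
    obtain ⟨-, -, -, hsz⟩ := hJ X hX3
    have hFF : c₂ / δ / Real.log X ≤ FF δ X := by
      have h1 := hV X hX2
      unfold FF
      rw [div_le_iff₀ hlog, div_le_iff₀ hδ]
      calc c₂ ≤ _ := h1
        _ = _ := by ring
    obtain ⟨A, hA⟩ : ∃ A, A = AQ δ X (Hp S (4 * (m + 1)) K) U (Q X) := ⟨_, rfl⟩
    have hAP : A ⊆ PP X ((X : ℝ) ^ (δ / 4)) U (Q X) := by
      intro n hn
      rw [hA] at hn
      have hro := AQ_Ro hn
      unfold AQ at hn
      rw [mem_filter] at hn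
      unfold PP
      rw [mem_filter]
      refine ⟨hn.1, hn.2.2.2, fun u hu p hp hpX => hro u hu p hp ?_⟩
      have h1 : (p : ℝ) < ((2 ^ 2 ^ JJ δ X : ℕ) : ℝ) := by
        refine lt_of_le_of_lt hpX (lt_of_lt_of_le ?_ hsz)
        exact Real.rpow_lt_rpow_of_exponent_lt (by linarith) (by linarith)
      exact_mod_cast h1
    have hAI : A ⊆ Ioc (X - 1) (X - 1 + X) := by
      intro n hn
      have h1 := hAP hn
      unfold PP at h1
      rw [mem_filter, mem_Ico] at h1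
      rw [mem_Ioc]
      omega
    obtain ⟨D, hDc, hD⟩ := heng (X - 1) X A hX4 (by
        rw [pow_one]
        exact_mod_cast Nat.sub_le X 1) hAI
      (by
        intro n hn u p hp hpX hd
        have h1 := hAP hn
        unfold PP at h1
        rw [mem_filter] at h1
        rw [eval_add, eval_X, eval_C] at hd
        exact h1.2.2 u.1 u.2 p hp hpX (by exact_mod_cast hd))
      (by
        rw [Fintype.card_coe, hA]
        refine le_trans ?_ (hQ X hX1)
        calc c₁ * (c₂ / δ) ^ U.card * (X / Real.log X ^ U.card) = c₁ * (X * (c₂ / δ / Real.log X) ^ U.card) := by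
              rw [div_pow (c₂ / δ)]
              field_simp
          _ ≤ c₁ * (X * FF δ X ^ U.card) := by
              gcongr)
      b hb hb1 hb2
    refine ⟨D, hDc, fun d hd => ?_⟩
    obtain ⟨h1, h2, h3⟩ := hD d hd
    refine ⟨h1, h2, ?_⟩
    rw [Fintype.card_coe] at h3
    refine h3.trans ?_
    apply Nat.cast_le.2
    apply card_le_card
    intro n hn
    unfold solN at hn ⊢
    rw [mem_filter] at hn ⊢
    exact ⟨hAP hn.1, fun l => hAP (hn.2 l)⟩

end Pool.Agent.H534.UT
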