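import Pool.Agent.H534.UT.PrimB
import Pool.Graph.R_seed8.Y866.PP.Prog2

/-!
# Uniform constellations in dense sets of primes of one class to a large modulus
-/

set_option autoImplicit false

open Finset Filter Polynomial

namespace Pool.Agent.H534.UT

open Pool.Agent.H534.RS
open Pool.Agent.Y677.RSZ
open Pool.Agent.TH423.SH (PS PIj prb)
open Pool.Agent.Y866.PP (Fl Fl_sys)

/-- Mertens' lower bound -/
theorem PI_low1 : ∃ v : ℝ, 0 < v ∧ ∀ y : ℕ, 3 ≤ y → v / Real.log y ≤ PIj 1 y 1 := by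
  obtain ⟨v, Cv, hv, hCv, hV⟩ := Pool.Agent.W123.RU.Poly.V_bounds (fun _ : Unit => (X : ℤ[X])) sysX
  refine ⟨v, hv, fun y hy => ?_⟩
  have h1 := (hV y hy).1
  rw [← V_eq, Fintype.card_unit, pow_one] at h1
  have h2 : V (fun n => (∏ _i : Unit, (X : ℤ[X])).eval n) 1 y = PIj 1 y 1 := by
    unfold V PIj
    apply prod_congr rfl
    intro p hp
    have hpp : p.Prime := by
      unfold PS at hp
      rw [mem_filter] at hp
      exact hp.2.1
    have e2 : rt (fun n => (∏ _i : Unit, (X : ℤ[X])).eval n) p = 1 := by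
      unfold rt
      rw [card_eq_one]
      refine ⟨0, ?_⟩
      ext r
      rw [mem_filter, mem_range, mem_singleton]
      simp only [univ_unique, prod_const, card_singleton, pow_one, eval_X]
      constructor
      · rintro ⟨h3, h4⟩
        have h5 : p ∣ r := by exact_mod_cast h4
        exact Nat.eq_zero_of_dvd_of_lt h5 h3
      · rintro rfl
        exact ⟨hpp.pos, by simp⟩
    rw [e2]
  rw [h2] at h1
  exact h1

/-- the sieve product of the primes which do not divide `W` -/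
theorem PI_low : ∃ v : ℝ, 0 < v ∧ ∀ W y : ℕ, 0 < W → 3 ≤ y → (∀ p : ℕ, p.Prime → p ∣ W → p ≤ y) →
    v * (W / (W.totient * Real.log y)) ≤ PIj W y 1 := by
  obtain ⟨v, hv, h⟩ := PI_low1
  refine ⟨v, hv, fun W y hW hy hWy => ?_⟩
  have hlog : 0 < Real.log (y : ℝ) := Real.log_pos (by exact_mod_cast (show 1 < y by omega))
  have hWr : (0 : ℝ) < W := by exact_mod_cast hW
  have hφ : (0 : ℝ) < W.totient := by exact_mod_cast Nat.totient_pos.2 hW
  have h1 := h y hy
  have hpos : ∀ p ∈ W.primeFactors, (0 : ℝ) < 1 - 1 / (p : ℝ) := fun p hp =>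
    Pool.Agent.TH423.SH.PrdP.one_sub_nonneg (Nat.prime_of_mem_primeFactors hp)
  have hsplit : PIj 1 y 1 = PIj W y 1 * ∏ p ∈ W.primeFactors, (1 - 1 / (p : ℝ)) := by
    unfold PIj
    simp only [Nat.cast_one]
    have e1 : PS 1 y = PS W y ∪ W.primeFactors := by
      ext p
      rw [mem_union, Pool.Agent.TH423.SH.PrdP.mem_PS, Pool.Agent.TH423.SH.PrdP.mem_PS, Nat.mem_primeFactors]
      constructor
      · rintro ⟨g1, g2, g3⟩
        by_cases g4 : p ∣ W
        · exact Or.inr ⟨g2, g4, hW.ne'⟩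
        · exact Or.inl ⟨g1, g2, g4⟩
      · rintro (⟨g1, g2, g3⟩ | ⟨g1, g2, g3⟩)
        · exact ⟨g1, g2, fun g => g2.one_lt.ne' (Nat.dvd_one.1 g)⟩
        · exact ⟨⟨g1.pos, hWy p g1 g2⟩, g1, fun g => g1.one_lt.ne' (Nat.dvd_one.1 g)⟩
    rw [e1, prod_union]
    rw [disjoint_left]
    intro p hp hq
    rw [Pool.Agent.TH423.SH.PrdP.mem_PS] at hp
    rw [Nat.mem_primeFactors] at hq
    exact hp.2.2 hq.2.1
  rw [hsplit] at h1
  have htot := Pool.Agent.TH423.SH.PrdP.totient_eq W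
  obtain ⟨P, hP⟩ : ∃ P : ℝ, P = ∏ p ∈ W.primeFactors, (1 - 1 / (p : ℝ)) := ⟨_, rfl⟩
  have hP0 : 0 < P := by rw [hP]; exact prod_pos hpos
  rw [← hP] at h1 htot
  rw [htot]
  have e2 : v * ((W : ℝ) / (W * P * Real.log y)) = v / Real.log y / P := by
    field_simp
  rw [e2, div_le_iff₀ hP0]
  exact h1

theorem dW_le_one (F : ℤ → ℤ) (W : ℕ) (h : ∀ p : ℕ, p.Prime → rt F p < p) : 0 < dW F W ∧ dW F W ≤ 1 := by
  unfold dW
  have hf : ∀ p ∈ W.primeFactors, 0 < 1 - (rt F p : ℝ) / p ∧ 1 - (rt F p : ℝ) / p ≤ 1 := by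
    intro p hp
    have hpp := Nat.prime_of_mem_primeFactors hp
    have hp0 : (0 : ℝ) < p := by exact_mod_cast hpp.pos
    have h1 : (rt F p : ℝ) < p := by exact_mod_cast h p hpp
    constructor
    · rw [sub_pos, div_lt_one hp0]
      exact h1
    · have : 0 ≤ (rt F p : ℝ) / p := by positivity
      linarith
  exact ⟨prod_pos fun p hp => (hf p hp).1, prod_le_one (fun p hp => (hf p hp).1.le) fun p hp => (hf p hp).2⟩

/-- numerical facts -/
theorem num_iso (H₀ : ℕ) (c : ℝ) : ∀ᶠ X : ℝ in atTop, 1000 ≤ Real.log X ∧ 1 ≤ X ∧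
    ∀ W : ℝ, 1 ≤ W → W ≤ Real.exp (Real.log X / 700) →
      ∀ H : ℕ, (H : ℝ) ≤ 3 * X / W → 3 * X / W - 1 ≤ H →
      H₀ ≤ H ∧ 3 ≤ H ∧ X / W ≤ H ∧ W ≤ H ∧ 5 * X ≤ (H : ℝ) ^ 2 ∧ Real.log H ≤ 2 * Real.log X ∧
      Real.log X / 2 ≤ Real.log H ∧ (H : ℝ) ^ (1 / 2 : ℝ) ≤ X ∧
      X ^ (99 / 100 : ℝ) ≤ H / ((H : ℝ) ^ (1 / 1000 : ℝ)) ^ 5 ∧
      W * ((H : ℝ) ^ (1 / 1000 : ℝ)) ^ 3 ≤ X ^ (1 / 200 : ℝ) ∧
      X ^ (1 / 2000 : ℝ) ≤ (H : ℝ) ^ (1 / 1000 : ℝ) ∧ 1 / 1000 * Real.log H ≤ H := by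
  filter_upwards [Real.tendsto_log_atTop.eventually_ge_atTop (1000 : ℝ), eventually_ge_atTop (1 : ℝ),
    eventually_ge_atTop ((H₀ : ℝ) ^ 2)] with X hL hX1 hXH
  refine ⟨hL, hX1, fun W hW1 hW H hH1 hH2 => ?_⟩
  obtain ⟨L, hLd⟩ : ∃ L : ℝ, L = Real.log X := ⟨_, rfl⟩
  rw [← hLd] at hL hW ⊢
  have hX0 : 0 < X := by linarith
  have hXe : X = Real.exp L := by rw [hLd, Real.exp_log hX0]
  have hW0 : 0 < W := by linarith
  -- the lower bound for `X / W`
  have hXW : Real.exp (699 / 700 * L) ≤ X / W := by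
    rw [le_div_iff₀ hW0]
    calc Real.exp (699 / 700 * L) * W ≤ Real.exp (699 / 700 * L) * Real.exp (L / 700) := by gcongr
      _ = Real.exp L := by rw [← Real.exp_add]; congr 1; ring
      _ = X := hXe.symm
  have hbig : 1 + 699 / 700 * L ≤ Real.exp (699 / 700 * L) := by
    have := Real.add_one_le_exp (699 / 700 * L)
    linarith
  have hXW1 : 900 ≤ X / W := by linarith
  have hHlow : X / W ≤ H := by
    have e1 : 3 * X / W = 3 * (X / W) := by ring
    rw [e1] at hH2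
    linarith
  have hHup : (H : ℝ) ≤ 3 * X := by
    refine hH1.trans ?_
    rw [div_le_iff₀ hW0]
    nlinarith
  have hH0 : (0 : ℝ) < H := by linarith
  have hHe : (H : ℝ) = Real.exp (Real.log H) := (Real.exp_log hH0).symm
  have hlH1 : 699 / 700 * L ≤ Real.log H := by
    rw [Real.le_log_iff_exp_le hH0]
    exact hXW.trans hHlow
  have hlH2 : Real.log H ≤ L + 2 := by
    have h1 := Real.log_le_log hH0 hHup
    rw [Real.log_mul (by norm_num) hX0.ne', ← hLd] at h1
    have h2 : Real.log 3 ≤ 3 - 1 := Real.log_le_sub_one_of_pos (by norm_num)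
    linarith
  have hpow : ∀ s : ℝ, (H : ℝ) ^ s = Real.exp (Real.log H * s) := fun s => Real.rpow_def_of_pos hH0 s
  have hpowX : ∀ s : ℝ, X ^ s = Real.exp (L * s) := fun s => by
    rw [Real.rpow_def_of_pos hX0, ← hLd]
  refine ⟨?_, ?_, hHlow, ?_, ?_, by linarith, by linarith, ?_, ?_, ?_, ?_, ?_⟩
  · -- `H₀ ≤ H`
    have h1 : Real.exp (699 / 700 * L) ≤ H := hXW.trans hHlow
    have h2 : (H₀ : ℝ) ^ 2 ≤ (H : ℝ) ^ 2 := by
      calc (H₀ : ℝ) ^ 2 ≤ X := hXH
        _ = Real.exp L := hXe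
        _ ≤ Real.exp (699 / 700 * L) ^ 2 := by
          rw [← Real.exp_nat_mul]
          apply Real.exp_le_exp.2
          push_cast
          linarith
        _ ≤ _ := by gcongr
    have h3 : (H₀ : ℝ) ≤ H := by
      by_contra hcon
      push Not at hcon
      nlinarith
    exact_mod_cast h3
  · have : (3 : ℝ) ≤ H := by linarith
    exact_mod_cast this
  · calc W ≤ Real.exp (L / 700) := hW
      _ ≤ Real.exp (699 / 700 * L) := Real.exp_le_exp.2 (by linarith)
      _ ≤ H := hXW.trans hHlow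
  · calc 5 * X ≤ Real.exp (L / 2) * Real.exp L := by
          rw [hXe]
          gcongr
          have := Real.add_one_le_exp (L / 2)
          linarith
      _ = Real.exp (3 / 2 * L) := by rw [← Real.exp_add]; congr 1; ring
      _ ≤ Real.exp (699 / 700 * L) ^ 2 := by
          rw [← Real.exp_nat_mul]
          apply Real.exp_le_exp.2
          push_cast
          linarith
      _ ≤ _ := by
          gcongr
          exact hXW.trans hHlow
  · rw [hpow]
    calc Real.exp (Real.log H * (1 / 2)) ≤ Real.exp L := Real.exp_le_exp.2 (by linarith)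
      _ = X := hXe.symm
  · rw [hpow, hpowX, ← Real.exp_nat_mul]
    have e1 : (H : ℝ) / Real.exp ((5 : ℕ) * (Real.log H * (1 / 1000))) =
        Real.exp (Real.log H - (5 : ℕ) * (Real.log H * (1 / 1000))) := by
      rw [Real.exp_sub, Real.exp_log hH0]
    rw [e1]
    apply Real.exp_le_exp.2
    push_cast
    linarith
  · rw [hpow, hpowX, ← Real.exp_nat_mul]
    calc W * Real.exp ((3 : ℕ) * (Real.log H * (1 / 1000))) ≤
        Real.exp (L / 700) * Real.exp ((3 : ℕ) * (Real.log H * (1 / 1000))) := by gcongr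
      _ = Real.exp (L / 700 + (3 : ℕ) * (Real.log H * (1 / 1000))) := by rw [Real.exp_add]
      _ ≤ _ := Real.exp_le_exp.2 (by push_cast; linarith)
  · rw [hpow, hpowX]
    exact Real.exp_le_exp.2 (by linarith)
  · have h1 : Real.log H ≤ H - 1 := Real.log_le_sub_one_of_pos hH0
    have h2 : 0 ≤ Real.log (H : ℝ) := by linarith
    linarith

open Classical in
/-- **Uniform constellations in dense sets of primes of one class to a large modulus.** -/
theorem clsS (k : ℕ) (κ : ℝ) (hk : 1 ≤ k) (hκ : 0 < κ) : ∃ κ' : ℝ, 0 < κ' ∧ ∀ᶠ X : ℝ in atTop,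
    ∀ W b : ℕ, 0 < W → (W : ℝ) ≤ Real.exp (Real.log X / 700) → b.Coprime W →
    ∀ A : Finset ℕ, (∀ p ∈ A, p.Prime ∧ X < p ∧ (p : ℝ) ≤ 3 * X ∧ p ≡ b [MOD W]) →
    κ * (X / (W.totient * Real.log X)) ≤ A.card →
    ∀ a : Fin k → ℕ, Function.Injective a → (∀ j, 1 ≤ a j ∧ (a j : ℝ) ≤ X ^ (99 / 100 : ℝ)) →
    κ' * X ^ (1 / 2000 : ℝ) ≤ (((Icc 1 ⌊X ^ (1 / 200 : ℝ)⌋₊).filter (fun D => W ∣ D ∧
      κ' * (X / W * (W / (W.totient * Real.log X)) ^ (k + 1)) ≤
        ((A.filter (fun p => ∀ j, p + D * a j ∈ A)).card : ℝ))).card : ℝ) := by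
  obtain ⟨v, hv, hlow⟩ := PI_low
  obtain ⟨c, H₀, hc, heng⟩ := engP k 2 (1 / 2) (κ / 6) (1 / 1000) hk (by norm_num) (by positivity)
    (by norm_num) (by norm_num)
  refine ⟨min c (c * (v / 2) ^ (k + 1)), lt_min hc (by positivity), ?_⟩
  filter_upwards [num_iso H₀ c] with X hnum W b hW hWX hbW A hA hAc a ha ha'
  obtain ⟨hL, hX1, hnum⟩ := hnum
  have hX0 : 0 < X := by linarith
  have hW0 : (0 : ℝ) < W := by exact_mod_cast hW
  have hW1 : (1 : ℝ) ≤ W := by exact_mod_cast hW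
  have hφ : (0 : ℝ) < W.totient := by exact_mod_cast Nat.totient_pos.2 hW
  have hL0 : 0 < Real.log X := by linarith
  obtain ⟨H, hH⟩ : ∃ H : ℕ, H = ⌊3 * X / W⌋₊ := ⟨_, rfl⟩
  obtain ⟨Y, hY⟩ : ∃ Y : ℕ, Y = ⌊X / W⌋₊ - 1 := ⟨_, rfl⟩
  obtain ⟨m1, m2, m3, m4, m5, m6, m7, m8, m9, m10, m11, m12⟩ := hnum W hW1 hWX H (by
      rw [hH]; exact Nat.floor_le (by positivity)) (by
      have := Nat.lt_floor_add_one (3 * X / (W : ℝ))
      rw [← hH] at this
      linarith)
  have hH0 : (0 : ℝ) < H := by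
    have : (3 : ℝ) ≤ H := by exact_mod_cast m2
    linarith
  obtain ⟨a₀, ha₀⟩ : ∃ a₀ : ℕ, a₀ = b % W := ⟨_, rfl⟩
  have ha₀W : a₀ < W := by rw [ha₀]; exact Nat.mod_lt _ hW
  have ha₀c : a₀.Coprime W := by
    have h1 : a₀ ≡ b [MOD W] := by rw [ha₀]; exact Nat.mod_modEq _ _
    exact (Nat.ModEq.gcd_eq h1).trans hbW
  have hfl1 : 1 ≤ ⌊X / (W : ℝ)⌋₊ := by
    apply Nat.le_floor
    rw [Nat.cast_one, le_div_iff₀ hW0, one_mul]
    calc (W : ℝ) ≤ Real.exp (Real.log X / 700) := hWX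
      _ ≤ Real.exp (Real.log X) := Real.exp_le_exp.2 (by linarith)
      _ = X := Real.exp_log hX0
  have hYle : (Y : ℝ) ≤ X / W := by
    have h1 : Y ≤ ⌊X / (W : ℝ)⌋₊ := by omega
    have h2 : (Y : ℝ) ≤ (⌊X / (W : ℝ)⌋₊ : ℝ) := by exact_mod_cast h1
    exact h2.trans (Nat.floor_le (by positivity))
  have hHle : (H : ℝ) ≤ 3 * X / W := by rw [hH]; exact Nat.floor_le (by positivity)
  -- the set in terms of the cofactors
  obtain ⟨A', hA'⟩ : ∃ A' : Finset ℕ, A' = (Ioc Y (Y + H)).filter (fun n => a₀ + W * n ∈ A) := ⟨_, rfl⟩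
  have hA'A : ∀ n ∈ A', a₀ + W * n ∈ A := fun n hn => by
    rw [hA', mem_filter] at hn
    exact hn.2
  have hform : ∀ p ∈ A, ∃ n ∈ A', p = a₀ + W * n := by
    intro p hp
    obtain ⟨h1, h2, h3, h4⟩ := hA p hp
    have h5 : p % W = a₀ := by rw [ha₀]; exact h4
    have h6 : p = a₀ + W * (p / W) := by
      have := Nat.mod_add_div p W
      rw [h5] at this
      exact this.symm
    refine ⟨p / W, ?_, h6⟩
    rw [hA', mem_filter, mem_Ioc, ← h6]
    refine ⟨⟨?_, ?_⟩, hp⟩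
    · have h7 : ⌊X / (W : ℝ)⌋₊ ≤ p / W := by
        rw [Nat.le_div_iff_mul_le hW]
        have h8 : ((⌊X / (W : ℝ)⌋₊ * W : ℕ) : ℝ) ≤ p := by
          push_cast
          have h9 : (⌊X / (W : ℝ)⌋₊ : ℝ) ≤ X / W := Nat.floor_le (by positivity)
          calc (⌊X / (W : ℝ)⌋₊ : ℝ) * W ≤ X / W * W := by gcongr
            _ = X := by field_simp
            _ ≤ p := h2.le
        exact_mod_cast h8
      omega
    · have h7 : p / W ≤ H := by
        rw [hH]
        apply Nat.le_floor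
        have h8 : ((p / W : ℕ) : ℝ) ≤ p / W := Nat.cast_div_le
        refine h8.trans ?_
        gcongr
      omega
  have hcard : A.card ≤ A'.card := by
    have h1 : A ⊆ A'.image (fun n => a₀ + W * n) := by
      intro p hp
      obtain ⟨n, hn, hpn⟩ := hform p hp
      exact mem_image.2 ⟨n, hn, hpn.symm⟩
    exact (card_le_card h1).trans card_image_le
  -- the sieve product
  have hWpr : ∀ p : ℕ, p.Prime → p ∣ W → p ≤ H := by
    intro p hp hd
    have h1 : p ≤ W := Nat.le_of_dvd hW hd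
    have h2 : W ≤ H := by exact_mod_cast m4
    omega
  have hlH : 0 < Real.log (H : ℝ) := by linarith
  obtain ⟨V₀, hV₀⟩ : ∃ V₀ : ℝ, V₀ = PIj W H 1 := ⟨_, rfl⟩
  have hVlow : v * (W / (W.totient * Real.log H)) ≤ V₀ := by
    rw [hV₀]
    exact hlow W H hW m2 hWpr
  have hVup : V₀ ≤ W / (W.totient * Real.log H) := by
    rw [le_div_iff₀ (by positivity), hV₀]
    have := prb W H hW (by omega)
    linarith
  have hVF : V (Fl a₀ W) 1 H = V₀ := by
    rw [hV₀]
    exact Pool.Agent.Y866.PP.V_eq a₀ W ha₀c H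
  have hsys := Fl_sys a₀ W 2 ha₀c (by norm_num)
  obtain ⟨D', hD'c, hD'⟩ := heng (Fl a₀ W) Y H A' a hsys m1 (by
      intro n hn
      rw [mem_Ioc] at hn
      have h1 : Fl a₀ W (n : ℤ) = ((a₀ + W * n : ℕ) : ℤ) := by unfold Fl; push_cast; rfl
      rw [h1]
      have h2 : 1 ≤ W * n := Nat.mul_pos hW (by omega)
      refine ⟨by exact_mod_cast (by omega : a₀ + W * n ≠ 0), ?_⟩
      rw [Nat.abs_cast]
      have h3 : ((a₀ + W * n : ℕ) : ℝ) ≤ (H : ℝ) ^ 2 := by
        refine le_trans ?_ m5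
        push_cast
        have h4 : (n : ℝ) ≤ Y + H := by exact_mod_cast hn.2
        have h5 : (a₀ : ℝ) ≤ W := by exact_mod_cast ha₀W.le
        have h6 : (W : ℝ) ≤ X := by
          calc (W : ℝ) ≤ Real.exp (Real.log X / 700) := hWX
            _ ≤ Real.exp (Real.log X) := Real.exp_le_exp.2 (by linarith)
            _ = X := Real.exp_log hX0
        have h7 : (W : ℝ) * n ≤ 4 * X := by
          calc (W : ℝ) * n ≤ W * (X / W + 3 * X / W) := by gcongr; linarith
            _ = 4 * X := by field_simp; ring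
        linarith
      exact_mod_cast h3) (by rw [hA']; exact filter_subset _ _) (by
      intro n hn p hp hpH hd
      obtain ⟨h1, h2, h3, h4⟩ := hA _ (hA'A n hn)
      have h5 : p ∣ a₀ + W * n := by
        unfold Fl at hd
        exact_mod_cast hd
      have h6 := (Nat.prime_dvd_prime_iff_eq hp h1).1 h5
      rw [← h6] at h2
      linarith) (by
      rw [hVF]
      have h1 : (A.card : ℝ) ≤ A'.card := by exact_mod_cast hcard
      refine le_trans ?_ (hAc.trans h1)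
      calc κ / 6 * (H * V₀) ≤ κ / 6 * ((3 * X / W) * (W / (W.totient * (Real.log X / 2)))) := by
            have h2 : (W : ℝ) / (W.totient * Real.log H) ≤ W / (W.totient * (Real.log X / 2)) := by gcongr
            gcongr
            · have : 0 ≤ v * ((W : ℝ) / (W.totient * Real.log H)) := by positivity
              linarith
            · exact hVup.trans h2
        _ = κ * (X / (W.totient * Real.log X)) := by field_simp; ring) ha (fun j => (ha' j).1)
    (fun j => (ha' j).2.trans m9)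
  -- the sets of the dilates
  have hWWp : (0 : ℝ) < WW (1 / 1000) H := by exact_mod_cast WW_pos _ H
  have hWWle := WW_le (1 / 1000) (by norm_num) H (by omega)
  have hsplit : V (Fl a₀ W) 1 H = dW (Fl a₀ W) (WW (1 / 1000) H) * V (Fl a₀ W) (WW (1 / 1000) H) H := by
    apply V_dW _ _ _ (WW_pos (1 / 1000) H)
    intro p hp hd
    have h4 := (WW_dvd (1 / 1000) (by norm_num) H p hp).1 hd
    have h5 : (p : ℝ) ≤ H := h4.trans m12
    exact_mod_cast h5
  obtain ⟨hd0, hd1⟩ := dW_le_one (Fl a₀ W) (WW (1 / 1000) H) (fun p hp => (hsys.root p hp).2)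
  obtain ⟨d₁, hd₁⟩ : ∃ d₁, d₁ = dW (Fl a₀ W) (WW (1 / 1000) H) := ⟨_, rfl⟩
  obtain ⟨v₁, hv₁⟩ : ∃ v₁, v₁ = V (Fl a₀ W) (WW (1 / 1000) H) H := ⟨_, rfl⟩
  rw [← hd₁, ← hv₁] at hsplit
  rw [← hd₁] at hd0 hd1
  rw [hVF] at hsplit
  have hV₀0 : 0 < V₀ := lt_of_lt_of_le (by positivity) hVlow
  have hv₁0 : 0 < v₁ := by
    rw [hsplit] at hV₀0
    exact pos_of_mul_pos_right hV₀0 hd0.le
  have hv₁V : V₀ ≤ v₁ := by
    rw [hsplit]
    exact mul_le_of_le_one_left hv₁0.le hd1
  have hmain : (v / 2) ^ (k + 1) * (X / W * (W / (W.totient * Real.log X)) ^ (k + 1)) ≤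
      H * d₁ * v₁ ^ (k + 1) := by
    have h1 : V₀ ^ (k + 1) ≤ d₁ * v₁ ^ (k + 1) := by
      calc V₀ ^ (k + 1) = (d₁ * v₁) * V₀ ^ k := by rw [pow_succ, ← hsplit]; ring
        _ ≤ (d₁ * v₁) * v₁ ^ k := by gcongr
        _ = d₁ * v₁ ^ (k + 1) := by ring
    have h2 : v / 2 * (W / (W.totient * Real.log X)) ≤ V₀ := by
      refine le_trans ?_ hVlow
      calc v / 2 * (W / (W.totient * Real.log X)) = v * (W / (W.totient * (2 * Real.log X))) := by
            field_simp
        _ ≤ v * (W / (W.totient * Real.log H)) := by gcongr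
    calc (v / 2) ^ (k + 1) * (X / W * (W / (W.totient * Real.log X)) ^ (k + 1)) =
        X / W * (v / 2 * (W / (W.totient * Real.log X))) ^ (k + 1) := by rw [mul_pow]; ring
      _ ≤ H * V₀ ^ (k + 1) := by gcongr
      _ ≤ H * (d₁ * v₁ ^ (k + 1)) := by gcongr
      _ = _ := by ring
  have hinj : Set.InjOn (fun d => W * WW (1 / 1000) H * d) (D' : Set ℕ) := by
    intro d _ d' _ h
    exact Nat.eq_of_mul_eq_mul_left (Nat.mul_pos hW (WW_pos _ H)) h
  have hsub : D'.image (fun d => W * WW (1 / 1000) H * d) ⊆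
      (Icc 1 ⌊X ^ (1 / 200 : ℝ)⌋₊).filter (fun D => W ∣ D ∧
      min c (c * (v / 2) ^ (k + 1)) * (X / W * (W / (W.totient * Real.log X)) ^ (k + 1)) ≤
        ((A.filter (fun p => ∀ j, p + D * a j ∈ A)).card : ℝ)) := by
    intro D hD
    obtain ⟨d, hd, rfl⟩ := mem_image.1 hD
    obtain ⟨h1, h2, h3⟩ := hD' d hd
    rw [← hd₁, ← hv₁] at h3
    rw [mem_filter, mem_Icc]
    refine ⟨⟨?_, ?_⟩, ⟨WW (1 / 1000) H * d, by ring⟩, ?_⟩
    · exact Nat.mul_pos (Nat.mul_pos hW (WW_pos _ H)) h1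
    · apply Nat.le_floor
      refine le_trans ?_ m10
      push_cast
      have h4 : (0 : ℝ) ≤ (H : ℝ) ^ (1 / 1000 : ℝ) := by positivity
      calc (W : ℝ) * WW (1 / 1000) H * d ≤ W * ((H : ℝ) ^ (1 / 1000 : ℝ)) ^ 2 * (H : ℝ) ^ (1 / 1000 : ℝ) := by
            gcongr
        _ = _ := by ring
    · calc min c (c * (v / 2) ^ (k + 1)) * (X / W * (W / (W.totient * Real.log X)) ^ (k + 1)) ≤
          c * (v / 2) ^ (k + 1) * (X / W * (W / (W.totient * Real.log X)) ^ (k + 1)) := by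
            gcongr
            exact min_le_right _ _
        _ = c * ((v / 2) ^ (k + 1) * (X / W * (W / (W.totient * Real.log X)) ^ (k + 1))) := by ring
        _ ≤ c * (H * d₁ * v₁ ^ (k + 1)) := by gcongr
        _ ≤ ((solN A' (WW (1 / 1000) H) a d).card : ℝ) := h3
        _ ≤ _ := by
          have h5 : (solN A' (WW (1 / 1000) H) a d).card ≤
              (A.filter (fun p => ∀ j, p + W * WW (1 / 1000) H * d * a j ∈ A)).card := by
            apply card_le_card_of_injOn (fun n => a₀ + W * n)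
            · intro n hn
              have hn' := mem_coe.1 hn
              unfold solN at hn'
              rw [mem_filter] at hn'
              refine mem_coe.2 (mem_filter.2 ⟨hA'A n hn'.1, fun j => ?_⟩)
              have h6 := hA'A _ (hn'.2 j)
              have h7 : a₀ + W * n + W * WW (1 / 1000) H * d * a j =
                  a₀ + W * (n + WW (1 / 1000) H * a j * d) := by ring
              rw [h7]
              exact h6
            · intro n _ n' _ h
              have h6 : W * n = W * n' := by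
                have : a₀ + W * n = a₀ + W * n' := h
                omega
              exact Nat.eq_of_mul_eq_mul_left hW h6
          exact_mod_cast h5
  have h1 := card_le_card hsub
  rw [card_image_of_injOn hinj] at h1
  have h2 : (D'.card : ℝ) ≤ _ := Nat.cast_le.2 h1
  refine le_trans ?_ h2
  calc min c (c * (v / 2) ^ (k + 1)) * X ^ (1 / 2000 : ℝ) ≤ c * (H : ℝ) ^ (1 / 1000 : ℝ) := by
        gcongr
        exact min_le_left _ _
    _ ≤ _ := hD'c

end Pool.Agent.H534.UT
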