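import Pool.Agent.H534.UT.Clus

/-!
# Almost missing integers at all the places of every shape
-/

set_option autoImplicit false

open Finset Filter Polynomial

namespace Pool.Agent.H534.UT

open Pool.Agent.H534.RS
open Pool.Agent.Y677.RSZ
open Pool.Agent.W123.RU

open Classical in
/-- the theorem for polynomial systems, with a count of the `d` -/
theorem polyQ {ι : Type} [Fintype ι] [Nonempty ι] (f : ι → ℤ[X]) (hf : Poly.Sys f) (k g : ℕ) (δ η κ : ℝ)
    (hk : 1 ≤ k) (hδ : 0 < δ) (hδ1 : δ ≤ 1) (hη : 0 < η) (hκ : 0 < κ) :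
    ∃ c : ℝ, 0 < c ∧ ∃ H₀ : ℕ, ∀ (Y H : ℕ) (A : Finset ℕ), H₀ ≤ H → Y ≤ H ^ g → A ⊆ Ioc Y (Y + H) →
    (∀ n ∈ A, ∀ i, ∀ p : ℕ, p.Prime → (p : ℝ) ≤ (H : ℝ) ^ η → ¬ (p : ℤ) ∣ (f i).eval (n : ℤ)) →
    κ * (H / Real.log H ^ Fintype.card ι) ≤ A.card →
    ∀ a : Fin k → ℕ, Function.Injective a → (∀ i, 1 ≤ a i) → (∀ i, (a i : ℝ) ≤ (H : ℝ) ^ (1 - δ)) →
    c * (H : ℝ) ^ (δ / 8) ≤ (((Icc 1 ⌊(H : ℝ) ^ (δ / 8)⌋₊).filter (fun d =>
      c * (H * Real.log (Real.log H) ^ (Fintype.card ι * k) / Real.log H ^ (Fintype.card ι * (k + 1))) ≤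
        ((A.filter (fun n => ∀ i, n + WW (δ / 8) H * d * a i ∈ A)).card : ℝ))).card : ℝ) := by
  obtain ⟨c, hc, H₁, h1⟩ := polyP f hf k g hk η κ (δ / 8) hη hκ (by positivity) (by linarith)
  refine ⟨c, hc, max H₁ 1, ?_⟩
  intro Y H A hH hY hA hAr hAc a ha ha1 ha2
  have hH1 : (1 : ℝ) ≤ H := by exact_mod_cast le_trans (le_max_right _ _) hH
  have hH0 : (0 : ℝ) < H := by linarith
  obtain ⟨D, hDc, hD⟩ := h1 Y H A (le_trans (le_max_left _ _) hH) (by exact_mod_cast hY) hA hAr hAc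
    a ha ha1 (by
      intro l
      refine (ha2 l).trans ?_
      rw [← Real.rpow_natCast ((H : ℝ) ^ (δ / 8)), ← Real.rpow_mul hH0.le]
      nth_rewrite 2 [← Real.rpow_one (H : ℝ)]
      rw [← Real.rpow_sub hH0]
      apply Real.rpow_le_rpow_of_exponent_le (by linarith)
      push_cast
      linarith)
  refine hDc.trans ?_
  have hsub : D ⊆ (Icc 1 ⌊(H : ℝ) ^ (δ / 8)⌋₊).filter (fun d =>
      c * (H * Real.log (Real.log H) ^ (Fintype.card ι * k) / Real.log H ^ (Fintype.card ι * (k + 1))) ≤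
        ((A.filter (fun p => ∀ i, p + WW (δ / 8) H * d * a i ∈ A)).card : ℝ)) := by
    intro d hd
    obtain ⟨e1, e2, e3⟩ := hD d hd
    rw [mem_filter, mem_Icc]
    refine ⟨⟨e1, Nat.le_floor e2⟩, ?_⟩
    refine e3.trans ?_
    have e4 : solN A (WW (δ / 8) H) a d ⊆ A.filter (fun p => ∀ i, p + WW (δ / 8) H * d * a i ∈ A) := by
      intro n hn
      unfold solN at hn
      rw [mem_filter] at hn ⊢
      refine ⟨hn.1, fun i => ?_⟩
      have := hn.2 i
      rwa [mul_right_comm] at this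
    exact_mod_cast card_le_card e4
  exact_mod_cast card_le_card hsub

/-- the polynomials `6 X + 1`, `6 X - 1` -/
noncomputable def fM (s : Bool) : ℤ[X] := C 6 * X + C (if s then 1 else -1)

theorem fM_eval (s : Bool) (n : ℤ) : (fM s).eval n = 6 * n + (if s then 1 else -1) := by
  unfold fM
  rw [eval_add, eval_mul, eval_C, eval_X, eval_C]

theorem sysM : Poly.Sys fM where
  irr := fun s => by
    unfold fM
    apply irreducible_C_mul_X_add_C (by norm_num)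
    apply IsUnit.isRelPrime_right
    cases s <;> simp
  deg := fun s => by
    unfold fM
    rw [natDegree_linear (by norm_num)]
    exact one_pos
  lead := fun s => by
    unfold fM
    rw [leadingCoeff_linear (by norm_num)]
    norm_num
  inj := fun s t h => by
    have h1 := congrArg (fun P : ℤ[X] => P.eval 0) h
    simp only [fM_eval] at h1
    cases s <;> cases t <;> simp at h1 ⊢
  adm := fun p hp => ⟨0, fun s hd => by
    rw [fM_eval] at hd
    have h1 : (p : ℤ) ∣ 1 := by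
      cases s
      · simpa using hd
      · simpa using hd
    have := Int.le_of_dvd one_pos h1
    have h2 : (2 : ℤ) ≤ p := by exact_mod_cast hp.two_le
    omega⟩

open Classical in
/-- **Every shape in relatively dense sets of `m` with rough `6 m - 1`, `6 m + 1`.** -/
theorem missA (k g : ℕ) (δ η κ : ℝ) (hk : 1 ≤ k) (hδ : 0 < δ) (hδ1 : δ ≤ 1) (hη : 0 < η) (hκ : 0 < κ) :
    ∃ c : ℝ, 0 < c ∧ ∃ H₀ : ℕ, ∀ (Y H : ℕ) (A : Finset ℕ), H₀ ≤ H → Y ≤ H ^ g → A ⊆ Ioc Y (Y + H) →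
    (∀ m ∈ A, ∀ p : ℕ, p.Prime → (p : ℝ) ≤ (H : ℝ) ^ η → ¬ p ∣ 6 * m - 1 ∧ ¬ p ∣ 6 * m + 1) →
    κ * (H / Real.log H ^ 2) ≤ A.card →
    ∀ a : Fin k → ℕ, Function.Injective a → (∀ i, 1 ≤ a i) → (∀ i, (a i : ℝ) ≤ (H : ℝ) ^ (1 - δ)) →
    c * (H : ℝ) ^ (δ / 8) ≤ (((Icc 1 ⌊(H : ℝ) ^ (δ / 8)⌋₊).filter (fun d =>
      c * (H * Real.log (Real.log H) ^ (2 * k) / Real.log H ^ (2 * (k + 1))) ≤
        ((A.filter (fun n => ∀ i, n + WW (δ / 8) H * d * a i ∈ A)).card : ℝ))).card : ℝ) := by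
  obtain ⟨c, hc, H₀, h⟩ := polyQ fM sysM k g δ η κ hk hδ hδ1 hη hκ
  refine ⟨c, hc, H₀, fun Y H A hH hY hA hAr hAc a ha ha1 ha2 => ?_⟩
  refine h Y H A hH hY hA ?_ hAc a ha ha1 ha2
  intro m hm s p hp hpH hd
  obtain ⟨h1, h2⟩ := hAr m hm p hp hpH
  rw [fM_eval] at hd
  have hm1 : 1 ≤ m := by
    have := mem_Ioc.1 (hA hm)
    omega
  cases s
  · apply h1
    have : ((6 * m - 1 : ℕ) : ℤ) = 6 * (m : ℤ) + (if false = true then 1 else -1) := by
      simp
      omega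
    rw [← this] at hd
    exact_mod_cast hd
  · apply h2
    have : ((6 * m + 1 : ℕ) : ℤ) = 6 * (m : ℤ) + (if true = true then 1 else -1) := by
      simp
    rw [← this] at hd
    exact_mod_cast hd

end Pool.Agent.H534.UT
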