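import Pool.Agent.H534.UT.Poly
import Pool.Graph.R_seed8.H387R2.U2

/-!
# Uniform constellations in the primes
-/

set_option autoImplicit false

open Finset Filter Polynomial

namespace Pool.Agent.H534.UT

open Pool.Agent.H534.RS
open Pool.Agent.Y677.RSZ
open Pool.Agent.W123.RP Pool.Agent.H373R2.T7 Pool.Agent.W123.RU Pool.Agent.W123.RU.Poly
open Pool.Agent.TH423.SH (PS)

/-- the polynomial `X` is a system -/
theorem sysX : Poly.Sys (fun _ : Unit => (X : ℤ[X])) where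
  irr := fun _ => irreducible_X
  deg := fun _ => by rw [natDegree_X]; exact one_pos
  lead := fun _ => by rw [leadingCoeff_X]; exact one_pos
  inj := fun _ _ _ => rfl
  adm := fun p hp => ⟨1, fun _ h => by
    rw [eval_X, Nat.cast_one] at h
    have := Int.le_of_dvd one_pos h
    have h2 : (2 : ℤ) ≤ p := by exact_mod_cast hp.two_le
    omega⟩

/-- numerical facts for the primes -/
theorem num2 (κ : ℝ) (hκ : 0 < κ) : ∃ H₀ : ℕ, ∀ H : ℕ, H₀ ≤ H → 16 ≤ H ∧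
    (H : ℝ) ^ (1 / 2 : ℝ) + 1 ≤ κ / 2 * (H / Real.log H) := by
  have hNr : Tendsto (fun H : ℕ => (H : ℝ)) atTop atTop := tendsto_natCast_atTop_atTop
  have h1 : Tendsto (fun H : ℕ => Real.log (H : ℝ) / (H : ℝ) ^ (1 / 2 : ℝ)) atTop (nhds 0) :=
    (isLittleO_log_rpow_atTop (by norm_num : (0 : ℝ) < 1 / 2)).tendsto_div_nhds_zero.comp hNr
  have h2 : ∀ᶠ H : ℕ in atTop, Real.log (H : ℝ) / (H : ℝ) ^ (1 / 2 : ℝ) ≤ κ / 4 :=
    h1.eventually (ge_mem_nhds (by positivity))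
  obtain ⟨H₀, hH₀⟩ := eventually_atTop.1 ((eventually_ge_atTop 16).and h2)
  refine ⟨H₀, fun H hH => ?_⟩
  obtain ⟨a1, a2⟩ := hH₀ H hH
  have hHr : (16 : ℝ) ≤ H := by exact_mod_cast a1
  have hH0 : (0 : ℝ) < H := by linarith
  have hlogp : 0 < Real.log (H : ℝ) := Real.log_pos (by linarith)
  have hs : (H : ℝ) ^ (1 / 2 : ℝ) * (H : ℝ) ^ (1 / 2 : ℝ) = H := by
    rw [← Real.rpow_add hH0]; norm_num
  have hs0 : 0 < (H : ℝ) ^ (1 / 2 : ℝ) := by positivity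
  have hs1 : 1 ≤ (H : ℝ) ^ (1 / 2 : ℝ) := Real.one_le_rpow (by linarith) (by norm_num)
  refine ⟨a1, ?_⟩
  rw [div_le_iff₀ hs0] at a2
  rw [← mul_div_assoc, le_div_iff₀ hlogp]
  calc ((H : ℝ) ^ (1 / 2 : ℝ) + 1) * Real.log H ≤ (2 * (H : ℝ) ^ (1 / 2 : ℝ)) * (κ / 4 * (H : ℝ) ^ (1 / 2 : ℝ)) := by
        gcongr
        linarith
    _ = κ / 2 * ((H : ℝ) ^ (1 / 2 : ℝ) * (H : ℝ) ^ (1 / 2 : ℝ)) := by ring
    _ = _ := by rw [hs]

open Classical in
/-- **Every shape of polynomial size in relatively dense sets of primes.** -/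
theorem primA (k g : ℕ) (δ κ : ℝ) (hk : 1 ≤ k) (hδ : 0 < δ) (hδ1 : δ ≤ 1) (hκ : 0 < κ) :
    ∃ c : ℝ, 0 < c ∧ ∃ H₀ : ℕ, ∀ (Y H : ℕ) (A : Finset ℕ), H₀ ≤ H → Y ≤ H ^ g → A ⊆ Ioc Y (Y + H) →
    (∀ p ∈ A, p.Prime) → κ * (H / Real.log H) ≤ A.card →
    ∀ a : Fin k → ℕ, Function.Injective a → (∀ i, 1 ≤ a i) → (∀ i, (a i : ℝ) ≤ (H : ℝ) ^ (1 - δ)) →
    c * (H : ℝ) ^ (δ / 8) ≤ (((Icc 1 ⌊(H : ℝ) ^ (δ / 8)⌋₊).filter (fun d =>
      c * (H * Real.log (Real.log H) ^ k / Real.log H ^ (k + 1)) ≤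
        ((A.filter (fun p => ∀ i, p + WW (δ / 8) H * d * a i ∈ A)).card : ℝ))).card : ℝ) := by
  obtain ⟨c, hc, H₁, h1⟩ := polyP (fun _ : Unit => (X : ℤ[X])) sysX k g hk (1 / 2) (κ / 2) (δ / 8)
    (by norm_num) (by positivity) (by positivity) (by linarith)
  obtain ⟨H₂, h2⟩ := num2 κ hκ
  refine ⟨c, hc, max H₁ H₂, ?_⟩
  intro Y H A hH hY hA hAp hAc a ha ha1 ha2
  obtain ⟨n1, n2⟩ := h2 H (le_trans (le_max_right _ _) hH)
  have hH16 : (16 : ℝ) ≤ H := by exact_mod_cast n1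
  have hH0 : (0 : ℝ) < H := by linarith
  obtain ⟨A', hA'⟩ : ∃ A' : Finset ℕ, A' = A.filter (fun p : ℕ => (H : ℝ) ^ (1 / 2 : ℝ) < (p : ℝ)) := ⟨_, rfl⟩
  have hA'A : A' ⊆ A := by rw [hA']; exact filter_subset _ _
  have hA'c : (A.card : ℝ) - ((H : ℝ) ^ (1 / 2 : ℝ) + 1) ≤ A'.card := by
    have e1 : A ⊆ A' ∪ range (⌊(H : ℝ) ^ (1 / 2 : ℝ)⌋₊ + 1) := by
      intro n hn
      rw [mem_union]
      by_cases h : (H : ℝ) ^ (1 / 2 : ℝ) < n
      · left
        rw [hA', mem_filter]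
        exact ⟨hn, h⟩
      · right
        rw [mem_range]
        have := Nat.le_floor (not_lt.1 h)
        omega
    have e2 := (card_le_card e1).trans (card_union_le _ _)
    rw [card_range] at e2
    have e3 : (A.card : ℝ) ≤ A'.card + (⌊(H : ℝ) ^ (1 / 2 : ℝ)⌋₊ + 1) := by exact_mod_cast e2
    have e4 := Nat.floor_le (by positivity : 0 ≤ (H : ℝ) ^ (1 / 2 : ℝ))
    linarith
  obtain ⟨D, hDc, hD⟩ := h1 Y H A' (le_trans (le_max_left _ _) hH) (by exact_mod_cast hY) (hA'A.trans hA)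
    (by
      intro n hn _ p hp hpH hd
      rw [hA', mem_filter] at hn
      rw [eval_X] at hd
      have hd' : p ∣ n := by exact_mod_cast hd
      have := (Nat.prime_dvd_prime_iff_eq hp (hAp n hn.1)).1 hd'
      rw [this] at hpH
      linarith [hn.2])
    (by
      rw [Fintype.card_unit, pow_one]
      linarith)
    a ha ha1 (by
      intro l
      refine (ha2 l).trans ?_
      rw [← Real.rpow_natCast ((H : ℝ) ^ (δ / 8)), ← Real.rpow_mul hH0.le]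
      nth_rewrite 2 [← Real.rpow_one (H : ℝ)]
      rw [← Real.rpow_sub hH0]
      apply Real.rpow_le_rpow_of_exponent_le (by linarith)
      push_cast
      linarith)
  refine hDc.trans ?_
  have hsub : D ⊆ (Icc 1 ⌊(H : ℝ) ^ (δ / 8)⌋₊).filter (fun d =>
      c * (H * Real.log (Real.log H) ^ k / Real.log H ^ (k + 1)) ≤
        ((A.filter (fun p => ∀ i, p + WW (δ / 8) H * d * a i ∈ A)).card : ℝ)) := by
    intro d hd
    obtain ⟨e1, e2, e3⟩ := hD d hd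
    rw [mem_filter, mem_Icc]
    refine ⟨⟨e1, Nat.le_floor e2⟩, ?_⟩
    rw [Fintype.card_unit, one_mul, one_mul] at e3
    refine e3.trans ?_
    have e4 : solN A' (WW (δ / 8) H) a d ⊆ A.filter (fun p => ∀ i, p + WW (δ / 8) H * d * a i ∈ A) := by
      intro n hn
      unfold solN at hn
      rw [mem_filter] at hn ⊢
      refine ⟨hA'A hn.1, fun i => ?_⟩
      have := hA'A (hn.2 i)
      rwa [mul_right_comm] at this
    exact_mod_cast card_le_card e4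
  exact_mod_cast card_le_card hsub

end Pool.Agent.H534.UT
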