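import Pool.Agent.H534.UT.Prim

/-!
# Uniform constellations in the primes: the predicted order, and sets of growing size
-/

set_option autoImplicit false

open Finset Filter Polynomial

namespace Pool.Agent.H534.UT

open Pool.Agent.H534.RS
open Pool.Agent.Y677.RSZ
open Pool.Agent.H387R2.Uni (CT CT_en CT_hasProd nuT locT en en_inj nu_en CT_le tt_le gT)

/-- Mertens' upper bound for the modulus -/
theorem mert : ∃ C : ℝ, 0 < C ∧ ∀ y : ℕ, 3 ≤ y →
    (Pool.Agent.H387R2.Uni.WW y : ℝ) / Nat.totient (Pool.Agent.H387R2.Uni.WW y) ≤ C * Real.log y := by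
  obtain ⟨v, Cv, hv, hCv, hV⟩ := Pool.Agent.W123.RU.Poly.V_bounds (fun _ : Unit => (X : ℤ[X])) sysX
  refine ⟨1 / v, by positivity, fun y hy => ?_⟩
  have h1 := (hV y hy).1
  rw [← V_eq, Fintype.card_unit, pow_one] at h1
  have hy1 : (1 : ℝ) < y := by
    have : (3 : ℝ) ≤ y := by exact_mod_cast hy
    linarith
  have hlog : 0 < Real.log y := Real.log_pos hy1
  have hW := Pool.Agent.H387R2.Uni.WW_pos y
  have hW' : (0 : ℝ) < Pool.Agent.H387R2.Uni.WW y := by exact_mod_cast hW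
  have hφ : (0 : ℝ) < Nat.totient (Pool.Agent.H387R2.Uni.WW y) := by
    exact_mod_cast Nat.totient_pos.2 hW
  have h2 : V (fun n => (∏ _i : Unit, (X : ℤ[X])).eval n) 1 y =
      ∏ p ∈ (y + 1).primesBelow, (1 - 1 / (p : ℝ)) := by
    unfold V
    have e : Pool.Agent.TH423.SH.PS 1 y = (y + 1).primesBelow := by
      unfold Pool.Agent.TH423.SH.PS Nat.primesBelow
      ext p
      rw [mem_filter, mem_filter, mem_Icc, mem_range]
      constructor
      · exact fun h => ⟨by omega, h.2.1⟩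
      · exact fun h => ⟨⟨h.2.pos, by omega⟩, h.2, fun h1 => h.2.one_lt.ne' (Nat.dvd_one.1 h1)⟩
    rw [e]
    apply prod_congr rfl
    intro p hp
    have hpp := Nat.prime_of_mem_primesBelow hp
    have e2 : rt (fun n => (∏ _i : Unit, (X : ℤ[X])).eval n) p = 1 := by
      unfold rt
      rw [card_eq_one]
      refine ⟨0, ?_⟩
      ext r
      rw [mem_filter, mem_range, mem_singleton]
      simp only [univ_unique, prod_const, card_singleton, pow_one, eval_X]
      constructor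
      · rintro ⟨h3, h4⟩
        have h5 : p ∣ r := by exact_mod_cast h4
        exact Nat.eq_zero_of_dvd_of_lt h5 h3
      · rintro rfl
        exact ⟨hpp.pos, by simp⟩
    rw [e2, Nat.cast_one]
  rw [h2] at h1
  have h3 := Pool.Agent.H387R2.Uni.totient_WW y
  rw [div_le_iff₀ hφ, h3]
  calc (Pool.Agent.H387R2.Uni.WW y : ℝ) = 1 / v * Real.log y * (Pool.Agent.H387R2.Uni.WW y * (v / Real.log y)) := by
        field_simp
    _ ≤ _ := by gcongr

/-- the pattern `0, D a_1, ..., D a_k` -/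
def patt {k : ℕ} (D : ℕ) (a : Fin k → ℕ) : Finset ℕ := insert 0 (univ.image (fun i => D * a i))

theorem patt_card {k : ℕ} (D : ℕ) (a : Fin k → ℕ) (hD : 1 ≤ D) (ha : Function.Injective a) (ha1 : ∀ i, 1 ≤ a i) :
    (patt D a).card = k + 1 := by
  unfold patt
  rw [card_insert_of_notMem, card_image_of_injective, card_univ, Fintype.card_fin]
  · intro i j h
    exact ha (Nat.eq_of_mul_eq_mul_left hD h)
  · intro h
    rw [mem_image] at h
    obtain ⟨i, -, hi⟩ := h
    have := Nat.mul_pos hD (ha1 i)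
    omega

/-- numerical facts -/
theorem num3 (ε : ℝ) (hε : 0 < ε) (hε1 : ε ≤ 1) (k : ℕ) : ∃ H₀ : ℕ, ∀ H : ℕ, H₀ ≤ H →
    16 ≤ H ∧ 1 ≤ Real.log H ∧ 1 ≤ Real.log (Real.log H) ∧ 3 ≤ ⌊ε * Real.log H⌋₊ ∧ k + 1 ≤ ⌊ε * Real.log H⌋₊ ∧
    ε / 2 * Real.log H ≤ ⌊ε * Real.log H⌋₊ ∧ Real.log ⌊ε * Real.log H⌋₊ ≤ Real.log (Real.log H) ∧
    1 / 2 * (H / Real.log H) ≤ Nat.primeCounting H := by
  have hNr : Tendsto (fun H : ℕ => (H : ℝ)) atTop atTop := tendsto_natCast_atTop_atTop
  have hl : Tendsto (fun H : ℕ => Real.log (H : ℝ)) atTop atTop := Real.tendsto_log_atTop.comp hNr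
  have hll : Tendsto (fun H : ℕ => Real.log (Real.log (H : ℝ))) atTop atTop := Real.tendsto_log_atTop.comp hl
  have hεl : Tendsto (fun H : ℕ => ε * Real.log (H : ℝ)) atTop atTop := hl.const_mul_atTop hε
  have hlog1 : Tendsto (fun H : ℕ => Real.log (H : ℝ) ^ 1 / (H : ℝ)) atTop (nhds 0) := by
    have h := (Real.isLittleO_pow_log_id_atTop (n := 1)).tendsto_div_nhds_zero.comp hNr
    exact h
  have h2 : ∀ᶠ H : ℕ in atTop, Real.log (H : ℝ) ^ 1 / (H : ℝ) ≤ 1 / 100 :=
    (hlog1.eventually (ge_mem_nhds (by positivity)))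
  obtain ⟨H₀, hH₀⟩ := eventually_atTop.1 (((eventually_ge_atTop 100)).and
    ((hll.eventually_ge_atTop 1).and ((hεl.eventually_ge_atTop (k + 4)).and (h2.and (hl.eventually_ge_atTop 1)))))
  refine ⟨H₀, fun H hH => ?_⟩
  obtain ⟨a1, a2, a3, a5, a6⟩ := hH₀ H hH
  have hHr : (100 : ℝ) ≤ H := by exact_mod_cast a1
  have hk0 : (0 : ℝ) ≤ k := Nat.cast_nonneg _
  have hH0 : (0 : ℝ) < H := by linarith
  have hfl : ε * Real.log H < ⌊ε * Real.log H⌋₊ + 1 := Nat.lt_floor_add_one _
  have hfl2 : (⌊ε * Real.log H⌋₊ : ℝ) ≤ ε * Real.log H := Nat.floor_le (by positivity)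
  refine ⟨by omega, a6, a2, Nat.le_floor (by push_cast; linarith), Nat.le_floor (by push_cast; linarith), by linarith,
    ?_, ?_⟩
  · apply Real.log_le_log
    · linarith
    · nlinarith
  · have hpi := Chebyshev.pi_ge H
    refine le_trans ?_ hpi
    rw [← mul_div_assoc]
    apply div_le_div_of_nonneg_right _ (by linarith)
    have hl2 : 0.6931471803 < Real.log 2 := Real.log_two_gt_d9
    have e1 : Real.log ((H : ℝ) + 1) ≤ Real.log H + 1 := by
      have : Real.log ((H : ℝ) + 1) ≤ Real.log (H * Real.exp 1) := by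
        apply Real.log_le_log (by linarith)
        have := Real.add_one_le_exp (1 : ℝ)
        nlinarith
      rwa [Real.log_mul hH0.ne' (Real.exp_pos 1).ne', Real.log_exp] at this
    rw [pow_one, div_le_iff₀ hH0] at a5
    nlinarith

/-- the upper bound of the singular series -/
theorem CT_up (k : ℕ) (δ : ℝ) (hδ : 0 < δ) (hδ1 : δ ≤ 1) : ∃ C : ℝ, 0 < C ∧ ∃ H₀ : ℕ,
    ∀ H : ℕ, H₀ ≤ H → ∀ a : Fin k → ℕ, Function.Injective a → (∀ i, 1 ≤ a i) →
    (∀ i, (a i : ℝ) ≤ (H : ℝ) ^ (1 - δ)) → ∀ d : ℕ, 1 ≤ d → (d : ℝ) ≤ (H : ℝ) ^ (δ / 8) →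
    0 < CT (patt (WW (δ / 8) H * d) a) ∧ CT (patt (WW (δ / 8) H * d) a) ≤ C * Real.log (Real.log H) ^ k := by
  obtain ⟨C₁, hC₁, hm⟩ := mert
  obtain ⟨H₁, h1⟩ := num3 (δ / 8) (by positivity) (by linarith) k
  obtain ⟨K, hKd⟩ : ∃ K : ℝ, K = Real.exp (4 / (δ / 8)) := ⟨_, rfl⟩
  have hK1 : 1 ≤ K := by rw [hKd]; exact Real.one_le_exp (by positivity)
  refine ⟨K ^ ((k + 1) * (k + 1)) * C₁ ^ k, by positivity, H₁, ?_⟩
  intro H hH a ha ha1 ha2 d hd1 hd2
  obtain ⟨n1, n2, n3, n4, n5, n6, n7, n8⟩ := h1 H hH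
  have hH16 : (16 : ℝ) ≤ H := by exact_mod_cast n1
  have hH0 : (0 : ℝ) < H := by linarith
  obtain ⟨y, hy⟩ : ∃ y, y = ⌊δ / 8 * Real.log H⌋₊ := ⟨_, rfl⟩
  rw [← hy] at n4 n5 n6 n7
  have hW0 := WW_pos (δ / 8) H
  have hWd : 1 ≤ WW (δ / 8) H * d := Nat.mul_pos hW0 hd1
  have hcard := patt_card (WW (δ / 8) H * d) a hWd ha ha1
  set T := patt (WW (δ / 8) H * d) a with hT
  have hdvd : ∀ t ∈ T, WW (δ / 8) H ∣ t := by
    intro t ht
    rw [hT] at ht
    unfold patt at ht
    rw [mem_insert, mem_image] at ht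
    rcases ht with rfl | ⟨i, -, rfl⟩
    · exact dvd_zero _
    · exact Dvd.intro _ (by ring : WW (δ / 8) H * (d * a i) = WW (δ / 8) H * d * a i)
  have h0T : (0 : ℕ) ∈ T := by
    rw [hT]
    unfold patt
    exact mem_insert_self _ _
  constructor
  · rw [← CT_en]
    apply Pool.Agent.H386R2.HL.singularSeries_pos (en_inj T)
    intro p hp
    rw [nu_en]
    unfold nuT
    by_cases hpy : p ≤ y
    · have hpW : p ∣ WW (δ / 8) H := by
        unfold WW
        rw [← hy]
        exact hp.dvd_primorial_iff.2 hpy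
      have e1 : T.image (· % p) ⊆ {0} := by
        intro v hv
        rw [mem_image] at hv
        obtain ⟨t, ht, rfl⟩ := hv
        rw [mem_singleton]
        exact Nat.mod_eq_zero_of_dvd (hpW.trans (hdvd t ht))
      have e2 := card_le_card e1
      rw [card_singleton] at e2
      exact lt_of_le_of_lt e2 hp.one_lt
    · have e1 : (T.image (· % p)).card ≤ k + 1 := card_image_le.trans hcard.le
      omega
  · have hM : ∀ t ∈ T, t ≤ H := by
      intro t ht
      rw [hT] at ht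
      unfold patt at ht
      rw [mem_insert, mem_image] at ht
      rcases ht with rfl | ⟨i, -, rfl⟩
      · exact Nat.zero_le _
      · have e1 := WW_le (δ / 8) (by positivity) H (by omega)
        have e2 : ((WW (δ / 8) H * d * a i : ℕ) : ℝ) ≤ H := by
          push_cast
          calc (WW (δ / 8) H : ℝ) * d * a i ≤ ((H : ℝ) ^ (δ / 8)) ^ 2 * (H : ℝ) ^ (δ / 8) * (H : ℝ) ^ (1 - δ) := by
                gcongr
                exact ha2 i
            _ = (H : ℝ) ^ (δ / 8 * 3 + (1 - δ)) := by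
                rw [Real.rpow_add hH0, Real.rpow_mul hH0.le]
                norm_cast
            _ ≤ (H : ℝ) ^ (1 : ℝ) := Real.rpow_le_rpow_of_exponent_le (by linarith) (by linarith)
            _ = H := Real.rpow_one _
        exact_mod_cast e2
    have hy3 : (3 : ℝ) ≤ y := by exact_mod_cast n4
    have hly : 1 ≤ Real.log y := by
      rw [Real.le_log_iff_exp_le (by linarith)]
      have := Real.exp_one_lt_d9
      linarith
    have htt : ∀ n : ℕ, 1 ≤ n → n ≤ H → Pool.Agent.H386R2.HL.tt y n ≤ K := by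
      intro n hn1 hn2
      refine (tt_le y n (by omega) hn1).trans ?_
      rw [hKd]
      apply Real.exp_le_exp.2
      have hn : Real.log n ≤ Real.log H := Real.log_le_log (by exact_mod_cast hn1) (by exact_mod_cast hn2)
      have hn0 : 0 ≤ Real.log n := Real.log_natCast_nonneg n
      rw [div_le_div_iff₀ (by positivity) (by positivity)]
      calc 2 * Real.log n * (δ / 8) ≤ 2 * Real.log H * (δ / 8) := by gcongr
        _ = 4 * (δ / 8 / 2 * Real.log H) := by ring
        _ ≤ 4 * (y * 1) := by linarith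
        _ ≤ 4 * (y * Real.log y) := by gcongr
    have h2 := CT_le T y hK1 hM htt
    refine h2.trans ?_
    rw [hcard]
    have hWW := Pool.Agent.H387R2.Uni.WW_pos y
    have hWW' : (0 : ℝ) < Pool.Agent.H387R2.Uni.WW y := by exact_mod_cast hWW
    have hφ : (0 : ℝ) < Nat.totient (Pool.Agent.H387R2.Uni.WW y) := by exact_mod_cast Nat.totient_pos.2 hWW
    have hg : (gT (Pool.Agent.H387R2.Uni.WW y) T : ℝ) ≤ Nat.totient (Pool.Agent.H387R2.Uni.WW y) := by
      have : gT (Pool.Agent.H387R2.Uni.WW y) T ≤ Nat.totient (Pool.Agent.H387R2.Uni.WW y) := by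
        rw [Nat.totient_eq_card_coprime]
        unfold gT
        apply card_le_card
        intro m hm
        rw [mem_filter] at hm ⊢
        exact ⟨hm.1, by simpa using hm.2 0 h0T⟩
      exact_mod_cast this
    have h3 := hm y n4
    set w := (Pool.Agent.H387R2.Uni.WW y : ℝ) / Nat.totient (Pool.Agent.H387R2.Uni.WW y) with hw
    have hw0 : 0 < w := by rw [hw]; positivity
    have h4 : w ^ (k + 1) * ((gT (Pool.Agent.H387R2.Uni.WW y) T : ℝ) / Pool.Agent.H387R2.Uni.WW y) ≤ w ^ k := by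
      calc w ^ (k + 1) * ((gT (Pool.Agent.H387R2.Uni.WW y) T : ℝ) / Pool.Agent.H387R2.Uni.WW y) ≤
            w ^ (k + 1) * ((Nat.totient (Pool.Agent.H387R2.Uni.WW y) : ℝ) / Pool.Agent.H387R2.Uni.WW y) := by gcongr
        _ = w ^ k * (w * ((Nat.totient (Pool.Agent.H387R2.Uni.WW y) : ℝ) / Pool.Agent.H387R2.Uni.WW y)) := by ring
        _ = w ^ k * 1 := by
            congr 1
            rw [hw]
            field_simp
        _ = w ^ k := mul_one _
    calc K ^ ((k + 1) * (k + 1)) * (w ^ (k + 1) * ((gT (Pool.Agent.H387R2.Uni.WW y) T : ℝ) / Pool.Agent.H387R2.Uni.WW y)) ≤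
          K ^ ((k + 1) * (k + 1)) * w ^ k := by gcongr
      _ ≤ K ^ ((k + 1) * (k + 1)) * (C₁ * Real.log (Real.log H)) ^ k := by
          gcongr
          exact h3.trans (by gcongr)
      _ = _ := by rw [mul_pow]; ring

end Pool.Agent.H534.UT
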