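import Pool.Agent.H534.UT.PrimB

/-!
# Uniform constellations in the primes: the main statements
-/

set_option autoImplicit false

open Finset Filter Polynomial

namespace Pool.Agent.H534.UT

open Pool.Agent.H534.RS
open Pool.Agent.H387R2.Uni (CT CT_en CT_hasProd nuT locT en en_inj nu_en CT_le tt_le gT)

/-- the number of `1 ≤ n ≤ x` for which all `n + t`, `t ∈ T`, are prime -/
def cnt (x : ℕ) (T : Finset ℕ) : ℕ := ((Icc 1 x).filter (fun n => ∀ t ∈ T, (n + t).Prime)).card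

/-- the primes up to `x` -/
def prs (x : ℕ) : Finset ℕ := (Ioc 0 x).filter Nat.Prime

theorem prs_card (x : ℕ) : (prs x).card = Nat.primeCounting x := by
  unfold prs
  rw [Nat.primeCounting, Nat.primeCounting', Nat.count_eq_card_filter_range]
  congr 1
  ext p
  simp only [mem_filter, mem_Ioc, mem_range]
  constructor
  · exact fun h => ⟨by omega, h.2⟩
  · exact fun h => ⟨⟨h.2.pos, by omega⟩, h.2⟩

theorem cnt_ge {k : ℕ} (x D : ℕ) (a : Fin k → ℕ) :
    ((prs x).filter (fun p => ∀ i, p + D * a i ∈ prs x)).card ≤ cnt x (patt D a) := by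
  unfold cnt
  apply card_le_card
  intro p hp
  rw [mem_filter] at hp ⊢
  have h1 := hp.1
  unfold prs at h1
  rw [mem_filter, mem_Ioc] at h1
  refine ⟨mem_Icc.2 ⟨h1.1.1, h1.1.2⟩, fun t ht => ?_⟩
  unfold patt at ht
  rw [mem_insert, mem_image] at ht
  rcases ht with rfl | ⟨i, -, rfl⟩
  · exact h1.2
  · have h2 := hp.2 i
    unfold prs at h2
    rw [mem_filter] at h2
    exact h2.2

open Classical in
/-- **The predicted order for a positive proportion of the dilates of every shape.** -/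
theorem primB (k : ℕ) (δ : ℝ) (hk : 1 ≤ k) (hδ : 0 < δ) (hδ1 : δ ≤ 1) :
    ∃ c : ℝ, 0 < c ∧ ∃ x₀ : ℕ, ∀ x : ℕ, x₀ ≤ x →
    ∀ a : Fin k → ℕ, Function.Injective a → (∀ i, 1 ≤ a i) → (∀ i, (a i : ℝ) ≤ (x : ℝ) ^ (1 - δ)) →
    c * (x : ℝ) ^ (δ / 8) ≤ (((Icc 1 ⌊(x : ℝ) ^ (δ / 8)⌋₊).filter (fun d =>
      0 < CT (patt (WW (δ / 8) x * d) a) ∧
      c * (x * Real.log (Real.log x) ^ k / Real.log x ^ (k + 1)) ≤ cnt x (patt (WW (δ / 8) x * d) a) ∧
      c * (CT (patt (WW (δ / 8) x * d) a) * (x / Real.log x ^ (k + 1))) ≤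
        cnt x (patt (WW (δ / 8) x * d) a))).card : ℝ) := by
  obtain ⟨c, hc, H₁, h1⟩ := primA k 1 δ (1 / 2) hk hδ hδ1 (by norm_num)
  obtain ⟨H₂, h2⟩ := num3 (δ / 8) (by positivity) (by linarith) k
  obtain ⟨C, hC, H₃, h3⟩ := CT_up k δ hδ hδ1
  refine ⟨min c (c / C), lt_min hc (by positivity), max H₁ (max H₂ H₃), ?_⟩
  intro x hx a ha ha1 ha2
  obtain ⟨n1, n2, n3, -, -, -, -, n8⟩ := h2 x (le_trans ((le_max_left _ _).trans (le_max_right _ _)) hx)
  have hx16 : (16 : ℝ) ≤ x := by exact_mod_cast n1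
  have hx0 : (0 : ℝ) < x := by linarith
  have h4 := h1 0 x (prs x) (le_trans (le_max_left _ _) hx) (Nat.zero_le _) (by
      unfold prs
      rw [zero_add]
      exact filter_subset _ _)
    (by
      intro p hp
      unfold prs at hp
      exact (mem_filter.1 hp).2)
    (by rw [prs_card]; exact n8) a ha ha1 ha2
  refine le_trans ?_ (h4.trans ?_)
  · gcongr
    exact min_le_left _ _
  · have hsub : ((Icc 1 ⌊(x : ℝ) ^ (δ / 8)⌋₊).filter (fun d =>
      c * (x * Real.log (Real.log x) ^ k / Real.log x ^ (k + 1)) ≤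
        (((prs x).filter (fun p => ∀ i, p + WW (δ / 8) x * d * a i ∈ prs x)).card : ℝ))) ⊆
      (Icc 1 ⌊(x : ℝ) ^ (δ / 8)⌋₊).filter (fun d =>
      0 < CT (patt (WW (δ / 8) x * d) a) ∧
      min c (c / C) * (x * Real.log (Real.log x) ^ k / Real.log x ^ (k + 1)) ≤ cnt x (patt (WW (δ / 8) x * d) a) ∧
      min c (c / C) * (CT (patt (WW (δ / 8) x * d) a) * (x / Real.log x ^ (k + 1))) ≤
        cnt x (patt (WW (δ / 8) x * d) a)) := by
      intro d hd
      rw [mem_filter, mem_Icc] at hd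
      obtain ⟨⟨hd1, hd2⟩, hd3⟩ := hd
      have hd2' : (d : ℝ) ≤ (x : ℝ) ^ (δ / 8) := by
        have e1 : (d : ℝ) ≤ (⌊(x : ℝ) ^ (δ / 8)⌋₊ : ℝ) := by exact_mod_cast hd2
        exact e1.trans (Nat.floor_le (by positivity))
      obtain ⟨h5, h6⟩ := h3 x (le_trans ((le_max_right _ _).trans (le_max_right _ _)) hx) a ha ha1 ha2 d hd1 hd2'
      rw [mem_filter, mem_Icc]
      have h7 : c * (x * Real.log (Real.log x) ^ k / Real.log x ^ (k + 1)) ≤ cnt x (patt (WW (δ / 8) x * d) a) := by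
        refine hd3.trans ?_
        exact_mod_cast cnt_ge x (WW (δ / 8) x * d) a
      have hll : 0 < Real.log (Real.log x) := by linarith
      refine ⟨⟨hd1, hd2⟩, h5, le_trans ?_ h7, le_trans ?_ h7⟩
      · gcongr
        exact min_le_left _ _
      · calc min c (c / C) * (CT (patt (WW (δ / 8) x * d) a) * (x / Real.log x ^ (k + 1))) ≤
              c / C * ((C * Real.log (Real.log x) ^ k) * (x / Real.log x ^ (k + 1))) := by
                gcongr
                exact min_le_right _ _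
          _ = _ := by field_simp
    exact_mod_cast card_le_card hsub

/-- a slowly growing parameter -/
theorem slow (P : ℕ → ℕ → Prop) (h : ∀ k, ∀ᶠ x in atTop, P k x) :
    ∃ K : ℕ → ℕ, Tendsto K atTop atTop ∧ ∀ᶠ x in atTop, P (K x) x := by
  classical
  choose N hN using fun k => eventually_atTop.1 (h k)
  refine ⟨fun x => Nat.findGreatest (fun k => N k ≤ x) x, ?_, ?_⟩
  · rw [tendsto_atTop]
    intro m
    filter_upwards [eventually_ge_atTop (max m (N m))] with x hx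
    exact Nat.le_findGreatest ((le_max_left _ _).trans hx) ((le_max_right _ _).trans hx)
  · filter_upwards [eventually_ge_atTop (N 0)] with x hx
    apply hN
    exact Nat.findGreatest_spec (P := fun k => N k ≤ x) (Nat.zero_le x) hx

open Classical in
/-- every set of at most `k` shifts -/
theorem primCk (δ : ℝ) (hδ : 0 < δ) (hδ1 : δ ≤ 1) (k : ℕ) : ∀ᶠ x : ℕ in atTop, ∀ S : Finset ℕ, S.card ≤ k →
    (∀ s ∈ S, (s : ℝ) ≤ (x : ℝ) ^ (1 - δ)) →
    (x : ℝ) ^ (δ / 9) ≤ (((Icc 1 ⌊(x : ℝ) ^ δ⌋₊).filter (fun D =>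
      ∃ n, 1 ≤ n ∧ n ≤ x ∧ ∀ s ∈ S, (n + D * s).Prime)).card : ℝ) := by
  have h0 : ∀ j : ℕ, ∃ c : ℝ, 0 < c ∧ ∃ x₀ : ℕ, 1 ≤ j → ∀ x : ℕ, x₀ ≤ x →
    ∀ a : Fin j → ℕ, Function.Injective a → (∀ i, 1 ≤ a i) → (∀ i, (a i : ℝ) ≤ (x : ℝ) ^ (1 - δ)) →
    c * (x : ℝ) ^ (δ / 8) ≤ (((Icc 1 ⌊(x : ℝ) ^ (δ / 8)⌋₊).filter (fun d =>
      0 < CT (patt (WW (δ / 8) x * d) a) ∧
      c * (x * Real.log (Real.log x) ^ j / Real.log x ^ (j + 1)) ≤ cnt x (patt (WW (δ / 8) x * d) a) ∧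
      c * (CT (patt (WW (δ / 8) x * d) a) * (x / Real.log x ^ (j + 1))) ≤
        cnt x (patt (WW (δ / 8) x * d) a))).card : ℝ) := by
    intro j
    by_cases hj : 1 ≤ j
    · obtain ⟨c, hc, x₀, h⟩ := primB j δ hj hδ hδ1
      exact ⟨c, hc, x₀, fun _ => h⟩
    · exact ⟨1, one_pos, 0, fun h => absurd h hj⟩
  choose c hc x₀ hx₀ using h0
  obtain ⟨c', hc', hcc⟩ : ∃ c' : ℝ, 0 < c' ∧ ∀ j ≤ k + 1, c' ≤ c j := by
    have hne : (range (k + 2)).Nonempty := ⟨0, mem_range.2 (by omega)⟩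
    exact ⟨(range (k + 2)).inf' hne c, (lt_inf'_iff hne).2 fun j _ => hc j,
      fun j hj => inf'_le _ (mem_range.2 (by omega))⟩
  have hxr : Tendsto (fun x : ℕ => (x : ℝ)) atTop atTop := tendsto_natCast_atTop_atTop
  have hpow : Tendsto (fun x : ℕ => (x : ℝ) ^ (δ / 72)) atTop atTop :=
    (tendsto_rpow_atTop (by positivity)).comp hxr
  have hlx : Tendsto (fun H : ℕ => Real.log (H : ℝ)) atTop atTop := Real.tendsto_log_atTop.comp hxr
  have hll : Tendsto (fun H : ℕ => Real.log (Real.log (H : ℝ))) atTop atTop := Real.tendsto_log_atTop.comp hlx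
  filter_upwards [eventually_ge_atTop ((range (k + 2)).sup x₀), hpow.eventually_ge_atTop (1 / c'),
    eventually_ge_atTop 16, hll.eventually_ge_atTop 1, hlx.eventually_ge_atTop 1] with x h1 h2 h3 h6 h7 S hS hSx
  have hx1 : (1 : ℝ) ≤ x := by
    have : 1 ≤ x := by omega
    exact_mod_cast this
  have hx0 : (0 : ℝ) < x := by linarith
  obtain ⟨S', hS'⟩ : ∃ S' : Finset ℕ, S' = (insert 1 S).erase 0 := ⟨_, rfl⟩
  obtain ⟨j, hj⟩ : ∃ j, j = S'.card := ⟨_, rfl⟩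
  have hj1 : 1 ≤ j := by
    rw [hj, Nat.one_le_iff_ne_zero, Ne, card_eq_zero, hS']
    intro h
    have : 1 ∈ (insert 1 S).erase 0 := mem_erase.2 ⟨one_ne_zero, mem_insert_self _ _⟩
    rw [h] at this
    simp at this
  have hjk : j ≤ k + 1 := by
    rw [hj, hS']
    exact (card_le_card (erase_subset _ _)).trans ((card_insert_le _ _).trans (by omega))
  obtain ⟨a, haI, haS⟩ : ∃ a : Fin j → ℕ, Function.Injective a ∧ ∀ s, s ∈ S' ↔ ∃ i, a i = s := by
    refine ⟨fun i => S'.orderEmbOfFin hj.symm i, (S'.orderEmbOfFin hj.symm).injective, fun s => ?_⟩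
    have h4 : s ∈ Set.range (S'.orderEmbOfFin hj.symm) ↔ s ∈ S' := by
      rw [range_orderEmbOfFin]
      exact mem_coe
    exact h4.symm
  have ha1 : ∀ i, 1 ≤ a i := by
    intro i
    have h4 := (haS (a i)).2 ⟨i, rfl⟩
    rw [hS', mem_erase] at h4
    omega
  have ha2 : ∀ i, (a i : ℝ) ≤ (x : ℝ) ^ (1 - δ) := by
    intro i
    have h4 := (haS (a i)).2 ⟨i, rfl⟩
    rw [hS', mem_erase, mem_insert] at h4
    rcases h4.2 with h5 | h5
    · rw [h5, Nat.cast_one]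
      exact Real.one_le_rpow hx1 (by linarith)
    · exact hSx _ h5
  have h4 := hx₀ j hj1 x ((le_sup (f := x₀) (mem_range.2 (by omega))).trans h1) a haI ha1 ha2
  have hW0 := WW_pos (δ / 8) x
  have h5 : (x : ℝ) ^ (δ / 9) ≤ c j * (x : ℝ) ^ (δ / 8) := by
    have e1 : (x : ℝ) ^ (δ / 8) = (x : ℝ) ^ (δ / 9) * (x : ℝ) ^ (δ / 72) := by
      rw [← Real.rpow_add hx0]
      congr 1
      ring
    rw [e1]
    rw [div_le_iff₀ hc'] at h2
    have e2 : c' * (x : ℝ) ^ (δ / 72) ≤ c j * (x : ℝ) ^ (δ / 72) := by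
      gcongr
      exact hcc j hjk
    calc (x : ℝ) ^ (δ / 9) = (x : ℝ) ^ (δ / 9) * 1 := (mul_one _).symm
      _ ≤ (x : ℝ) ^ (δ / 9) * (c j * (x : ℝ) ^ (δ / 72)) := by gcongr; linarith
      _ = _ := by ring
  refine h5.trans (h4.trans ?_)
  have hinj : (((Icc 1 ⌊(x : ℝ) ^ (δ / 8)⌋₊).filter (fun d =>
      0 < CT (patt (WW (δ / 8) x * d) a) ∧
      c j * (x * Real.log (Real.log x) ^ j / Real.log x ^ (j + 1)) ≤ cnt x (patt (WW (δ / 8) x * d) a) ∧
      c j * (CT (patt (WW (δ / 8) x * d) a) * (x / Real.log x ^ (j + 1))) ≤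
        cnt x (patt (WW (δ / 8) x * d) a))).card) ≤ ((Icc 1 ⌊(x : ℝ) ^ δ⌋₊).filter (fun D =>
      ∃ n, 1 ≤ n ∧ n ≤ x ∧ ∀ s ∈ S, (n + D * s).Prime)).card := by
    apply card_le_card_of_injOn (fun d => WW (δ / 8) x * d)
    · intro d hd
      rw [mem_coe, mem_filter, mem_Icc] at hd
      obtain ⟨⟨hd1, hd2⟩, -, hd3, -⟩ := hd
      rw [mem_coe, mem_filter, mem_Icc]
      have hd2' : (d : ℝ) ≤ (x : ℝ) ^ (δ / 8) := by
        have e1 : (d : ℝ) ≤ (⌊(x : ℝ) ^ (δ / 8)⌋₊ : ℝ) := by exact_mod_cast hd2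
        exact e1.trans (Nat.floor_le (by positivity))
      refine ⟨⟨Nat.mul_pos hW0 hd1, Nat.le_floor ?_⟩, ?_⟩
      · have e1 := WW_le (δ / 8) (by positivity) x (by omega)
        push_cast
        calc (WW (δ / 8) x : ℝ) * d ≤ ((x : ℝ) ^ (δ / 8)) ^ 2 * (x : ℝ) ^ (δ / 8) := by gcongr
          _ = (x : ℝ) ^ (δ / 8 * 3) := by
              rw [Real.rpow_mul hx0.le]
              norm_cast
          _ ≤ (x : ℝ) ^ δ := Real.rpow_le_rpow_of_exponent_le hx1 (by linarith)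
      · have h8 : 0 < cnt x (patt (WW (δ / 8) x * d) a) := by
          have : (0 : ℝ) < cnt x (patt (WW (δ / 8) x * d) a) := lt_of_lt_of_le (by
            have := hc j
            have h9 : 0 < Real.log (Real.log x) := by linarith
            have h10 : 0 < Real.log x := by linarith
            positivity) hd3
          exact_mod_cast this
        unfold cnt at h8
        rw [card_pos] at h8
        obtain ⟨n, hn⟩ := h8
        rw [mem_filter, mem_Icc] at hn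
        refine ⟨n, hn.1.1, hn.1.2, fun s hs => ?_⟩
        apply hn.2
        unfold patt
        rw [mem_insert, mem_image]
        by_cases hs0 : s = 0
        · left; rw [hs0, mul_zero]
        · right
          obtain ⟨i, hi⟩ := (haS s).1 (by
            rw [hS', mem_erase]
            exact ⟨hs0, mem_insert_of_mem hs⟩)
          exact ⟨i, mem_univ _, by rw [hi]⟩
    · intro d _ d' _ h
      exact Nat.eq_of_mul_eq_mul_left hW0 h
  exact_mod_cast hinj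

open Classical in
/-- **Sets of a slowly growing number of shifts.** -/
theorem primC (δ : ℝ) (hδ : 0 < δ) (hδ1 : δ ≤ 1) : ∃ K : ℕ → ℕ, Tendsto K atTop atTop ∧
    ∀ᶠ x : ℕ in atTop, ∀ S : Finset ℕ, S.card ≤ K x → (∀ s ∈ S, (s : ℝ) ≤ (x : ℝ) ^ (1 - δ)) →
    (x : ℝ) ^ (δ / 9) ≤ (((Icc 1 ⌊(x : ℝ) ^ δ⌋₊).filter (fun D =>
      ∃ n, 1 ≤ n ∧ n ≤ x ∧ ∀ s ∈ S, (n + D * s).Prime)).card : ℝ) :=
  slow (fun k x => ∀ S : Finset ℕ, S.card ≤ k → (∀ s ∈ S, (s : ℝ) ≤ (x : ℝ) ^ (1 - δ)) →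
    (x : ℝ) ^ (δ / 9) ≤ (((Icc 1 ⌊(x : ℝ) ^ δ⌋₊).filter (fun D =>
      ∃ n, 1 ≤ n ∧ n ≤ x ∧ ∀ s ∈ S, (n + D * s).Prime)).card : ℝ)) (primCk δ hδ hδ1)

end Pool.Agent.H534.UT
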