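import Pool.Agent.H534.UT.Miss
import Pool.Graph.R_seed8.R498.MT.QSys

/-!
# Clusters of almost primes `n ^ 2 + a`: the dense sets
-/

set_option autoImplicit false
set_option maxHeartbeats 4000000

open Finset Filter Polynomial

namespace Pool.Agent.H534.UT

open Pool.Agent.H534.RS
open Pool.Agent.W123.RU
open Pool.Agent.Y677.RSZ (rt Sys rhoT per_mod ev_log V ne_zero_ev)
open Pool.Agent.TH423.SH (PS)
open Pool.Agent.W23.DC
open Pool.Agent.Y882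
open Pool.Agent.Y882.PX
open Pool.Agent.Y882.KW
open Pool.Agent.R498.MT

/-- the polynomial `(X + s) ^ 2 + a` -/
noncomputable def fQ (a : ℤ) (s : ℕ) : ℤ[X] := (X + C (s : ℤ)) ^ 2 + C a

theorem fQ_eval (a : ℤ) (s : ℕ) (n : ℤ) : (fQ a s).eval n = (n + s) ^ 2 + a := by
  unfold fQ
  simp

theorem fQ_monic (a : ℤ) (s : ℕ) : (fQ a s).Monic ∧ (fQ a s).natDegree = 2 := by
  unfold fQ
  have h1 : ((X + C (s : ℤ)) ^ 2 : ℤ[X]).Monic := (monic_X_add_C _).pow 2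
  have h2 : ((X + C (s : ℤ)) ^ 2 : ℤ[X]).natDegree = 2 := by
    rw [(monic_X_add_C _).natDegree_pow, natDegree_X_add_C]
  have h3 : (C a : ℤ[X]).degree < ((X + C (s : ℤ)) ^ 2 : ℤ[X]).degree := by
    rw [degree_eq_natDegree h1.ne_zero, h2]
    exact lt_of_le_of_lt degree_C_le (by norm_num)
  refine ⟨h1.add_of_left h3, ?_⟩
  rw [natDegree_add_C, h2]

theorem fQ_irr (a : ℤ) (ha : ¬ IsSquare (-a)) (s : ℕ) : Irreducible (fQ a s) := by
  obtain ⟨h1, h2⟩ := fQ_monic a s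
  rw [h1.irreducible_iff_roots_eq_zero_of_degree_le_three (by rw [h2]) (by rw [h2]; norm_num)]
  rw [Multiset.eq_zero_iff_forall_notMem]
  intro x hx
  rw [mem_roots h1.ne_zero, IsRoot.def, fQ_eval] at hx
  exact ha ⟨x + s, by linarith⟩

theorem sysQ (a : ℤ) (ha : ¬ IsSquare (-a)) {n : ℕ} (s : Fin n → ℕ) (hs : Function.Injective s)
    (hadm : ∀ p : ℕ, p.Prime → ∃ m : ℕ, ∀ i, ¬ (p : ℤ) ∣ (fQ a (s i)).eval (m : ℤ)) :
    Poly.Sys (fun i => fQ a (s i)) where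
  irr := fun i => fQ_irr a ha (s i)
  deg := fun i => by rw [(fQ_monic a (s i)).2]; norm_num
  lead := fun i => by rw [(fQ_monic a (s i)).1.leadingCoeff]; norm_num
  inj := fun i j h => by
    have h0 := congrArg (fun P : ℤ[X] => P.eval 0) h
    have h1 := congrArg (fun P : ℤ[X] => P.eval 1) h
    simp only [fQ_eval] at h0 h1
    apply hs
    have h2 : ((s i : ℕ) : ℤ) = (s j : ℕ) := by linarith
    exact_mod_cast h2
  adm := hadm

/-- `n ^ 2 + a` is a product of at most three primes, all of them at least `N ^ (73 / 400)` -/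
def Alm (a : ℤ) (N n : ℕ) : Prop :=
  (((n : ℕ) : ℤ) ^ 2 + a).natAbs.primeFactorsList.length ≤ 3 ∧
    ∀ p : ℕ, p.Prime → (p : ℤ) ∣ ((n : ℕ) : ℤ) ^ 2 + a → (N : ℝ) ^ (73 / 400 : ℝ) ≤ p

/-- the numerical conditions -/
theorem nums2 (W r n₀ KP H₀ q0 CG Y₀ NT a : ℕ) (c1 c2 ζ υ : ℝ) (hW : 2 ≤ W) (hr : r < W)
    (hζ : 0 < ζ) (hυ : υ < 149 / 200) :
    ∀ᶠ N : ℕ in atTop, 3 ≤ N ∧ Y₀ ≤ N ∧ n₀ ≤ N ∧ (KP : ℝ) ≤ N ∧ (q0 : ℝ) + 2 ≤ (N : ℝ) ^ ζ ∧
      ((3 * N + W * NT + 1 : ℕ) : ℝ) ≤ (N : ℝ) ^ 2 ∧ (16 * CG : ℝ) ≤ (N : ℝ) ^ ((201 : ℝ) / 100 - 2) ∧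
      W * NT + 2 * W + 1 ≤ N ∧
      c1 * Real.log N ^ a ≤ (N : ℝ) ^ ζ ∧ c2 * Real.log N ^ a ≤ (N : ℝ) ^ (149 / 200 - υ) ∧
      ∃ L : ℕ, W * (L + 1) ≤ N ∧ (N : ℝ) ^ (149 / 200 : ℝ) ≤ L ∧
        H₀ ≤ W * L ∧ W * L ≤ N ∧ (N + r) / W + L ≤ N ∧ N ≤ 2 * (W * L) := by
  have hT := tendsto_natCast_atTop_atTop (R := ℝ)
  have v1 : ∀ᶠ N : ℕ in atTop, (q0 : ℝ) + 2 ≤ (N : ℝ) ^ ζ :=
    ((tendsto_rpow_atTop hζ).comp hT).eventually_ge_atTop _
  have v2 : ∀ᶠ N : ℕ in atTop, (16 * CG : ℝ) ≤ (N : ℝ) ^ ((201 : ℝ) / 100 - 2) :=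
    ((tendsto_rpow_atTop (by norm_num)).comp hT).eventually_ge_atTop _
  have v3 := ev_log a c1 ζ hζ
  have v4 := ev_log a c2 (149 / 200 - υ) (by linarith)
  have v5 : ∀ᶠ N : ℕ in atTop, (5 * W : ℝ) ≤ (N : ℝ) ^ ((51 : ℝ) / 200) :=
    ((tendsto_rpow_atTop (by norm_num)).comp hT).eventually_ge_atTop _
  filter_upwards [eventually_ge_atTop 3, eventually_ge_atTop Y₀, eventually_ge_atTop n₀,
    eventually_ge_atTop KP, eventually_ge_atTop (W * NT + 5 * W + 4 + 2 * W * H₀), v1, v2, v3, v4, v5]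
    with N e1 e2 e3 e4 e5 w1 w2 w3 w4 w5
  have hNr : (3 : ℝ) ≤ N := by exact_mod_cast e1
  have hN0 : (0 : ℝ) < N := by linarith
  have hN1 : (1 : ℝ) ≤ N := by linarith
  have hWr : (2 : ℝ) ≤ W := by exact_mod_cast hW
  have hW0 : 0 < W := by omega
  refine ⟨e1, e2, e3, by exact_mod_cast e4, w1, ?_, w2, by omega, w3, w4, ?_⟩
  · have h1 : 3 * N + W * NT + 1 ≤ N ^ 2 := by
      have h2 : 4 ≤ N := by omega
      have h3 : W * NT + 1 ≤ N := by omega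
      nlinarith
    exact_mod_cast h1
  · have hdiv : W * (N / W) ≤ N := Nat.mul_div_le N W
    have hdiv2 : N < W * (N / W + 1) := Nat.lt_mul_div_succ N hW0
    have hdiv3 : W * (N / W + 1) = W * (N / W) + W := by ring
    obtain ⟨L, hL⟩ : ∃ L : ℕ, L + 1 = N / W := by
      have h1 : 1 ≤ N / W := by
        rw [Nat.le_div_iff_mul_le hW0]
        omega
      exact ⟨N / W - 1, by omega⟩
    have hWL : W * (L + 1) = W * L + W := by ring
    rw [← hL] at hdiv hdiv2 hdiv3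
    rw [hWL] at hdiv
    have hlow : N < W * L + 2 * W := by
      have : W * (L + 1 + 1) = W * L + W + W := by ring
      omega
    refine ⟨L, by omega, ?_, ?_, by omega, ?_, by omega⟩
    · have h1 : (N : ℝ) ≤ W * L + 2 * W := by exact_mod_cast hlow.le
      have h2 : (N : ℝ) = (N : ℝ) ^ ((149 : ℝ) / 200) * (N : ℝ) ^ ((51 : ℝ) / 200) := by
        rw [← Real.rpow_add hN0]
        norm_num
      have h3 : (1 : ℝ) ≤ (N : ℝ) ^ ((149 : ℝ) / 200) := Real.one_le_rpow hN1 (by norm_num)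
      have h4 : (5 * W : ℝ) * (N : ℝ) ^ ((149 : ℝ) / 200) ≤ N := by
        calc (5 * W : ℝ) * (N : ℝ) ^ ((149 : ℝ) / 200) ≤
            (N : ℝ) ^ ((51 : ℝ) / 200) * (N : ℝ) ^ ((149 : ℝ) / 200) := by gcongr
          _ = N := by rw [mul_comm, ← h2]
      have h5 : (W : ℝ) * (5 * (N : ℝ) ^ ((149 : ℝ) / 200)) ≤ W * (L + 2) := by nlinarith
      have h6 := le_of_mul_le_mul_left h5 (by linarith)
      linarith
    · have h1 : 2 * W * H₀ ≤ N := by omega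
      have h2 : N ≤ 2 * (W * L) := by omega
      have h3 : W * H₀ ≤ W * L := by
        have : 2 * W * H₀ = 2 * (W * H₀) := by ring
        omega
      have h4 : H₀ ≤ W * H₀ := Nat.le_mul_of_pos_left _ hW0
      omega
    · have h1 : (N + r) / W ≤ N / W + 1 := by
        rw [← Nat.add_div_right N hW0]
        exact Nat.div_le_div_right (by omega)
      have h3 : 2 * (L + 1) ≤ W * (L + 1) := Nat.mul_le_mul_right _ hW
      rw [← hL] at h1
      omega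

/-- **Dense sets of clusters of almost primes `n ^ 2 + a`.** -/
theorem quaA (a : ℤ) (ha : ¬ IsSquare (-a)) (m : ℕ) : ∃ K₀ : ℕ, ∀ S : Finset ℕ, K₀ ≤ S.card →
    ∃ (n₁ : ℕ) (s : Fin n₁ → ℕ) (r : ℕ) (η κ : ℝ), 0 < n₁ ∧ Poly.Sys (fun i => fQ a (s i)) ∧
    0 < η ∧ 0 < κ ∧ ∀ᶠ N : ℕ in atTop, ∃ H ⊆ S, H.card = m ∧ ∃ (Y : ℕ) (A : Finset ℕ), Y ≤ N ^ 2 ∧
      A ⊆ Ioc Y (Y + N) ∧
      (∀ n ∈ A, ∀ i, ∀ p : ℕ, p.Prime → (p : ℝ) ≤ (N : ℝ) ^ η → ¬ (p : ℤ) ∣ (fQ a (s i)).eval (n : ℤ)) ∧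
      κ * (N / Real.log N ^ n₁) ≤ A.card ∧
      ∀ n ∈ A, N + r < n ∧ n ≤ 2 * N + r ∧ ∀ h ∈ H, Alm a N (n - r + h) := by
  classical
  have hΔ : ¬ IsSquare ((0 : ℤ) ^ 2 - 4 * 1 * a) := by
    rintro ⟨r, hr⟩
    apply ha
    have h2 : Even r := by
      rcases Int.even_or_odd r with h | h
      · exact h
      · exfalso
        have h3 := h.mul h
        rw [← hr] at h3
        have h4 : Even ((0 : ℤ) ^ 2 - 4 * 1 * a) := ⟨-2 * a, by ring⟩
        exact (Int.not_even_iff_odd.2 h3) h4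
    obtain ⟨k, rfl⟩ := h2
    exact ⟨k, by linarith⟩
  obtain ⟨P, hPd⟩ : ∃ P : ℤ[X], P = QG 1 0 a := ⟨_, rfl⟩
  have hPev : ∀ n : ℤ, P.eval n = n ^ 2 + a := by
    intro n
    rw [hPd, QG_eval]
    ring
  have hPne : ∀ n : ℤ, P.eval n ≠ 0 := by
    intro n h
    rw [hPev] at h
    exact ha ⟨n, by linarith⟩
  have hP : P ≠ 0 := by
    intro h
    exact hPne 0 (by rw [h]; simp)
  have hPadm : ∀ p : ℕ, p.Prime → ∃ n : ℤ, ¬ (p : ℤ) ∣ P.eval n := by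
    intro p hp
    by_contra hcon
    push Not at hcon
    have h0 := hcon 0
    have h1 := hcon 1
    rw [hPev] at h0 h1
    have h2 := dvd_sub h1 h0
    norm_num at h2
    exact hp.one_lt.ne' (Nat.dvd_one.1 (by exact_mod_cast h2))
  obtain ⟨g₀, hg₀⟩ := Pool.Agent.Y677.RSZ.poly_all P hP hPadm
  obtain ⟨g, hg⟩ : ∃ g : ℕ, g = g₀ + 1 := ⟨_, rfl⟩
  have hF : Sys g (fun n => P.eval n) := Pool.Agent.Y677.RSZ.Sys.mono hg₀ (by omega)
  have hG : Sys g (fun n => P.eval n) := hF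
  have hGF : ∀ p : ℕ, p.Prime → ∀ n : ℤ, (p : ℤ) ∣ P.eval n → (p : ℤ) ∣ P.eval n := fun _ _ _ h => h
  obtain ⟨CG, hCG⟩ : ∃ CG : ℕ, CG = 1 + a.natAbs := ⟨_, rfl⟩
  have hGs : ∀ n : ℕ, P.eval (n : ℤ) ≠ 0 ∧ (P.eval (n : ℤ)).natAbs ≤ CG * (n + 1) ^ 2 := by
    intro n
    refine ⟨hPne _, ?_⟩
    rw [hPev]
    have h1 : ((n : ℤ) ^ 2 + a).natAbs ≤ n ^ 2 + a.natAbs := by
      refine (Int.natAbs_add_le _ _).trans ?_
      rw [Int.natAbs_pow, Int.natAbs_natCast]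
    refine h1.trans ?_
    rw [hCG]
    nlinarith [Nat.zero_le (a.natAbs * n), Nat.zero_le (a.natAbs * n ^ 2)]
  have hMer : ∀ ε₁ υ η : ℝ, 0 < ε₁ → υ ≤ 1 → 0 < η → ∃ Y0 : ℕ, ∀ Y : ℕ, Y0 ≤ Y →
      Mer (pr Y ε₁ υ) (tt Y) (fun p => (rt (fun n => P.eval n) p : ℝ) / p) ε₁ υ η := by
    intro ε₁ υ η h1 h2 h3
    rw [hPd]
    exact mer_QG 1 0 a one_ne_zero hΔ ε₁ υ η h1 h2 h3
  obtain ⟨KK, hKK⟩ : ∃ KK : ℕ, KK = 2 := ⟨_, rfl⟩
  obtain ⟨q0, hq0⟩ : ∃ q0 : ℕ, q0 = (1 : ℤ).natAbs + ((0 : ℤ) ^ 2 - 4 * 1 * a).natAbs + 3 := ⟨_, rfl⟩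
  have hSq : ∀ q : ℕ, q.Prime → q0 ≤ q → ∀ N H : ℕ,
      ((((Icc 1 H).filter (fun j : ℕ => ((q ^ 2 : ℕ) : ℤ) ∣ P.eval ((N + j : ℕ) : ℤ))).card : ℕ) : ℝ) ≤
        KK * (H * (1 / (q : ℝ) ^ 2) + 1) := by
    intro q hq hqa N H
    rw [hKK, hPd]
    exact sq_QG 1 0 a one_ne_zero hΔ q hq (by omega) (by omega) N H
  -- from here on the proof of `fin2`
  set τ : ℝ := 73 / 100 with hτ
  set υ : ℝ := 24 / 25 * τ with hυ
  have hυ' : υ = 438 / 625 := by rw [hυ, hτ]; norm_num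
  have hcond : ∫ x in (73 / 400 : ℝ)..υ, ((8 / 9 : ℝ) - (8 / 9) / υ * x) / (τ - x) / x <
      Real.log (τ / (73 / 400) - 1) / τ := by
    have h := cond_A τ (8 / 9) (by rw [hτ]; norm_num) (by norm_num) (by norm_num)
    have e : τ / 4 = 73 / 400 := by rw [hτ]; norm_num
    rw [e] at h
    exact h
  have hGs' : ∀ n : ℕ, P.eval (n : ℤ) ≠ 0 ∧ (P.eval (n : ℤ)).natAbs ≤ (n + 2) ^ (CG + 2) := by
    intro n
    refine ⟨(hGs n).1, (hGs n).2.trans ?_⟩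
    rw [pow_add]
    apply Nat.mul_le_mul
    · calc CG ≤ 2 ^ CG := Nat.lt_two_pow_self.le
        _ ≤ (n + 2) ^ CG := Nat.pow_le_pow_left (by omega) _
    · exact Nat.pow_le_pow_left (by omega) _
  obtain ⟨k, W, hW0, hWsq, hWp, hgW, ε₁, c, hε, hεζ, hc, hcore⟩ :=
    core (fun n => P.eval n) (fun n => P.eval n) g hF hG hGF (CG + 2) hGs' hMer m τ (73 / 400) υ (8 / 9)
      ((8 / 9) / υ) (149 / 200) (1 / 200) (by norm_num) (by rw [hτ]; norm_num)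
      (by rw [hτ]; norm_num) (by rw [hτ]; norm_num) (by rw [hυ']; norm_num)
      (by rw [hυ', hτ]; norm_num) (by norm_num) (by rw [hυ']; norm_num)
      (by rw [div_mul_cancel₀]; rw [hυ']; norm_num) hcond (by norm_num) (by norm_num)
      (by rw [hτ]; norm_num)
  have hW2 : 2 ≤ W := by
    have h1 : 2 ∣ W := hWp 2 Nat.prime_two (by
      have : 1 ≤ g * 2 ^ k := Nat.mul_pos (by omega) (by positivity)
      omega)
    exact Nat.le_of_dvd hW0 h1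
  refine ⟨W * 2 ^ k, ?_⟩
  intro HH hHH
  obtain ⟨r, t, hrW, ht, hmem⟩ := shifts W (2 ^ k) hW0 HH hHH
  obtain ⟨b, hbW, hb⟩ := exb' hF W hW0 hWsq
  obtain ⟨Y₀, hcore⟩ := hcore t ht b hb
  obtain ⟨g', hS⟩ := PP_sys P hP g hF W b t hWp hb
  -- the system
  have hsinj : Function.Injective (fun i => W * t i) := fun i j h =>
    ht (Nat.eq_of_mul_eq_mul_left hW0 h)
  have hPP : ∀ x : ℤ, (Pool.Agent.R498.MT.PP P W t).eval x = ∏ i, (fQ a (W * t i)).eval x := by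
    intro x
    rw [PP_eval]
    refine prod_congr rfl fun i _ => ?_
    rw [hPev, fQ_eval]
  have hsys : Poly.Sys (fun i => fQ a (W * t i)) := by
    refine sysQ a ha (fun i => W * t i) hsinj (fun p hp => ?_)
    have h1 := (hS.root p hp).2
    have h2 : ∃ x ∈ range p, ¬ (p : ℤ) ∣ (Pool.Agent.R498.MT.PP P W t).eval (x : ℤ) := by
      by_contra hcon
      push Not at hcon
      unfold rt at h1
      rw [filter_true_of_mem hcon, card_range] at h1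
      omega
    obtain ⟨x, -, hx⟩ := h2
    refine ⟨x, fun i hd => hx ?_⟩
    rw [hPP]
    exact hd.trans (Finset.dvd_prod_of_mem _ (mem_univ i))
  obtain ⟨v, Cv, hv, hCv, hV⟩ := Poly.V_bounds (fun i => fQ a (W * t i)) hsys
  rw [Fintype.card_fin] at hV
  have hW0r : (0 : ℝ) < W := by exact_mod_cast hW0
  obtain ⟨κ, hκ⟩ : ∃ κ : ℝ, κ = c / (2 * 2 ^ 2 ^ k) * (v / (2 * W)) := ⟨_, rfl⟩
  have hκ0 : 0 < κ := by rw [hκ]; positivity
  refine ⟨2 ^ k, fun i => W * t i, r, ε₁ / 2, κ, by positivity, hsys, by positivity, hκ0, ?_⟩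
  obtain ⟨NT, hNT⟩ : ∃ NT : ℕ, ∀ i, t i ≤ NT :=
    ⟨univ.sup t, fun i => Finset.le_sup (f := t) (mem_univ i)⟩
  have hnums := nums2 W r W 0 0 q0 CG Y₀ NT (2 * (g * 2 ^ k) + 1)
    (8 * (2 ^ k * KK * W) / c) (4 * (2 ^ k * KK) / c) (73 / 400) υ hW2 hrW (by norm_num)
    (by rw [hυ']; norm_num)
  filter_upwards [hnums] with N hN
  obtain ⟨n1, n2, n3, n4, n5, n6, n7, n8, n9, n10, L, l1, l2, l3, l4, l5, l6⟩ := hN
  have hNr : (3 : ℝ) ≤ N := by exact_mod_cast n1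
  have hN0 : (0 : ℝ) < N := by linarith
  have hN1 : (1 : ℝ) ≤ N := by linarith
  have hlogN : 0 < Real.log (N : ℝ) := Real.log_pos (by linarith)
  obtain ⟨M, hM⟩ : ∃ M : ℕ, M = (N + r) / W := ⟨_, rfl⟩
  obtain ⟨z, hz⟩ : ∃ z : ℕ, z + 1 = ⌈(N : ℝ) ^ ε₁⌉₊ := by
    have : 1 ≤ ⌈(N : ℝ) ^ ε₁⌉₊ := Nat.ceil_pos.2 (by positivity)
    exact ⟨⌈(N : ℝ) ^ ε₁⌉₊ - 1, by omega⟩
  have hz1 : (z : ℝ) < (N : ℝ) ^ ε₁ := by
    have h1 := Nat.ceil_lt_add_one (show 0 ≤ (N : ℝ) ^ ε₁ by positivity)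
    rw [← hz] at h1
    push_cast at h1
    linarith
  have hz2 : (N : ℝ) ^ ε₁ ≤ z + 1 := by
    have h1 := Nat.le_ceil ((N : ℝ) ^ ε₁)
    rw [← hz] at h1
    push_cast at h1
    exact h1
  obtain ⟨hgd, hV0, hV1⟩ := hcore N n2 M L z l2 (by rw [hM]; exact l5) hz1 hz2
  obtain ⟨Hs, A, hHs, hA1, hA2⟩ := many (fun n => P.eval n) (fun n => P.eval n) KK q0 W b r M L N k m
    (2 * (g * 2 ^ k) + 1) ε₁ (73 / 400) υ (8 / 9) ((8 / 9) / υ) c
    (Vp (fun n => P.eval n) W b z t) hSq hW0 n1 n5 t hc hV0 hV1 hgd l2 n9 n10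
  have hM1 : N + r < W * (M + 1) := by
    rw [hM]
    exact Nat.lt_mul_div_succ (N + r) hW0
  have hM2 : W * M ≤ N + r := by rw [hM]; exact Nat.mul_div_le _ _
  have hM3 : W * (M + 1) = W * M + W := by ring
  have hbds : ∀ K ∈ Ioc M (M + L), N + r < W * K + b ∧ W * K + b ≤ N + r + W * L + b ∧
      W * K + b ≤ 3 * N := by
    intro K hK
    rw [mem_Ioc] at hK
    have h2 : W * (M + 1) ≤ W * K := Nat.mul_le_mul_left _ (by omega)
    have h3 : W * K ≤ W * (M + L) := Nat.mul_le_mul_left _ hK.2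
    have h5 : W * (M + L) = W * M + W * L := by ring
    refine ⟨by omega, by omega, by omega⟩
  have hWL1 : W * (L + 1) = W * L + W := by ring
  refine ⟨Hs.image (fun i => W * t i + r), ?_, ?_, W * M + b, A.image (fun K => W * K + b), ?_, ?_, ?_, ?_, ?_⟩
  · intro h hh
    rw [mem_image] at hh
    obtain ⟨i, _, rfl⟩ := hh
    exact hmem i
  · rw [card_image_of_injective _ (fun i j hij => by
      have h1 : W * t i + r = W * t j + r := hij
      have h2 : W * t i = W * t j := by omega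
      exact ht (Nat.eq_of_mul_eq_mul_left hW0 h2))]
    exact hHs
  · nlinarith
  · intro x hx
    rw [mem_image] at hx
    obtain ⟨K, hK, rfl⟩ := hx
    have h1 := (hA2 K hK).1
    rw [mem_Ioc] at h1 ⊢
    have h2 : W * (M + 1) ≤ W * K := Nat.mul_le_mul_left _ (by omega)
    have h3 : W * K ≤ W * (M + L) := Nat.mul_le_mul_left _ h1.2
    have h5 : W * (M + L) = W * M + W * L := by ring
    constructor <;> omega
  · intro x hx i p hp hpH hdvd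
    rw [mem_image] at hx
    obtain ⟨K, hK, rfl⟩ := hx
    refine (hA2 K hK).2.1 p hp ?_ i ?_
    · refine hpH.trans_lt ?_
      exact Real.rpow_lt_rpow_of_exponent_lt (by linarith) (by linarith)
    · rw [fQ_eval] at hdvd
      show (p : ℤ) ∣ P.eval ((W * (K + t i) + b : ℕ) : ℤ)
      rw [hPev]
      have e : (((W * (K + t i) + b : ℕ) : ℤ)) = ((W * K + b : ℕ) : ℤ) + ((W * t i : ℕ) : ℤ) := by
        push_cast
        ring
      rw [e]
      exact hdvd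
  · rw [card_image_of_injective _ (fun K K' hKK => by
      have h1 : W * K + b = W * K' + b := hKK
      have h2 : W * K = W * K' := by omega
      exact Nat.eq_of_mul_eq_mul_left hW0 h2)]
    refine le_trans ?_ hA1
    have hzN : z ≤ N := by
      have h1 : (z : ℝ) ≤ N := by
        refine hz1.le.trans ?_
        calc (N : ℝ) ^ ε₁ ≤ (N : ℝ) ^ (1 : ℝ) :=
              Real.rpow_le_rpow_of_exponent_le hN1 (by linarith)
          _ = N := Real.rpow_one _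
      exact_mod_cast h1
    have h1 := PP_V P g hF W b z N t hzN
    have h2 : V (fun n => (Pool.Agent.R498.MT.PP P W t).eval n) 1 N = Pool.Agent.W123.RP.Vq (Poly.Q (fun i => fQ a (W * t i))) N := by
      rw [← Pool.Agent.Y677.RSZ.V_eq]
      unfold V
      refine prod_congr rfl fun p hp => ?_
      have e : rt (fun n => (Pool.Agent.R498.MT.PP P W t).eval n) p = rt (fun n => (∏ i, fQ a (W * t i)).eval n) p := by
        unfold rt
        congr 1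
        apply filter_congr
        intro x _
        show (p : ℤ) ∣ (Pool.Agent.R498.MT.PP P W t).eval (x : ℤ) ↔
          (p : ℤ) ∣ (∏ i, fQ a (W * t i)).eval (x : ℤ)
        rw [hPP, eval_prod]
      rw [e]
    rw [h2] at h1
    have h3 := (hV N n1).1.trans h1
    have h4 : (N : ℝ) / (2 * W) ≤ L := by
      rw [div_le_iff₀ (by positivity)]
      have : (N : ℝ) ≤ ((2 * (W * L) : ℕ) : ℝ) := by exact_mod_cast l6
      push_cast at this
      linarith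
    calc κ * (N / Real.log N ^ 2 ^ k) = c / (2 * 2 ^ 2 ^ k) * ((N / (2 * W)) * (v / Real.log N ^ 2 ^ k)) := by
          rw [hκ]
          field_simp
      _ ≤ c / (2 * 2 ^ 2 ^ k) * (L * Vp (fun n => P.eval n) W b z t) := by gcongr
  · intro x hx
    rw [mem_image] at hx
    obtain ⟨K, hK, rfl⟩ := hx
    obtain ⟨hK1', hK2', hK3'⟩ := hA2 K hK
    have hbK := hbds K hK1'
    refine ⟨hbK.1, by omega, fun h hh => ?_⟩
    rw [mem_image] at hh
    obtain ⟨i, hi, rfl⟩ := hh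
    have e : W * K + b - r + (W * t i + r) = W * (K + t i) + b := by
      have h1 : W * (K + t i) = W * K + W * t i := by ring
      omega
    rw [e]
    obtain ⟨hw, hsq⟩ := hK3' i hi
    have hx : W * (K + t i) + b + 1 ≤ 4 * N := by
      have h1 : W * t i ≤ W * NT := Nat.mul_le_mul_left _ (hNT i)
      have h2 : W * (K + t i) = W * K + W * t i := by ring
      omega
    have hsize : (((P.eval ((W * (K + t i) + b : ℕ) : ℤ)).natAbs : ℕ) : ℝ) ≤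
        (N : ℝ) ^ ((201 : ℝ) / 100) := by
      have h1 := (hGs (W * (K + t i) + b)).2
      have h2 : (((P.eval ((W * (K + t i) + b : ℕ) : ℤ)).natAbs : ℕ) : ℝ) ≤
          CG * ((W * (K + t i) + b + 1 : ℕ) : ℝ) ^ 2 := by exact_mod_cast h1
      have h3 : ((W * (K + t i) + b + 1 : ℕ) : ℝ) ≤ 4 * N := by exact_mod_cast hx
      have h4 : ((W * (K + t i) + b + 1 : ℕ) : ℝ) ^ 2 ≤ (4 * N) ^ 2 :=
        pow_le_pow_left₀ (by positivity) h3 2
      calc (((P.eval ((W * (K + t i) + b : ℕ) : ℤ)).natAbs : ℕ) : ℝ) ≤ CG * (4 * N) ^ 2 :=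
            h2.trans (mul_le_mul_of_nonneg_left h4 (Nat.cast_nonneg _))
        _ = (16 * CG) * (N : ℝ) ^ 2 := by ring
        _ ≤ (N : ℝ) ^ ((201 : ℝ) / 100 - 2) * (N : ℝ) ^ 2 := by gcongr
        _ = _ := by
            rw [← Real.rpow_natCast (N : ℝ) 2, ← Real.rpow_add hN0]
            congr 1
            push_cast
            ring
    have halm := almost N (by omega) (73 / 400) υ (8 / 9) (201 / 100) 3 (by rw [hυ']; norm_num)
      (by rw [hυ']; norm_num) (by rw [hυ']; norm_num) (by norm_num)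
      (by rw [hυ']; norm_num) (P.eval ((W * (K + t i) + b : ℕ) : ℤ)).natAbs
      (Int.natAbs_ne_zero.2 (hGs _).1) hsize hw (fun q hq hqd => hsq q hq (Int.natCast_dvd.2 hqd))
    rw [hPev] at halm
    exact ⟨halm.1, fun p hp hpd => halm.2 p hp (Int.natCast_dvd.1 hpd)⟩

end Pool.Agent.H534.UT
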