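import Pool.Agent.H534.UT.Qua
import Pool.Graph.R_seed8.TH977.PW.Final

/-!
# Almost primes `n ^ 2 + a`, and clusters of them, at all the places of every shape
-/

set_option autoImplicit false
set_option maxHeartbeats 4000000

open Finset Filter Polynomial

namespace Pool.Agent.H534.UT

open Pool.Agent.H534.RS
open Pool.Agent.W123.RU

theorem sysQ1 (a : ℤ) (ha : ¬ IsSquare (-a)) : Poly.Sys (fun _ : Unit => fQ a 0) where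
  irr := fun _ => fQ_irr a ha 0
  deg := fun _ => by rw [(fQ_monic a 0).2]; norm_num
  lead := fun _ => by rw [(fQ_monic a 0).1.leadingCoeff]; norm_num
  inj := fun _ _ _ => rfl
  adm := fun p hp => by
    by_contra hcon
    push Not at hcon
    obtain ⟨-, h0⟩ := hcon 0
    obtain ⟨-, h1⟩ := hcon 1
    rw [fQ_eval] at h0 h1
    have h2 := dvd_sub h1 h0
    norm_num at h2
    exact hp.one_lt.ne' (Nat.dvd_one.1 (by exact_mod_cast h2))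

open Classical in
/-- dense sets of `n` with rough `n ^ 2 + a` -/
theorem quaD (a : ℤ) (ha : ¬ IsSquare (-a)) (k g : ℕ) (δ η κ : ℝ) (hk : 1 ≤ k) (hδ : 0 < δ) (hδ1 : δ ≤ 1)
    (hη : 0 < η) (hκ : 0 < κ) :
    ∃ c : ℝ, 0 < c ∧ ∃ H₀ : ℕ, ∀ (Y H : ℕ) (A : Finset ℕ), H₀ ≤ H → Y ≤ H ^ g → A ⊆ Ioc Y (Y + H) →
    (∀ n ∈ A, ∀ p : ℕ, p.Prime → (p : ℝ) ≤ (H : ℝ) ^ η → ¬ (p : ℤ) ∣ (n : ℤ) ^ 2 + a) →
    κ * (H / Real.log H) ≤ A.card →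
    ∀ b : Fin k → ℕ, Function.Injective b → (∀ i, 1 ≤ b i) → (∀ i, (b i : ℝ) ≤ (H : ℝ) ^ (1 - δ)) →
    c * (H : ℝ) ^ (δ / 8) ≤ (((Icc 1 ⌊(H : ℝ) ^ (δ / 8)⌋₊).filter (fun d =>
      c * (H * Real.log (Real.log H) ^ k / Real.log H ^ (k + 1)) ≤
        ((A.filter (fun n => ∀ i, n + WW (δ / 8) H * d * b i ∈ A)).card : ℝ))).card : ℝ) := by
  obtain ⟨c, hc, H₀, h⟩ := polyQ (fun _ : Unit => fQ a 0) (sysQ1 a ha) k g δ η κ hk hδ hδ1 hη hκ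
  refine ⟨c, hc, H₀, fun Y H A hH hY hA hAr hAc b hb hb1 hb2 => ?_⟩
  have h1 := h Y H A hH hY hA (fun n hn _ p hp hpH hd => by
    rw [fQ_eval] at hd
    exact hAr n hn p hp hpH (by simpa using hd)) (by rw [Fintype.card_unit, pow_one]; exact hAc) b hb hb1 hb2
  rw [Fintype.card_unit, one_mul, one_mul] at h1
  exact h1

/-- `n ^ 2 + a` has at most `r` prime factors, all of them larger than `x ^ (1 / r)` -/
def AlmR (a : ℤ) (r x n : ℕ) : Prop :=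
  ((n : ℤ) ^ 2 + a).natAbs.primeFactorsList.length ≤ r ∧
    ∀ p : ℕ, p.Prime → (p : ℤ) ∣ (n : ℤ) ^ 2 + a → (x : ℝ) ^ (1 / (r : ℝ)) < (p : ℝ)

open Classical in
/-- almost primes `n ^ 2 + a` at every shape -/
theorem quaE (a : ℤ) (ha : ¬ IsSquare (-a)) : ∃ r₀ : ℕ, 2 ≤ r₀ ∧ ∀ r : ℕ, r₀ ≤ r → ∀ (k : ℕ) (δ : ℝ),
    1 ≤ k → 0 < δ → δ ≤ 1 → ∃ c : ℝ, 0 < c ∧ ∀ᶠ x : ℕ in atTop,
    ∀ b : Fin k → ℕ, Function.Injective b → (∀ i, 1 ≤ b i) → (∀ i, (b i : ℝ) ≤ (x : ℝ) ^ (1 - δ)) →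
    c * (x : ℝ) ^ (δ / 8) ≤ (((Icc 1 ⌊(x : ℝ) ^ (δ / 8)⌋₊).filter (fun d =>
      c * (x * Real.log (Real.log x) ^ k / Real.log x ^ (k + 1)) ≤
        ((((Ioc x (2 * x)).filter (AlmR a r x)).filter (fun n => ∀ i,
          n + WW (δ / 8) x * d * b i ∈ (Ioc x (2 * x)).filter (AlmR a r x))).card : ℝ))).card : ℝ) := by
  obtain ⟨r₁, hr₁, hlow⟩ := Pool.Agent.TH977.PW.lower_input (fun _ : Unit => fQ a 0) (sysQ1 a ha) 1
    one_pos le_rfl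
  refine ⟨r₁, hr₁, fun r hr k δ hk hδ hδ1 => ?_⟩
  obtain ⟨κ, hκ, hlow⟩ := hlow r hr
  have hr0 : (0 : ℝ) < r := by exact_mod_cast (show 0 < r by omega)
  obtain ⟨c, hc, H₀, h⟩ := quaD a ha k 1 δ (1 / r) κ hk hδ hδ1 (by positivity) hκ
  refine ⟨c, hc, ?_⟩
  filter_upwards [hlow, eventually_ge_atTop H₀, eventually_ge_atTop 3] with x hx hxH hx3 b hb hb1 hb2
  have hx1 : (1 : ℝ) ≤ x := by exact_mod_cast (show 1 ≤ x by omega)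
  have h1 := hx x (by rw [Real.rpow_one]) le_rfl
  rw [Fintype.card_unit, pow_one] at h1
  refine h x x ((Ioc x (2 * x)).filter (AlmR a r x)) hxH (by rw [pow_one]) ?_ ?_ ?_ b hb hb1 hb2
  · intro n hn
    have h2 := (mem_filter.1 hn).1
    rw [mem_Ioc] at h2 ⊢
    omega
  · intro n hn p hp hpx hd
    have h2 := (mem_filter.1 hn).2.2 p hp hd
    linarith
  · refine le_trans (le_of_eq (by ring)) (h1.trans ?_)
    apply Nat.cast_le.2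
    apply card_le_card
    intro n hn
    rw [mem_filter, mem_Ioc] at hn
    rw [mem_filter, mem_Ioc]
    obtain ⟨⟨h3, h4⟩, h5, h6⟩ := hn
    refine ⟨⟨h3, by omega⟩, ?_, fun p hp hd => ?_⟩
    · have := h6 ()
      rw [fQ_eval] at this
      simpa using this
    · have h7 := h5 () p hp (by rw [fQ_eval]; simpa using hd)
      refine lt_of_le_of_lt ?_ h7
      apply Real.rpow_le_rpow (by linarith) (by exact_mod_cast h3.le) (by positivity)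

open Classical in
/-- clusters of `P₃` values at every shape -/
theorem quaC (a : ℤ) (ha : ¬ IsSquare (-a)) (m : ℕ) : ∃ K₀ : ℕ, ∀ S : Finset ℕ, K₀ ≤ S.card →
    ∃ (B : ℕ) (Q : ℕ → Finset ℕ), (∀ᶠ x in atTop, (Q x).card = m ∧ Q x ⊆ S) ∧
    ∀ (k : ℕ) (δ : ℝ), 1 ≤ k → 0 < δ → δ ≤ 1 → ∃ c : ℝ, 0 < c ∧ ∀ᶠ x : ℕ in atTop,
    ∀ b : Fin k → ℕ, Function.Injective b → (∀ i, 1 ≤ b i) → (∀ i, (b i : ℝ) ≤ (x : ℝ) ^ (1 - δ)) →
    c * (x : ℝ) ^ (δ / 8) ≤ (((Icc 1 ⌊(x : ℝ) ^ (δ / 8)⌋₊).filter (fun d =>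
      c * (x * Real.log (Real.log x) ^ (B * k) / Real.log x ^ (B * (k + 1))) ≤
        (((Ioc x (2 * x)).filter (fun n => ∀ q ∈ Q x, Alm a x (n + q) ∧
          ∀ i, Alm a x (n + q + WW (δ / 8) x * d * b i))).card : ℝ))).card : ℝ) := by
  obtain ⟨K₀, hK₀⟩ := quaA a ha m
  refine ⟨K₀, fun S hS => ?_⟩
  obtain ⟨n₁, s, r, η, κ, hn₁, hsys, hη, hκ, hN⟩ := hK₀ S hS
  have hNe : Nonempty (Fin n₁) := ⟨⟨0, hn₁⟩⟩
  obtain ⟨N₀, hN₀⟩ := eventually_atTop.1 hN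
  have hch : ∀ N : ℕ, ∃ H : Finset ℕ, N₀ ≤ N → H ⊆ S ∧ H.card = m ∧ ∃ (Y : ℕ) (A : Finset ℕ), Y ≤ N ^ 2 ∧
      A ⊆ Ioc Y (Y + N) ∧
      (∀ n ∈ A, ∀ i, ∀ p : ℕ, p.Prime → (p : ℝ) ≤ (N : ℝ) ^ η → ¬ (p : ℤ) ∣ (fQ a (s i)).eval (n : ℤ)) ∧
      κ * (N / Real.log N ^ n₁) ≤ A.card ∧
      ∀ n ∈ A, N + r < n ∧ n ≤ 2 * N + r ∧ ∀ h ∈ H, Alm a N (n - r + h) := by
    intro N
    by_cases h : N₀ ≤ N
    · obtain ⟨H, h1, h2, h3⟩ := hN₀ N h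
      exact ⟨H, fun _ => ⟨h1, h2, h3⟩⟩
    · exact ⟨∅, fun h' => absurd h' h⟩
  choose Q hQ using hch
  refine ⟨n₁, Q, ?_, fun k δ hk hδ hδ1 => ?_⟩
  · filter_upwards [eventually_ge_atTop N₀] with x hx
    exact ⟨(hQ x hx).2.1, (hQ x hx).1⟩
  obtain ⟨c, hc, H₀, h⟩ := polyQ (fun i => fQ a (s i)) hsys k 2 δ η κ hk hδ hδ1 hη hκ
  rw [Fintype.card_fin] at h
  refine ⟨c, hc, ?_⟩
  filter_upwards [eventually_ge_atTop N₀, eventually_ge_atTop H₀] with x hx hxH b hb hb1 hb2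
  obtain ⟨h1, h2, Y, A, h3, h4, h5, h6, h7⟩ := hQ x hx
  refine (h Y x A hxH h3 h4 h5 h6 b hb hb1 hb2).trans ?_
  apply Nat.cast_le.2
  apply card_le_card
  intro d hd
  rw [mem_filter] at hd ⊢
  refine ⟨hd.1, hd.2.trans ?_⟩
  apply Nat.cast_le.2
  apply card_le_card_of_injOn (fun n => n - r)
  · intro n hn
    obtain ⟨hnA, hni⟩ := mem_filter.1 (mem_coe.1 hn)
    obtain ⟨e1, e2, e3⟩ := h7 n hnA
    refine mem_coe.2 (mem_filter.2 ⟨?_, fun q hq => ⟨e3 q hq, fun i => ?_⟩⟩)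
    · rw [mem_Ioc]
      show x < n - r ∧ n - r ≤ 2 * x
      omega
    · have e4 := (h7 _ (hni i)).2.2 q hq
      have e5 : n + WW (δ / 8) x * d * b i - r + q = n - r + q + WW (δ / 8) x * d * b i := by omega
      rw [e5] at e4
      exact e4
  · intro n hn n' hn' hnn
    have g1 := (h7 n (mem_filter.1 (mem_coe.1 hn)).1).1
    have g2 := (h7 n' (mem_filter.1 (mem_coe.1 hn')).1).1
    have g3 : n - r = n' - r := hnn
    omega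

end Pool.Agent.H534.UT
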