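import Pool.Agent.H534.UT.Qua
import Pool.Graph.R_seed8.R498.MP.LinC

/-!
# Strings of primes `p` with almost prime `(h p) ^ 2 + 1`: the polynomials
-/

set_option autoImplicit false
set_option maxHeartbeats 4000000

open Finset Filter Polynomial

namespace Pool.Agent.H534.UT

open Pool.Agent.H534.RS
open Pool.Agent.W123.RU

/-- the polynomials `X + s` and `(h (X + s)) ^ 2 + 1` -/
noncomputable def fH (h s : ℕ) (b : Bool) : ℤ[X] :=
  if b then (C (h : ℤ) * (X + C (s : ℤ))) ^ 2 + C 1 else X + C (s : ℤ)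

theorem fH_eval (h s : ℕ) (b : Bool) (n : ℤ) :
    (fH h s b).eval n = if b then (h * (n + s)) ^ 2 + 1 else n + s := by
  unfold fH
  cases b <;> simp

theorem quad_deg {R : Type} [CommRing R] [IsDomain R] (c s : R) (hc : c ≠ 0) :
    ((C c * (X + C s)) ^ 2 + C 1 : R[X]).natDegree = 2 ∧
      ((C c * (X + C s)) ^ 2 + C 1 : R[X]).leadingCoeff = c ^ 2 := by
  have h1 : ((C c * (X + C s)) ^ 2 : R[X]).natDegree = 2 := by
    rw [natDegree_pow, natDegree_C_mul hc, natDegree_X_add_C]
  have h2 : (C 1 : R[X]).degree < ((C c * (X + C s)) ^ 2 : R[X]).degree := by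
    have h3 : ((C c * (X + C s)) ^ 2 : R[X]) ≠ 0 := fun h => by
      rw [h, natDegree_zero] at h1
      omega
    rw [degree_eq_natDegree h3, h1]
    exact lt_of_le_of_lt degree_C_le (by norm_num)
  refine ⟨by rw [natDegree_add_C, h1], ?_⟩
  rw [leadingCoeff_add_of_degree_lt' h2, leadingCoeff_pow, leadingCoeff_mul, leadingCoeff_C,
    leadingCoeff_X_add_C, mul_one]

theorem fH_irr (h s : ℕ) (h0 : 0 < h) (b : Bool) : Irreducible (fH h s b) := by
  cases b
  · show Irreducible (X + C (s : ℤ))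
    have h1 := irreducible_X_sub_C (-(s : ℤ))
    rwa [map_neg, sub_neg_eq_add] at h1
  · have hp : (fH h s true).IsPrimitive := by
      intro r hr
      obtain ⟨g, hg⟩ := hr
      have h1 := congrArg (fun P : ℤ[X] => P.eval (-(s : ℤ))) hg
      simp only [fH_eval, eval_mul, eval_C] at h1
      simp only [if_true, neg_add_cancel, mul_zero] at h1
      apply IsUnit.of_mul_eq_one (g.eval (-(s : ℤ)))
      rw [← h1]
      norm_num
    rw [IsPrimitive.Int.irreducible_iff_irreducible_map_cast hp]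
    have e : (fH h s true).map (Int.castRingHom ℚ) = (C (h : ℚ) * (X + C (s : ℚ))) ^ 2 + C 1 := by
      unfold fH
      simp
    rw [e]
    have hh : (h : ℚ) ≠ 0 := by exact_mod_cast h0.ne'
    obtain ⟨h1, -⟩ := quad_deg (h : ℚ) (s : ℚ) hh
    rw [irreducible_iff_roots_eq_zero_of_degree_le_three (by rw [h1]) (by rw [h1]; norm_num)]
    rw [Multiset.eq_zero_iff_forall_notMem]
    intro x hx
    rw [mem_roots (fun h => by rw [h, natDegree_zero] at h1; omega), IsRoot.def] at hx
    simp only [eval_add, eval_pow, eval_mul, eval_C, eval_X] at hx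
    nlinarith [sq_nonneg ((h : ℚ) * (x + s))]

/-- the system of the polynomials `X + s_i`, `(h (X + s_i)) ^ 2 + 1` -/
theorem sysH (h : ℕ) (h0 : 0 < h) {n : ℕ} (s : Fin n → ℕ) (hs : Function.Injective s)
    (hadm : ∀ p : ℕ, p.Prime → ∃ m : ℕ, ∀ j : Bool × Fin n, ¬ (p : ℤ) ∣ (fH h (s j.2) j.1).eval (m : ℤ)) :
    Poly.Sys (fun j : Bool × Fin n => fH h (s j.2) j.1) where
  irr := fun j => fH_irr h (s j.2) h0 j.1
  deg := fun j => by
    obtain ⟨b, i⟩ := j
    cases b
    · show 0 < (X + C ((s i : ℕ) : ℤ)).natDegree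
      rw [natDegree_X_add_C]
      exact one_pos
    · show 0 < ((C (h : ℤ) * (X + C ((s i : ℕ) : ℤ))) ^ 2 + C 1).natDegree
      rw [(quad_deg (h : ℤ) ((s i : ℕ) : ℤ) (by exact_mod_cast h0.ne')).1]
      norm_num
  lead := fun j => by
    obtain ⟨b, i⟩ := j
    cases b
    · show 0 < (X + C ((s i : ℕ) : ℤ)).leadingCoeff
      rw [leadingCoeff_X_add_C]
      exact one_pos
    · show 0 < ((C (h : ℤ) * (X + C ((s i : ℕ) : ℤ))) ^ 2 + C 1).leadingCoeff
      rw [(quad_deg (h : ℤ) ((s i : ℕ) : ℤ) (by exact_mod_cast h0.ne')).2]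
      have : (0 : ℤ) < h := by exact_mod_cast h0
      positivity
  inj := fun j j' hjj => by
    obtain ⟨b, i⟩ := j
    obtain ⟨b', i'⟩ := j'
    have hh : (0 : ℤ) < h := by exact_mod_cast h0
    have hd : ∀ i : Fin n, (fH h (s i) true).natDegree = 2 := fun i =>
      (quad_deg (h : ℤ) ((s i : ℕ) : ℤ) hh.ne').1
    have hd1 : ∀ i : Fin n, (fH h (s i) false).natDegree = 1 := fun i => natDegree_X_add_C _
    simp only at hjj
    cases b <;> cases b'
    · have h1 := congrArg (fun P : ℤ[X] => P.eval 0) hjj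
      simp only [fH_eval] at h1
      have h2 : ((s i : ℕ) : ℤ) = (s i' : ℕ) := by simpa using h1
      have h3 : s i = s i' := by exact_mod_cast h2
      rw [hs h3]
    · have h1 := congrArg natDegree hjj
      rw [hd, hd1] at h1
      omega
    · have h1 := congrArg natDegree hjj
      rw [hd, hd1] at h1
      omega
    · have h1 := congrArg (fun P : ℤ[X] => P.eval (-((s i : ℕ) : ℤ))) hjj
      simp only [fH_eval, if_true, neg_add_cancel, mul_zero] at h1
      have h2 : ((h : ℤ) * (-((s i : ℕ) : ℤ) + (s i' : ℕ))) ^ 2 = 0 := by linarith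
      have h3 := pow_eq_zero_iff (two_ne_zero) |>.1 h2
      rcases mul_eq_zero.1 h3 with h4 | h4
      · omega
      · have h5 : ((s i : ℕ) : ℤ) = (s i' : ℕ) := by linarith
        have h6 : s i = s i' := by exact_mod_cast h5
        rw [hs h6]
  adm := hadm

end Pool.Agent.H534.UT
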