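import Pool.Agent.H534.UT.StrA

/-!
# Strings of primes `p` with rough `(h p) ^ 2 + 1`: the dense sets
-/

set_option autoImplicit false
set_option maxHeartbeats 4000000

open Finset Filter Polynomial

namespace Pool.Agent.H534.UT

open Pool.Agent.H534.RS
open Pool.Agent.W123.RU
open Pool.Agent.Y677.RSZ (rt Sys rhoT per_mod ev_log V ne_zero_ev)
open Pool.Agent.TH423.SH (PS)
open Pool.Agent.W23.DC
open Pool.Agent.Y882
open Pool.Agent.Y882.PX
open Pool.Agent.Y882.KW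
open Pool.Agent.R498.MT
open Pool.Agent.R498.MP

/-- **Dense sets of strings of primes with rough values.** -/
theorem strA (h : ℕ) (hh : Even h) (h0 : 0 < h) (m : ℕ) : ∃ (K₀ : ℕ) (ε₁ : ℝ), 0 < ε₁ ∧
    ∀ S : Finset ℕ, K₀ ≤ S.card →
    ∃ (n₁ : ℕ) (s : Fin n₁ → ℕ) (r : ℕ) (κ : ℝ), 0 < n₁ ∧
    Poly.Sys (fun j : Bool × Fin n₁ => fH h (s j.2) j.1) ∧ 0 < κ ∧
    ∀ᶠ N : ℕ in atTop, ∃ H ⊆ S, m ≤ H.card ∧ ∃ (Y : ℕ) (A : Finset ℕ), Y ≤ N ^ 2 ∧
      A ⊆ Ioc Y (Y + N) ∧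
      (∀ n ∈ A, ∀ j : Bool × Fin n₁, ∀ p : ℕ, p.Prime → (p : ℝ) ≤ (N : ℝ) ^ (ε₁ / 2) →
        ¬ (p : ℤ) ∣ (fH h (s j.2) j.1).eval (n : ℤ)) ∧
      κ * (N / Real.log N ^ (2 * n₁)) ≤ A.card ∧
      ∀ n ∈ A, N + r < n ∧ n - r + S.sup id ≤ 2 * N ∧
        (∀ y ≤ S.sup id, (n - r + y).Prime ↔ y ∈ H) ∧
        ∀ y ∈ H, ∀ p : ℕ, p.Prime → p ∣ (h * (n - r + y)) ^ 2 + 1 → (N : ℝ) ^ ε₁ ≤ p := by
  classical
  obtain ⟨P, hPd⟩ : ∃ P : ℤ[X], P = X * HX h 1 := ⟨_, rfl⟩
  have hPev : ∀ n : ℤ, P.eval n = n * ((h * n) ^ 2 + 1) := by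
    intro n
    rw [hPd, eval_mul, eval_X, HX_eval]
  have hPne : ∀ n : ℤ, n ≠ 0 → P.eval n ≠ 0 := by
    intro n hn h1
    rw [hPev] at h1
    rcases mul_eq_zero.1 h1 with h2 | h2
    · exact hn h2
    · nlinarith [sq_nonneg ((h : ℤ) * n)]
  have hP : P ≠ 0 := by
    intro h1
    exact hPne 1 one_ne_zero (by rw [h1]; simp)
  have hPadm : ∀ p : ℕ, p.Prime → ∃ n : ℤ, ¬ (p : ℤ) ∣ P.eval n := by
    intro p hp
    obtain ⟨n, hn⟩ := HX_adm h 1 (one_ok h hh) p hp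
    refine ⟨n, ?_⟩
    rw [hPd, eval_mul, eval_X]
    exact hn
  obtain ⟨g₀, hg₀⟩ := Pool.Agent.Y677.RSZ.poly_all P hP hPadm
  obtain ⟨g, hg⟩ : ∃ g : ℕ, g = g₀ + 1 := ⟨_, rfl⟩
  have hg1 : 1 ≤ g := by omega
  have hF : Sys g (fun n => P.eval n) := Pool.Agent.Y677.RSZ.Sys.mono hg₀ (by omega)
  have hFid : ∀ p : ℕ, p.Prime → ∀ n : ℤ, (p : ℤ) ∣ n → (p : ℤ) ∣ P.eval n := by
    intro p _ n hd
    rw [hPev]
    exact hd.mul_right _
  obtain ⟨k, W, hW0, hWsq, hWp, hgW, ε₁, c, hε, hε24, hc, hcore⟩ :=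
    coreP (fun n => P.eval n) g hF hFid m
  have hW2 : 2 ≤ W := by
    have h1 : 2 ∣ W := hWp 2 Nat.prime_two (by
      have : 1 ≤ g * 2 ^ k := Nat.mul_pos hg1 (by positivity)
      omega)
    exact Nat.le_of_dvd hW0 h1
  refine ⟨W * 2 ^ k, ε₁, hε, ?_⟩
  intro HH hHH
  obtain ⟨E, hEd⟩ : ∃ E : Finset ℕ, E = Finset.range (HH.sup id + 1) := ⟨_, rfl⟩
  have hEH : ∀ h ∈ HH, ∀ y ∈ E, y ≠ h → P.eval ((h : ℤ) - y) ≠ 0 := by
    intro t _ y _ hyt
    apply hPne
    intro h2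
    apply hyt
    have : (t : ℤ) = y := by linarith
    exact_mod_cast this.symm
  obtain ⟨r, t, hrW, ht, hmem⟩ := shifts W (2 ^ k) hW0 HH hHH
  obtain ⟨b₁, hb₁W, hb₁⟩ := exb' hF W hW0 hWsq
  obtain ⟨b, hbd⟩ : ∃ b, b = W + b₁ := ⟨_, rfl⟩
  have hb : ∀ p : ℕ, p.Prime → p ∣ W → ¬ (p : ℤ) ∣ (fun n : ℤ => P.eval n) b := by
    intro p hp hpW h
    apply hb₁ p hp hpW
    refine (per_mod (F := fun n => P.eval n) hF.per hp b b₁ ?_).1 h
    rw [hbd]
    have : W ≡ 0 [MOD p] := (Nat.modEq_zero_iff_dvd).2 hpW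
    simpa using this.add_right b₁
  obtain ⟨⟨Y₀, hcore1⟩, hcore2⟩ := hcore t ht b hb
  obtain ⟨g', hS⟩ := PP_sys P hP g hF W b t hWp hb
  -- the system
  have hsinj : Function.Injective (fun i => W * t i) := fun i j h =>
    ht (Nat.eq_of_mul_eq_mul_left hW0 h)
  have hPP : ∀ x : ℤ, (Pool.Agent.R498.MT.PP P W t).eval x =
      ∏ j : Bool × Fin (2 ^ k), (fH h (W * t j.2) j.1).eval x := by
    intro x
    rw [PP_eval, Fintype.prod_prod_type, Fintype.prod_bool, ← Finset.prod_mul_distrib]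
    refine prod_congr rfl fun i _ => ?_
    rw [hPev, fH_eval, fH_eval]
    simp only [if_true, Bool.false_eq_true, if_false]
    ring
  have hsys : Poly.Sys (fun j : Bool × Fin (2 ^ k) => fH h (W * t j.2) j.1) := by
    refine sysH h h0 (fun i => W * t i) hsinj (fun p hp => ?_)
    have h1 := (hS.root p hp).2
    have h2 : ∃ x ∈ range p, ¬ (p : ℤ) ∣ (Pool.Agent.R498.MT.PP P W t).eval (x : ℤ) := by
      by_contra hcon
      push Not at hcon
      unfold rt at h1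
      rw [filter_true_of_mem hcon, card_range] at h1
      omega
    obtain ⟨x, -, hx⟩ := h2
    refine ⟨x, fun j hd => hx ?_⟩
    rw [hPP]
    exact hd.trans (Finset.dvd_prod_of_mem _ (mem_univ j))
  obtain ⟨v, Cv, hv, hCv, hV⟩ := Poly.V_bounds (fun j : Bool × Fin (2 ^ k) => fH h (W * t j.2) j.1) hsys
  have hcard : Fintype.card (Bool × Fin (2 ^ k)) = 2 * 2 ^ k := by
    rw [Fintype.card_prod, Fintype.card_bool, Fintype.card_fin]
  rw [hcard] at hV
  have hW0r : (0 : ℝ) < W := by exact_mod_cast hW0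
  obtain ⟨κ, hκ⟩ : ∃ κ : ℝ, κ = c / (2 * 2 ^ 2 ^ k) * (v / (4 * W)) := ⟨_, rfl⟩
  have hκ0 : 0 < κ := by rw [hκ]; positivity
  -- the other primes
  obtain ⟨E', hE'⟩ : ∃ E', E' = E.filter (fun y => ∀ i, W * t i + r ≠ y) := ⟨_, rfl⟩
  have hdisc : ∀ᶠ N : ℕ in atTop, ∀ y ∈ E', ∀ M L z : ℕ, Win W N M L → (z : ℝ) < (N : ℝ) ^ ε₁ →
        0 < Vp (fun n => P.eval n) W b z t →
        1 ≤ Real.log N ^ (2 * (g * 2 ^ k) + 1) * Vp (fun n => P.eval n) W b z t →
        ∀ s : Finset ℕ,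
        (∀ K ∈ s, K ∈ Ioc M (M + L) ∧ (W * K + (b - r + y)).Prime ∧
          ∀ p ∈ PS W z, ∀ i, ¬ (p : ℤ) ∣ P.eval ((W * (K + t i) + b : ℕ) : ℤ)) →
        (s.card : ℝ) ≤ c / (2 * (E'.card + 1)) * (L * Vp (fun n => P.eval n) W b z t) := by
    rw [Finset.eventually_all]
    intro y hy
    rw [hE', mem_filter] at hy
    obtain ⟨Y₁, hY₁⟩ := hcore2 (b - r + y) (by
      intro j
      have e : ((W * t j + b : ℕ) : ℤ) - ((b - r + y : ℕ) : ℤ) = ((W * t j + r : ℕ) : ℤ) - y := by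
        have : r ≤ b := by omega
        push_cast [this]
        ring
      show P.eval _ ≠ 0
      rw [e]
      exact hEH _ (hmem j) y hy.1 (fun h => hy.2 j h.symm)) (c / (2 * (E'.card + 1)))
      (by positivity)
    filter_upwards [eventually_ge_atTop Y₁] with N hN M L z h1 h2 h3 h4 s hs
    exact hY₁ N hN M L z h1 h2 h3 h4 s hs
  refine ⟨2 ^ k, fun i => W * t i, r, κ, by positivity, hsys, hκ0, ?_⟩
  filter_upwards [hdisc, numsE W r b Y₀ 0 0 0 (HH.sup id) hW2 hrW, eventually_ge_atTop (4 * W),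
    eventually_ge_atTop 3] with N hN1 hN2 hN4 hN3
  obtain ⟨n1, n2, n3, n4, n5, n6, n7, n8, n9, n10⟩ := hN2
  obtain ⟨M, hM⟩ : ∃ M : ℕ, M = (N + r) / W := ⟨_, rfl⟩
  obtain ⟨L, hL⟩ : ∃ L : ℕ, L = N / (2 * W) := ⟨_, rfl⟩
  rw [← hM, ← hL] at n5
  rw [← hL] at n6 n7 n8 n9
  have hNr : (16 : ℝ) ≤ N := by exact_mod_cast n2
  have hN0 : (0 : ℝ) < N := by linarith
  have hN1r : (1 : ℝ) ≤ N := by linarith
  have hlogN : 0 < Real.log (N : ℝ) := Real.log_pos (by linarith)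
  obtain ⟨z, hz⟩ : ∃ z : ℕ, z + 1 = ⌈(N : ℝ) ^ ε₁⌉₊ := by
    have : 1 ≤ ⌈(N : ℝ) ^ ε₁⌉₊ := Nat.ceil_pos.2 (by positivity)
    exact ⟨⌈(N : ℝ) ^ ε₁⌉₊ - 1, by omega⟩
  have hz1 : (z : ℝ) < (N : ℝ) ^ ε₁ := by
    have h1 := Nat.ceil_lt_add_one (show 0 ≤ (N : ℝ) ^ ε₁ by positivity)
    rw [← hz] at h1
    push_cast at h1
    linarith
  have hz2 : (N : ℝ) ^ ε₁ ≤ z + 1 := by
    have h1 := Nat.le_ceil ((N : ℝ) ^ ε₁)
    rw [← hz] at h1
    push_cast at h1
    exact h1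
  obtain ⟨hgd, hV0, hV1⟩ := hcore1 N n1 M L z n5 hz1 hz2
  have hWL1 : 1 ≤ W * L := by
    have h1 : (1 : ℝ) ≤ ((W * L : ℕ) : ℝ) := le_trans (Real.one_le_rpow hN1r (by norm_num)) n7
    exact_mod_cast h1
  have hL1 : 1 ≤ L := by
    rcases Nat.eq_zero_or_pos L with h | h
    · rw [h, mul_zero] at hWL1
      omega
    · exact h
  have hLr : (0 : ℝ) < L := by exact_mod_cast hL1
  obtain ⟨Hs, A, hHs, hA1, hA2⟩ := manyP (fun n => P.eval n) W b M L z N k m
    (2 * (g * 2 ^ k) + 1) ε₁ c (Vp (fun n => P.eval n) W b z t) t E' (fun y => b - r + y) hc hV0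
    hLr hz1 hgd (fun y hy s hs => hN1 y hy M L z n5 hz1 hV0 hV1 s hs)
  have hWM : W * M ≤ N + r := by rw [hM]; exact Nat.mul_div_le _ _
  have hWM1 : N + r < W * (M + 1) := by
    rw [hM]
    exact Nat.lt_mul_div_succ (N + r) hW0
  have hWM2 : W * (M + 1) = W * M + W := by ring
  have hWML : W * (M + L) = W * M + W * L := by ring
  have hbds : ∀ K ∈ Ioc M (M + L), N + r < W * K ∧ W * K + b ≤ N + r + W * L + b := by
    intro K hK
    rw [mem_Ioc] at hK
    have h2 : W * (M + 1) ≤ W * K := Nat.mul_le_mul_left _ (by omega)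
    have h3 : W * K ≤ W * (M + L) := Nat.mul_le_mul_left _ hK.2
    exact ⟨by omega, by omega⟩
  have hLW : (N : ℝ) / (4 * W) ≤ L := by
    rw [div_le_iff₀ (by positivity)]
    have h1 : N < 2 * W * (L + 1) := by
      rw [hL]
      exact Nat.lt_mul_div_succ N (by omega)
    have h2 : N ≤ 4 * W * L := by nlinarith
    have h3 : (N : ℝ) ≤ ((4 * W * L : ℕ) : ℝ) := by exact_mod_cast h2
    push_cast at h3
    linarith
  refine ⟨Hs.image (fun i => W * t i + r), ?_, ?_, W * M + b, A.image (fun K => W * K + b), ?_, ?_, ?_, ?_, ?_⟩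
  · intro y hy
    rw [mem_image] at hy
    obtain ⟨i, _, rfl⟩ := hy
    exact hmem i
  · rw [card_image_of_injective _ (fun i j hij => by
      have h1 : W * t i + r = W * t j + r := hij
      have h2 : W * t i = W * t j := by omega
      exact ht (Nat.eq_of_mul_eq_mul_left hW0 h2))]
    exact hHs.le
  · omega
  · intro x hx
    rw [mem_image] at hx
    obtain ⟨K, hK, rfl⟩ := hx
    have h1 := (hA2 K hK).1
    rw [mem_Ioc] at h1 ⊢
    have h2 : W * (M + 1) ≤ W * K := Nat.mul_le_mul_left _ (by omega)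
    have h3 : W * K ≤ W * (M + L) := Nat.mul_le_mul_left _ h1.2
    constructor <;> omega
  · intro x hx j p hp hpH hdvd
    rw [mem_image] at hx
    obtain ⟨K, hK, rfl⟩ := hx
    refine (hA2 K hK).2.1 p hp ?_ j.2 ?_
    · refine hpH.trans_lt ?_
      exact Real.rpow_lt_rpow_of_exponent_lt (by linarith) (by linarith)
    · show (p : ℤ) ∣ P.eval ((W * (K + t j.2) + b : ℕ) : ℤ)
      have e : (((W * (K + t j.2) + b : ℕ) : ℤ)) = ((W * K + b : ℕ) : ℤ) + ((W * t j.2 : ℕ) : ℤ) := by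
        push_cast
        ring
      rw [hPev, e]
      rw [fH_eval] at hdvd
      cases hj : j.1
      · rw [hj] at hdvd
        simp only [Bool.false_eq_true, if_false] at hdvd
        exact hdvd.mul_right _
      · rw [hj] at hdvd
        simp only [if_true] at hdvd
        exact hdvd.mul_left _
  · rw [card_image_of_injective _ (fun K K' hKK => by
      have h1 : W * K + b = W * K' + b := hKK
      have h2 : W * K = W * K' := by omega
      exact Nat.eq_of_mul_eq_mul_left hW0 h2)]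
    refine le_trans ?_ hA1
    have hzN : z ≤ N := by
      have h1 : (z : ℝ) ≤ N := by
        refine hz1.le.trans ?_
        calc (N : ℝ) ^ ε₁ ≤ (N : ℝ) ^ (1 : ℝ) :=
              Real.rpow_le_rpow_of_exponent_le hN1r (by linarith)
          _ = N := Real.rpow_one _
      exact_mod_cast h1
    have h1 := PP_V P g hF W b z N t hzN
    have h2 : V (fun n => (Pool.Agent.R498.MT.PP P W t).eval n) 1 N =
        Pool.Agent.W123.RP.Vq (Poly.Q (fun j : Bool × Fin (2 ^ k) => fH h (W * t j.2) j.1)) N := by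
      rw [← Pool.Agent.Y677.RSZ.V_eq]
      unfold V
      refine prod_congr rfl fun p hp => ?_
      have e : rt (fun n => (Pool.Agent.R498.MT.PP P W t).eval n) p =
          rt (fun n => (∏ j : Bool × Fin (2 ^ k), fH h (W * t j.2) j.1).eval n) p := by
        unfold rt
        congr 1
        apply filter_congr
        intro x _
        show (p : ℤ) ∣ (Pool.Agent.R498.MT.PP P W t).eval (x : ℤ) ↔
          (p : ℤ) ∣ (∏ j : Bool × Fin (2 ^ k), fH h (W * t j.2) j.1).eval (x : ℤ)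
        rw [hPP, eval_prod]
      rw [e]
    rw [h2] at h1
    have h3 := (hV N hN3).1.trans h1
    calc κ * (N / Real.log N ^ (2 * 2 ^ k)) =
          c / (2 * 2 ^ 2 ^ k) * ((N / (4 * W)) * (v / Real.log N ^ (2 * 2 ^ k))) := by
          rw [hκ]
          field_simp
      _ ≤ c / (2 * 2 ^ 2 ^ k) * (L * Vp (fun n => P.eval n) W b z t) := by gcongr
  · intro x hx
    rw [mem_image] at hx
    obtain ⟨K, hK, rfl⟩ := hx
    obtain ⟨hK1', hK2', hK3', hK4'⟩ := hA2 K hK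
    have hbK := hbds K hK1'
    have e : ∀ i, W * K + b - r + (W * t i + r) = W * (K + t i) + b := by
      intro i
      have h1 : W * (K + t i) = W * K + W * t i := by ring
      omega
    refine ⟨by omega, by omega, ?_, ?_⟩
    · intro y hy
      constructor
      · intro hpr
        by_cases hyE : y ∈ E'
        · exfalso
          have h1 := hK4' y hyE
          have e2 : W * K + b - r + y = W * K + (b - r + y) := by
            have : r ≤ b := by omega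
            omega
          rw [e2] at hpr
          exact h1 hpr
        · rw [hE', mem_filter] at hyE
          push Not at hyE
          obtain ⟨i, hi⟩ := hyE (by rw [hEd, Finset.mem_range]; omega)
          rw [← hi, e i] at hpr
          rw [mem_image]
          exact ⟨i, (hK3' i).1 hpr, hi⟩
      · intro hyH
        rw [mem_image] at hyH
        obtain ⟨i, hi, rfl⟩ := hyH
        rw [e i]
        exact (hK3' i).2 hi
    · intro y hy p hp hpd
      rw [mem_image] at hy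
      obtain ⟨i, hi, rfl⟩ := hy
      rw [e i] at hpd
      by_contra hcon
      push Not at hcon
      refine hK2' p hp hcon i ?_
      show (p : ℤ) ∣ P.eval ((W * (K + t i) + b : ℕ) : ℤ)
      rw [hPev]
      apply Dvd.dvd.mul_left
      have h1 : (p : ℤ) ∣ (((h * (W * (K + t i) + b)) ^ 2 + 1 : ℕ) : ℤ) := by exact_mod_cast hpd
      refine h1.trans (dvd_of_eq ?_)
      push_cast
      ring

end Pool.Agent.H534.UT
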